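import Pool.Agent.Y669.DescF
import Pool.Agent.H437R2.Man.MWWeak

/-!
# The multiplicity of a character of 2-power order and the classes over the cyclic field
-/

set_option autoImplicit false

namespace Pool.Agent.Y669

open WeierstrassCurve Pool.Agent.H918R3 Pool.Agent.H918R3.TB1 TensorProduct
open Pool.Agent.W605.AT (Sc sc sc_zero sc_some sc_add sc_inj some_congr)

lemma crv_bc {K K' : Type} [Field K] [Field K'] [Algebra K K'] (e1 e2 e3 : K) :
    (crv e1 e2 e3).baseChange K' = crv (algebraMap K K' e1) (algebraMap K K' e2)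
      (algebraMap K K' e3) := by
  simp [crv, WeierstrassCurve.baseChange, WeierstrassCurve.map]

lemma sc_crv {K : Type} [Field K] {e1 e2 e3 f1 f2 f3 u : K} (hu : u ≠ 0)
    (h1 : f1 = u ^ 2 * e1) (h2 : f2 = u ^ 2 * e2) (h3 : f3 = u ^ 2 * e3) :
    Sc (crv e1 e2 e3).toAffine (crv f1 f2 f3).toAffine u where
  h1 := by simp [crv]
  h2 := by
    simp only [crv]
    rw [h1, h2, h3]; ring
  h3 := by simp [crv]
  h4 := by
    simp only [crv]
    rw [h1, h2, h3]; ring
  h6 := by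
    simp only [crv]
    rw [h1, h2, h3]; ring
  hu := hu

section

variable {F : Type} [Field F] [NumberField F] [IsGalois ℚ F] [DecidableEq F]

lemma gact_some {W : WeierstrassCurve ℚ} (σ : F ≃ₐ[ℚ] F) {x y : F}
    (h : (W.baseChange F).toAffine.Nonsingular x y) :
    ∃ h', gact W σ (Affine.Point.some x y h) = Affine.Point.some (σ x) (σ y) h' :=
  ⟨_, Affine.Point.map_some (W' := W.toAffine) (σ : F →ₐ[ℚ] F) h⟩

theorem descG (hab : ∀ σ τ : F ≃ₐ[ℚ] F, σ * τ = τ * σ) (χ : (F ≃ₐ[ℚ] F) →* ℂˣ) (a : ℕ)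
    (L : IntermediateField ℚ F) [IsGalois ℚ L] [DecidableEq L]
    (hL : ∀ τ : F ≃ₐ[ℚ] F, τ ∈ L.fixingSubgroup ↔ χ τ ^ 2 = 1)
    (s : F) (hs0 : s ≠ 0) (hs : ∀ τ : F ≃ₐ[ℚ] F, χ τ ^ 2 = 1 → τ s = (sgz χ τ : F) * s)
    (δ : L) (hδ : (δ : F) = s ^ 2)
    (σ : F ≃ₐ[ℚ] F) (hσ1 : χ σ ^ (2 ^ a) = -1) (hσ2 : ∀ τ, ∃ j : ℕ, χ τ = χ σ ^ j)
    (e1 e2 e3 : ℤ) (h12 : e1 ≠ e2) (h13 : e1 ≠ e3) (h23 : e2 ≠ e3)
    (hsq : ∀ τ : L ≃ₐ[ℚ] L, IsSquare (δ * τ δ))
    (hfin : (SX L δ (e2 - e1) (e3 - e1)).Finite) :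
    2 ^ (Module.finrank ℂ (PartC F χ (crv (e1 : ℚ) e2 e3))) ≤
      8 * max 1 (SX L δ (e2 - e1) (e3 - e1)).ncard := by
  classical
  have hδ0 : δ ≠ 0 := by
    intro h
    rw [h] at hδ
    exact pow_ne_zero 2 hs0 hδ.symm
  obtain ⟨W, hW⟩ : ∃ W : WeierstrassCurve ℚ, W = crv (e1 : ℚ) e2 e3 := ⟨_, rfl⟩
  rw [← hW]
  have hWF : W.baseChange F = crv (e1 : F) e2 e3 := by
    rw [hW, crv_bc]
    simp
  obtain ⟨W', hW'⟩ : ∃ W' : WeierstrassCurve L, W' = crv (δ * e1) (δ * e2) (δ * e3) := ⟨_, rfl⟩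
  have hW'F : W'.baseChange F = crv ((δ : F) * e1) (δ * e2) (δ * e3) := by
    rw [hW', crv_bc]
    simp
  have hsc : Sc (W'.baseChange F).toAffine (W.baseChange F).toAffine s⁻¹ := by
    rw [hWF, hW'F]
    refine sc_crv (inv_ne_zero hs0) ?_ ?_ ?_ <;>
    · rw [hδ]
      field_simp
  have hW'L : W'.baseChange L = W' := by
    rw [hW', crv_bc]
    simp
  -- the homomorphism
  have hψ : ∃ ψ : Pt (δ * (e1 : L)) (δ * e2) (δ * e3) →+ (W.baseChange F).toAffine.Point,
      Function.Injective ψ ∧ (∀ X Y h, ∃ h', ψ (Affine.Point.some X Y h) =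
        Affine.Point.some ((s⁻¹) ^ 2 * (X : F)) ((s⁻¹) ^ 3 * (Y : F)) h') ∧
      (∀ x y h, (∃ X : L, (X : F) = s ^ 2 * x) → (∃ Y : L, (Y : F) = s ^ 3 * y) →
        ∃ Q, ψ Q = Affine.Point.some x y h) := by
    have key : ∀ (W₁ : WeierstrassCurve L), W₁ = W' →
        (∃ ψ : W₁.toAffine.Point →+ (W.baseChange F).toAffine.Point,
          Function.Injective ψ ∧ (∀ X Y h, ∃ h', ψ (Affine.Point.some X Y h) =
            Affine.Point.some ((s⁻¹) ^ 2 * (X : F)) ((s⁻¹) ^ 3 * (Y : F)) h') ∧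
          (∀ x y h, (∃ X : L, (X : F) = s ^ 2 * x) → (∃ Y : L, (Y : F) = s ^ 3 * y) →
            ∃ Q, ψ Q = Affine.Point.some x y h)) →
        (∃ ψ : W'.toAffine.Point →+ (W.baseChange F).toAffine.Point,
          Function.Injective ψ ∧ (∀ X Y h, ∃ h', ψ (Affine.Point.some X Y h) =
            Affine.Point.some ((s⁻¹) ^ 2 * (X : F)) ((s⁻¹) ^ 3 * (Y : F)) h') ∧
          (∀ x y h, (∃ X : L, (X : F) = s ^ 2 * x) → (∃ Y : L, (Y : F) = s ^ 3 * y) →
            ∃ Q, ψ Q = Affine.Point.some x y h)) := by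
      rintro W₁ rfl h
      exact h
    have key2 := key _ hW'L ?_
    · rw [hW'] at key2
      exact key2
    let j : (W'.baseChange L).toAffine.Point →+ (W'.baseChange F).toAffine.Point :=
      Affine.Point.map (W' := W'.toAffine) (Algebra.ofId L F)
    have hj : Function.Injective j := Affine.Point.map_injective _
    let φ0 : (W'.baseChange F).toAffine.Point →+ (W.baseChange F).toAffine.Point :=
      AddMonoidHom.mk' (sc _ _ s⁻¹) (sc_add hsc)
    have hjs : ∀ X Y h, ∃ h', j (Affine.Point.some X Y h) =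
        Affine.Point.some (X : F) (Y : F) h' := fun X Y h =>
      ⟨_, Affine.Point.map_some (W' := W'.toAffine) (Algebra.ofId L F) h⟩
    have hφs : ∀ X Y h, ∃ h', φ0 (Affine.Point.some X Y h) =
        Affine.Point.some ((s⁻¹) ^ 2 * X) ((s⁻¹) ^ 3 * Y) h' := fun X Y h =>
      ⟨_, sc_some hsc h⟩
    refine ⟨φ0.comp j, ?_, ?_, ?_⟩
    · intro P Q hPQ
      exact hj (sc_inj hsc hPQ)
    · intro X Y h
      obtain ⟨h1, h2⟩ := hjs X Y h
      obtain ⟨h3, h4⟩ := hφs X Y h1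
      refine ⟨h3, ?_⟩
      rw [AddMonoidHom.comp_apply, h2, h4]
    · rintro x y h ⟨X, hX⟩ ⟨Y, hY⟩
      have hn1 : (W'.baseChange F).toAffine.Nonsingular (X : F) (Y : F) := by
        rw [← hsc.non]
        have e1 : (s⁻¹) ^ 2 * (X : F) = x := by rw [hX]; field_simp
        have e2 : (s⁻¹) ^ 3 * (Y : F) = y := by rw [hY]; field_simp
        rw [e1, e2]
        exact h
      have hn : (W'.baseChange L).toAffine.Nonsingular X Y :=
        (W'.toAffine.baseChange_nonsingular (Algebra.ofId L F).injective X Y).1 hn1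
      refine ⟨Affine.Point.some X Y hn, ?_⟩
      obtain ⟨h1, h2⟩ := hjs X Y hn
      obtain ⟨h3, h4⟩ := hφs X Y h1
      rw [AddMonoidHom.comp_apply, h2, h4]
      apply some_congr
      · rw [hX]; field_simp
      · rw [hY]; field_simp
  obtain ⟨ψ, hψi, hψs, hψr⟩ := hψ
  have hmemL : ∀ x : F, (∀ τ : F ≃ₐ[ℚ] F, χ τ ^ 2 = 1 → τ x = x) → ∃ X : L, (X : F) = x := by
    intro x hx
    have h1 : x ∈ IntermediateField.fixedField L.fixingSubgroup := by
      rw [IntermediateField.mem_fixedField_iff]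
      intro τ hτ
      exact hx τ ((hL τ).1 hτ)
    rw [IsGalois.fixedField_fixingSubgroup] at h1
    exact ⟨⟨x, h1⟩, rfl⟩
  have hfixL : ∀ (X : L) (τ : F ≃ₐ[ℚ] F), χ τ ^ 2 = 1 → τ (X : F) = X := by
    intro X τ hτ
    exact (IntermediateField.mem_fixingSubgroup_iff _ _).1 ((hL τ).2 hτ) _ X.2
  -- the eigenpoints
  obtain ⟨M, hM⟩ : ∃ M : Set (W.baseChange F).toAffine.Point, M = {P | ∀ τ : F ≃ₐ[ℚ] F,
    χ τ ^ 2 = 1 → gact W τ P = sgz χ τ • P} := ⟨_, rfl⟩
  have hnegF : ∀ (x y : F) (h : (W.baseChange F).toAffine.Nonsingular x y),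
      ∃ h', -(Affine.Point.some x y h) = Affine.Point.some x (-y) h' := by
    intro x y h
    have e : (W.baseChange F).toAffine.negY x y = -y := by
      rw [hWF]
      simp [Affine.negY, crv]
    have h1 := Affine.Point.neg_some h
    have h2 := (Affine.nonsingular_neg x y).2 h
    refine ⟨by rw [← e]; exact h2, ?_⟩
    rw [h1]
    exact some_congr _ _ rfl e
  have hψM : ∀ Q, ψ Q ∈ M := by
    intro Q
    rw [hM]
    intro τ hτ
    cases Q with
    | zero =>
      have e0 : (Affine.Point.zero : Pt (δ * (e1 : L)) (δ * e2) (δ * e3)) = 0 := rfl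
      rw [e0, map_zero, map_zero, smul_zero]
    | some X Y h =>
      obtain ⟨h1, h2⟩ := hψs X Y h
      rw [h2]
      obtain ⟨h3, h4⟩ := gact_some τ h1
      rw [h4]
      have hX := hfixL X τ hτ
      have hY := hfixL Y τ hτ
      rcases sgz_or χ τ with h5 | h5
      · have h6 : τ s = s := by rw [hs τ hτ, h5]; simp
        rw [h5, one_smul]
        apply some_congr
        · rw [map_mul, map_pow, map_inv₀, h6, hX]
        · rw [map_mul, map_pow, map_inv₀, h6, hY]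
      · have h6 : τ s = -s := by rw [hs τ hτ, h5]; simp
        rw [h5, neg_smul, one_smul]
        obtain ⟨h7, h8⟩ := hnegF _ _ h1
        rw [h8]
        apply some_congr
        · rw [map_mul, map_pow, map_inv₀, h6, hX, inv_neg]
          ring
        · rw [map_mul, map_pow, map_inv₀, h6, hY, inv_neg]
          ring
  have hMψ : ∀ P ∈ M, ∃ Q, ψ Q = P := by
    intro P hP
    rw [hM] at hP
    cases P with
    | zero => exact ⟨0, map_zero ψ⟩
    | some x y h =>
      have hxy : ∀ τ : F ≃ₐ[ℚ] F, χ τ ^ 2 = 1 → τ x = x ∧ τ y = (sgz χ τ : F) * y := by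
        intro τ hτ
        have h1 := hP τ hτ
        obtain ⟨h3, h4⟩ := gact_some τ h
        rw [h4] at h1
        rcases sgz_or χ τ with h5 | h5
        · rw [h5, one_smul] at h1
          simp only [Affine.Point.some.injEq] at h1
          rw [h5]
          exact ⟨h1.1, by rw [Int.cast_one, one_mul]; exact h1.2⟩
        · rw [h5, neg_smul, one_smul] at h1
          obtain ⟨h7, h8⟩ := hnegF _ _ h
          rw [h8] at h1
          simp only [Affine.Point.some.injEq] at h1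
          rw [h5]
          exact ⟨h1.1, by rw [Int.cast_neg, Int.cast_one, neg_mul, one_mul]; exact h1.2⟩
      have hcast : ∀ τ : F ≃ₐ[ℚ] F, (sgz χ τ : F) * (sgz χ τ : F) = 1 := by
        intro τ
        exact_mod_cast congrArg (Int.cast : ℤ → F) (sgz_sq χ τ)
      apply hψr x y h
      · apply hmemL
        intro τ hτ
        rw [map_mul, map_pow, hs τ hτ, (hxy τ hτ).1]
        linear_combination s ^ 2 * x * hcast τ
      · apply hmemL
        intro τ hτ
        rw [map_mul, map_pow, hs τ hτ, (hxy τ hτ).2]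
        linear_combination ((sgz χ τ : F) * (sgz χ τ : F) + 1) * s ^ 3 * y * hcast τ
  have hMg : ∀ (τ : F ≃ₐ[ℚ] F), ∀ P ∈ M, gact W τ P ∈ M := by
    intro τ P hP
    rw [hM] at hP ⊢
    intro τ' hτ'
    rw [← gact_mul, hab, gact_mul, hP τ' hτ', map_zsmul]
  -- the endomorphism
  have hTex : ∀ Q, ∃ Q', ψ Q' = gact W σ (ψ Q) := fun Q => hMψ _ (hMg σ _ (hψM Q))
  choose T0 hT0 using hTex
  let T : Pt (δ * (e1 : L)) (δ * e2) (δ * e3) →+ Pt (δ * (e1 : L)) (δ * e2) (δ * e3) :=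
    AddMonoidHom.mk' T0 (fun P Q => by
      apply hψi
      rw [hT0, map_add, map_add, map_add, hT0, hT0])
  have hT : ∀ Q, ψ (T Q) = gact W σ (ψ Q) := hT0
  have hTn : ∀ (n : ℕ) (Q), ψ (T^[n] Q) = gact W (σ ^ n) (ψ Q) := by
    intro n
    induction n with
    | zero =>
      intro Q
      rw [pow_zero, Function.iterate_zero, id]
      cases hQ : ψ Q with
      | zero => rfl
      | some x y h =>
        obtain ⟨h3, h4⟩ := gact_some (1 : F ≃ₐ[ℚ] F) h
        rw [h4]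
        rfl
    | succ n ih =>
      intro Q
      rw [Function.iterate_succ_apply', hT, ih, pow_succ', gact_mul]
  have hTneg : ∀ n : ℕ, χ σ ^ n = -1 → ∀ Q, T^[n] Q = -Q := by
    intro n hn Q
    apply hψi
    have h1 : χ (σ ^ n) ^ 2 = 1 := by rw [map_pow, hn]; simp
    have h2 := hψM Q
    rw [hM] at h2
    rw [hTn, h2 _ h1, map_neg]
    have h3 : sgz χ (σ ^ n) = -1 := by
      unfold sgz
      rw [if_neg]
      rw [map_pow, hn]
      intro h4
      have h5 := congrArg (Units.val) h4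
      simp only [Units.val_neg, Units.val_one] at h5
      norm_num at h5
    rw [h3, neg_smul, one_smul]
  obtain ⟨σL, hσL⟩ : ∃ σL : L ≃ₐ[ℚ] L, σL = AlgEquiv.restrictNormalHom L σ := ⟨_, rfl⟩
  have hσLF : ∀ x : L, ((σL x : L) : F) = σ (x : F) := fun x => by
    rw [hσL]
    exact AlgEquiv.restrictNormal_commutes σ L x
  have hres : ∀ τ : F ≃ₐ[ℚ] F, AlgEquiv.restrictNormalHom L τ = 1 ↔ χ τ ^ 2 = 1 := by
    intro τ
    have hc : ∀ x : L, ((AlgEquiv.restrictNormalHom L τ x : L) : F) = τ (x : F) := fun x =>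
      AlgEquiv.restrictNormal_commutes τ L x
    rw [← hL, IntermediateField.mem_fixingSubgroup_iff]
    constructor
    · intro h x hx
      have h1 := hc ⟨x, hx⟩
      rw [h] at h1
      exact h1.symm
    · intro h
      ext x
      rw [hc x]
      exact h _ x.2
  obtain ⟨m, hm⟩ : ∃ m, m = orderOf σL := ⟨_, rfl⟩
  have hm1 : (χ σ ^ m) ^ 2 = 1 := by
    have h1 : AlgEquiv.restrictNormalHom L (σ ^ m) = 1 := by
      rw [map_pow, ← hσL, hm]
      exact pow_orderOf_eq_one σL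
    have h2 := (hres _).1 h1
    rw [map_pow] at h2
    exact h2
  have hmd : m ∣ 2 ^ a := by
    rw [hm]
    apply orderOf_dvd_of_pow_eq_one
    rw [hσL, ← map_pow, hres, map_pow, hσ1]
    simp
  have hmneg : χ σ ^ m = -1 := by
    obtain ⟨c, hc⟩ := hmd
    have h1 : ((χ σ ^ m : ℂˣ) : ℂ) * ((χ σ ^ m : ℂˣ) : ℂ) = 1 := by
      rw [← sq, ← Units.val_pow_eq_pow_val, hm1, Units.val_one]
    rcases mul_self_eq_one_iff.1 h1 with h2 | h2
    · exfalso
      have h3 : χ σ ^ m = 1 := Units.ext h2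
      have h4 : χ σ ^ (2 ^ a) = 1 := by rw [hc, pow_mul, h3, one_pow]
      rw [hσ1] at h4
      have h5 := congrArg (Units.val) h4
      simp only [Units.val_neg, Units.val_one] at h5
      norm_num at h5
    · apply Units.ext
      rw [h2]
      simp
  have hgenσ : ∀ τ : L ≃ₐ[ℚ] L, τ ∈ Subgroup.zpowers σL := by
    intro τ
    obtain ⟨τF, rfl⟩ := AlgEquiv.restrictNormalHom_surjective (F := ℚ) (K₁ := L) F τ
    obtain ⟨j, hj⟩ := hσ2 τF
    have h1 : AlgEquiv.restrictNormalHom L (τF * (σ ^ j)⁻¹) = 1 := by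
      rw [hres, map_mul, map_inv, map_pow, hj, mul_inv_cancel, one_pow]
    rw [map_mul, map_inv, mul_inv_eq_one, map_pow, ← hσL] at h1
    rw [h1]
    exact ⟨j, by simp⟩
  obtain ⟨S, hS1, hS2⟩ := descL δ hδ0 hsq e1 e2 e3 h12 h13 h23 T σL m hm.symm hgenσ
    (hTneg m hmneg) (by
      intro x y h
      obtain ⟨h1, h2⟩ := hψs x y h
      obtain ⟨h3, h4⟩ := gact_some σ h1
      have h5 := hT (Affine.Point.some x y h)
      rw [h2, h4] at h5
      cases hQ : T (Affine.Point.some x y h) with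
      | zero =>
        exfalso
        rw [hQ] at h5
        have e0 : (Affine.Point.zero : Pt (δ * (e1 : L)) (δ * e2) (δ * e3)) = 0 := rfl
        rw [e0, map_zero] at h5
        exact Affine.Point.some_ne_zero _ h5.symm
      | some x' y' h' =>
        refine ⟨x', y', h', rfl, ?_⟩
        rw [hQ] at h5
        obtain ⟨h6, h7⟩ := hψs x' y' h'
        rw [h7] at h5
        simp only [Affine.Point.some.injEq] at h5
        have h8 := h5.1
        rw [map_mul, map_pow, map_inv₀] at h8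
        have hσs : σ s ≠ 0 := (map_ne_zero_iff _ σ.injective).2 hs0
        apply Subtype.ext
        have e8 : ((x' * σL δ : L) : F) = (x' : F) * σ (δ : F) := by
          rw [← hσLF]; rfl
        have e9 : ((δ * σL x : L) : F) = (δ : F) * σ (x : F) := by
          rw [← hσLF]; rfl
        rw [e8, e9, hδ, map_pow]
        field_simp at h8
        linear_combination h8) hfin
  -- the eigenmap
  let Λ : Pt (δ * (e1 : L)) (δ * e2) (δ * e3) →+ (ℂ ⊗[ℤ] (W.baseChange F).toAffine.Point) :=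
    (proj W χ).comp ψ
  have hΛ : ∀ g, Λ (T g) = ((χ σ : ℂˣ) : ℂ) • Λ g := by
    intro g
    show proj W χ (ψ (T g)) = _
    rw [hT, proj_gact]
    rfl
  have hfg : AddGroup.FG (Pt (δ * (e1 : L)) (δ * e2) (δ * e3)) := by
    have c12 : δ * (e1 : L) ≠ δ * e2 := fun h => h12 (by exact_mod_cast mul_left_cancel₀ hδ0 h)
    have c13 : δ * (e1 : L) ≠ δ * e3 := fun h => h13 (by exact_mod_cast mul_left_cancel₀ hδ0 h)
    have c23 : δ * (e2 : L) ≠ δ * e3 := fun h => h23 (by exact_mod_cast mul_left_cancel₀ hδ0 h)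
    have h1 := Pool.Agent.H437R2.Man.MW.pt_fg (K := L) (e1 := -(δ * (e1 : L)))
      (e2 := -(δ * (e2 : L))) (e3 := -(δ * (e3 : L))) (fun h => c12 (neg_injective h))
      (fun h => c13 (neg_injective h)) (fun h => c23 (neg_injective h))
    have h2 : Pool.Agent.H437R2.Man.MW.crv (-(δ * (e1 : L))) (-(δ * (e2 : L))) (-(δ * (e3 : L))) =
        crv (δ * (e1 : L)) (δ * e2) (δ * e3) := by
      unfold Pool.Agent.H437R2.Man.MW.crv crv
      congr 1
      · ring
      · ring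
      · ring
    unfold Pool.Agent.H437R2.Man.MW.Pt at h1
    rw [h2] at h1
    exact h1
  obtain ⟨hn1, hn2⟩ := nak _ hfg T a (hTneg _ hσ1) S hS2 Λ _ hΛ
  refine le_trans (Nat.pow_le_pow_right (by norm_num) (Submodule.finrank_mono ?_))
    (hn1.trans hS1)
  refine (part_le W χ).trans ?_
  rw [Submodule.span_le]
  rintro _ ⟨P, rfl⟩
  -- averaging over the kernel of `χ²`
  obtain ⟨Hs, hHs⟩ : ∃ Hs : Finset (F ≃ₐ[ℚ] F), Hs = Finset.univ.filter (fun τ => χ τ ^ 2 = 1) :=
    ⟨_, rfl⟩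
  have hHmem : ∀ τ, τ ∈ Hs ↔ χ τ ^ 2 = 1 := fun τ => by rw [hHs]; simp
  obtain ⟨PM, hPM⟩ : ∃ PM, PM = ∑ τ ∈ Hs, sgz χ τ • gact W τ P := ⟨_, rfl⟩
  have hPMM : PM ∈ M := by
    rw [hM]
    intro τ' hτ'
    rw [hPM, map_sum, Finset.smul_sum]
    refine Finset.sum_bij (fun τ _ => τ' * τ) ?_ ?_ ?_ ?_
    · intro τ hτ
      rw [hHmem] at hτ ⊢
      rw [map_mul, mul_pow, hτ, hτ', mul_one]
    · intro τ _ τ₂ _ h
      exact mul_left_cancel h
    · intro τ hτ
      rw [hHmem] at hτ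
      refine ⟨τ'⁻¹ * τ, ?_, by group⟩
      rw [hHmem, map_mul, mul_pow, hτ, map_inv, inv_pow, hτ', inv_one, mul_one]
    · intro τ hτ
      rw [hHmem] at hτ
      rw [map_zsmul, ← gact_mul, sgz_mul χ hτ' hτ, smul_smul, ← mul_assoc, sgz_sq, one_mul]
  obtain ⟨Q, hQ⟩ := hMψ PM hPMM
  have h1 : Λ Q = (Hs.card : ℂ) • proj W χ P := by
    show proj W χ (ψ Q) = _
    rw [hQ, hPM, map_sum]
    have h2 : ∀ τ ∈ Hs, proj W χ (sgz χ τ • gact W τ P) = proj W χ P := by
      intro τ hτ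
      rw [hHmem] at hτ
      rw [map_zsmul, proj_gact, ← Int.cast_smul_eq_zsmul ℂ, smul_smul, sgz_coe χ hτ,
        ← Units.val_mul, ← sq, hτ, Units.val_one, one_smul]
    rw [Finset.sum_congr rfl h2, Finset.sum_const, Nat.cast_smul_eq_nsmul]
  have hc0 : (Hs.card : ℂ) ≠ 0 := by
    have : Hs.card ≠ 0 := by
      rw [Finset.card_ne_zero]
      exact ⟨1, by rw [hHmem]; simp⟩
    exact_mod_cast this
  have h3 : proj W χ P = ((Hs.card : ℂ))⁻¹ • Λ Q := by
    rw [h1, smul_smul, inv_mul_cancel₀ hc0, one_smul]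
  show proj W χ P ∈ Submodule.span ℂ (Set.range Λ)
  rw [h3]
  exact Submodule.smul_mem _ _ (Submodule.subset_span ⟨Q, rfl⟩)

end

end Pool.Agent.Y669
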