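import Pool.Agent.W307.AT.Ht
import Pool.Agent.W307.FK.Gen

/-!
# The sums over the curves with full rational 2-torsion, ordered by height, for a general function

Adaptation of `Pool.Agent.W307.AT.twist_height`.
-/

set_option autoImplicit false

namespace Pool.Agent.Y669

open Finset Pool.Agent.W262.RK Pool.Agent.W307.RT Pool.Agent.W307.RS Pool.Agent.W307.SE
open Pool.Agent.W307.FK Pool.Agent.W307.FK.G Pool.Agent.W410.FK Pool.Agent.W307.AT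

open Classical in
/-- the square of the order of the 2-Selmer group of `y² = x (x - D a) (x - D b)` -/
noncomputable def GDG (G : ℤ → ℤ → ℕ) (D : ℤ) (t : ℤ × ℤ) : ℝ :=
  if t.1 ≠ 0 ∧ t.2 ≠ 0 ∧ t.1 ≠ t.2 then ((G (D * t.1) (D * t.2)) : ℝ) ^ 2 else 0

lemma GDG_nonneg (G : ℤ → ℤ → ℕ) (D : ℤ) (t : ℤ × ℤ) : 0 ≤ GDG G D t := by
  unfold GDG
  split_ifs
  · positivity
  · exact le_rfl

lemma box_GDG {G : ℤ → ℤ → ℕ} (h1 : AVGNG G) (h2 : SOM) : ∃ C : ℝ, 0 ≤ C ∧ ∀ D : ℤ, D ≠ 0 → ∀ T : ℕ, 1 ≤ T →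
    ∑ t ∈ Box T, GDG G D t ≤ C * 128 ^ D.natAbs.primeFactors.card * (T : ℝ) ^ 2 := by
  classical
  obtain ⟨C1, hC1, h1⟩ := h1 1
  obtain ⟨C2, hC2, h2⟩ := h2
  refine ⟨9 * C1 * C2, by positivity, fun D hD T hT => ?_⟩
  obtain ⟨Q, hQ⟩ : ∃ Q : ℝ, Q = 128 ^ D.natAbs.primeFactors.card := ⟨_, rfl⟩
  have hQ0 : 0 ≤ Q := by rw [hQ]; positivity
  rw [← hQ]
  -- decomposition with respect to the greatest common divisor
  set S := (Box T).filter fun t : ℤ × ℤ => t.1 ≠ 0 ∧ t.2 ≠ 0 ∧ t.1 ≠ t.2 with hS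
  have e1 : ∑ t ∈ Box T, GDG G D t = ∑ t ∈ S, GDG G D t := by
    symm
    apply sum_subset (filter_subset _ _)
    intro t ht ht2
    unfold GDG
    rw [if_neg]
    intro h
    exact ht2 (mem_filter.2 ⟨ht, h⟩)
  let F : ℤ × ℤ → (Σ _ : ℕ, ℤ × ℤ) := fun t =>
    ⟨Int.gcd t.1 t.2, (t.1 / (Int.gcd t.1 t.2 : ℤ), t.2 / (Int.gcd t.1 t.2 : ℤ))⟩
  have hdiv : ∀ t : ℤ × ℤ, (Int.gcd t.1 t.2 : ℤ) * (t.1 / (Int.gcd t.1 t.2 : ℤ)) = t.1 ∧
      (Int.gcd t.1 t.2 : ℤ) * (t.2 / (Int.gcd t.1 t.2 : ℤ)) = t.2 := fun t =>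
    ⟨Int.mul_ediv_cancel' (Int.gcd_dvd_left _ _), Int.mul_ediv_cancel' (Int.gcd_dvd_right _ _)⟩
  have hinj : Set.InjOn F S := by
    intro t _ t' _ h
    have g1 : Int.gcd t.1 t.2 = Int.gcd t'.1 t'.2 := congrArg Sigma.fst h
    have g2 : (t.1 / (Int.gcd t.1 t.2 : ℤ), t.2 / (Int.gcd t.1 t.2 : ℤ)) =
        (t'.1 / (Int.gcd t'.1 t'.2 : ℤ), t'.2 / (Int.gcd t'.1 t'.2 : ℤ)) :=
      congrArg (fun x : (Σ _ : ℕ, ℤ × ℤ) => x.2) h
    rw [Prod.mk.injEq] at g2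
    obtain ⟨a1, a2⟩ := hdiv t
    obtain ⟨b1, b2⟩ := hdiv t'
    ext
    · rw [← a1, ← b1, g2.1, g1]
    · rw [← a2, ← b2, g2.2, g1]
  have hmem : ∀ t ∈ S, F t ∈ (Icc 1 T).sigma (fun g => Box (T / g)) ∧
      GDG G D t = SSG G (D * ((F t).1 : ℤ)) (F t).2 := by
    intro t ht
    obtain ⟨ht1, t1, t2, t3⟩ := mem_filter.1 ht
    rw [mem_Box] at ht1
    obtain ⟨a1, a2⟩ := hdiv t
    have hg0 : 0 < Int.gcd t.1 t.2 := Int.gcd_pos_of_ne_zero_left _ t1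
    have hgT : Int.gcd t.1 t.2 ≤ T := by
      have : Int.gcd t.1 t.2 ≤ t.1.natAbs :=
        Nat.le_of_dvd (by omega) (Int.natCast_dvd.1 (Int.gcd_dvd_left _ _))
      omega
    have hb : ∀ x y : ℤ, (Int.gcd t.1 t.2 : ℤ) * x = y → y.natAbs ≤ T →
        x.natAbs ≤ T / Int.gcd t.1 t.2 := by
      intro x y hxy hy
      rw [Nat.le_div_iff_mul_le hg0]
      rw [← hxy, Int.natAbs_mul, Int.natAbs_natCast] at hy
      linarith
    refine ⟨?_, ?_⟩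
    · rw [mem_sigma, mem_Icc, mem_Box]
      exact ⟨⟨hg0, hgT⟩, hb _ _ a1 ht1.1, hb _ _ a2 ht1.2⟩
    · unfold GDG SSG
      rw [if_pos ⟨t1, t2, t3⟩, if_pos]
      · change _ = (G (D * (Int.gcd t.1 t.2 : ℤ) * (t.1 / (Int.gcd t.1 t.2 : ℤ)))
          (D * (Int.gcd t.1 t.2 : ℤ) * (t.2 / (Int.gcd t.1 t.2 : ℤ))) : ℝ) ^ 2
        rw [mul_assoc, mul_assoc, a1, a2]
      · refine ⟨?_, ?_, ?_, ?_⟩
        · exact Int.isCoprime_iff_gcd_eq_one.2 (Int.gcd_ediv_gcd_ediv_gcd hg0)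
        · intro h
          apply t1
          change t.1 / (Int.gcd t.1 t.2 : ℤ) = 0 at h
          rw [← a1, h, mul_zero]
        · intro h
          apply t2
          change t.2 / (Int.gcd t.1 t.2 : ℤ) = 0 at h
          rw [← a2, h, mul_zero]
        · intro h
          apply t3
          change t.1 / (Int.gcd t.1 t.2 : ℤ) = t.2 / (Int.gcd t.1 t.2 : ℤ) at h
          exact a1.symm.trans ((congrArg (fun x => (Int.gcd t.1 t.2 : ℤ) * x) h).trans a2)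
  have e2 : ∑ t ∈ S, GDG G D t ≤
      ∑ x ∈ (Icc 1 T).sigma (fun g => Box (T / g)), SSG G (D * (x.1 : ℤ)) x.2 := by
    calc ∑ t ∈ S, GDG G D t = ∑ t ∈ S, SSG G (D * ((F t).1 : ℤ)) (F t).2 :=
          sum_congr rfl fun t ht => (hmem t ht).2
      _ = ∑ x ∈ S.image F, SSG G (D * (x.1 : ℤ)) x.2 := by rw [sum_image hinj]
      _ ≤ _ := sum_le_sum_of_subset_of_nonneg (fun x hx => by
          obtain ⟨t, ht, rfl⟩ := mem_image.1 hx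
          exact (hmem t ht).1) fun x _ _ => SSG_nonneg _ _ _
  rw [e1]
  refine e2.trans ?_
  rw [sum_sigma]
  have e3 : ∀ g ∈ Icc 1 T, ∑ s ∈ Box (T / g), SSG G (D * (g : ℤ)) s ≤
      9 * C1 * Q * (T : ℝ) ^ 2 * ((128 : ℝ) ^ g.primeFactors.card / (g : ℝ) ^ 2) := by
    intro g hg
    rw [mem_Icc] at hg
    have hg0 : (0 : ℝ) < g := by exact_mod_cast hg.1
    have hgz : D * (g : ℤ) ≠ 0 := mul_ne_zero hD (by exact_mod_cast (by omega : g ≠ 0))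
    have f5 : (128 : ℝ) ^ (D * (g : ℤ)).natAbs.primeFactors.card ≤
        Q * 128 ^ g.primeFactors.card := by
      rw [hQ, ← pow_add, Int.natAbs_mul, Int.natAbs_natCast]
      refine pow_le_pow_right₀ (by norm_num) ?_
      rw [Nat.primeFactors_mul (Int.natAbs_ne_zero.2 hD) (by omega)]
      exact card_union_le _ _
    have h3 := box_uni (g := SSG G (D * (g : ℤ))) (A := C1 * (Q * 128 ^ g.primeFactors.card))
      (by positivity)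
      (fun N1 N2 X hX b1 b2 => by
        have h6 := h1 (D * (g : ℤ)) N1 N2 X hgz hX b1 b2
        refine h6.trans ?_
        exact mul_le_mul_of_nonneg_right (mul_le_mul_of_nonneg_left f5 hC1) (by positivity))
      (T := T / g) ((Nat.one_le_div_iff hg.1).2 hg.2)
    refine h3.trans ?_
    have h4 : (((T / g : ℕ) : ℝ)) ^ 2 ≤ ((T : ℝ) / g) ^ 2 :=
      pow_le_pow_left₀ (Nat.cast_nonneg _) Nat.cast_div_le 2
    calc C1 * (Q * 128 ^ g.primeFactors.card) * (9 * (((T / g : ℕ) : ℝ)) ^ 2)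
        ≤ C1 * (Q * 128 ^ g.primeFactors.card) * (9 * ((T : ℝ) / g) ^ 2) := by gcongr
      _ = _ := by
        field_simp
  refine (sum_le_sum e3).trans ?_
  rw [← mul_sum]
  calc 9 * C1 * Q * (T : ℝ) ^ 2 * ∑ g ∈ Icc 1 T, (128 : ℝ) ^ g.primeFactors.card / (g : ℝ) ^ 2
      ≤ 9 * C1 * Q * (T : ℝ) ^ 2 * C2 := mul_le_mul_of_nonneg_left (h2 T) (by positivity)
    _ = 9 * C1 * C2 * Q * (T : ℝ) ^ 2 := by ring

/-- the second moment of a function over the curves with full rational 2-torsion, by height -/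
theorem height_of {G : ℤ → ℤ → ℕ} (h1 : AVGNG G) (R : ℤ × ℤ → ℝ) (hR0 : ∀ c, 0 ≤ R c)
    (hR : ∀ H : ℕ, ∀ c ∈ Cv 2 H, ∀ e1 e2 e3 : ℤ,
      (∀ x : ℤ, x ^ 3 + c.1 * x + c.2 = (x - e1) * (x - e2) * (x - e3)) →
      e2 - e1 ≠ 0 → e3 - e1 ≠ 0 → e2 - e1 ≠ e3 - e1 →
      R c ≤ (G (e2 - e1) (e3 - e1) : ℝ)) :
    ∃ C : ℝ, ∀ H : ℕ, ∑ c ∈ Cv 2 H, R c ^ 2 ≤ C * (Cv 2 H).card := by
  classical
  have h2 : SOM := Pool.Agent.W334.FK.som
  have h4 : LOW 2 6 := Pool.Agent.W672.FK.lowf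
  obtain ⟨F, hinj, hF⟩ := Pool.Agent.W513.FK.parf
  have hmem : ∀ H, ∀ c ∈ Cv 2 H, 4 * c.1 ^ 3 + 27 * c.2 ^ 2 ≠ 0 ∧ 4 * |c.1| ^ 3 ≤ H ∧
      HasT 2 (Sh c.1 c.2) := by
    intro H c hc
    unfold Cv at hc
    obtain ⟨_, a1, a2, _, _, a3⟩ := mem_filter.1 hc
    exact ⟨a1, a2, a3⟩
  let F' : ℤ × ℤ → ℤ × ℤ := fun c => (((F c).1 : ℤ) * (F c).2.1, ((F c).1 : ℤ) * (F c).2.2)
  have key : ∀ H, ∀ c ∈ Cv 2 H, (F' c).1.natAbs ^ 6 ≤ 16 * H ∧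
        (F' c).2.natAbs ^ 6 ≤ 16 * H := by
    intro H c hc
    obtain ⟨a1, a2, a3⟩ := hmem H c hc
    obtain ⟨b1, b2, b3, b4, b5, e1, e2, e3, hr, d1, d2⟩ := hF c a1 a3
    obtain ⟨r1, r2⟩ := root_bd hr
    refine ⟨?_, ?_⟩
    · rw [d1] at r1
      exact size_bd r1 a2
    · rw [d2] at r2
      exact size_bd r2 a2
  have key2 : ∀ H, ∀ c ∈ Cv 2 H, R c ^ 2 ≤ GDG G 1 (F' c) := by
    intro H c hc
    obtain ⟨a1, a2, a3⟩ := hmem H c hc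
    obtain ⟨b1, b2, b3, b4, b5, e1, e2, e3, hr, d1, d2⟩ := hF c a1 a3
    have hg : ((F c).1 : ℤ) ≠ 0 := by exact_mod_cast (by omega : (F c).1 ≠ 0)
    have hne1 : (F' c).1 ≠ 0 := mul_ne_zero hg b3
    have hne2 : (F' c).2 ≠ 0 := mul_ne_zero hg b4
    have hne3 : (F' c).1 ≠ (F' c).2 := fun h => b5 (mul_left_cancel₀ hg h)
    have f4 := hR H c hc e1 e2 e3 hr (by rw [d1]; exact hne1) (by rw [d2]; exact hne2)
      (by rw [d1, d2]; exact hne3)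
    unfold GDG
    rw [if_pos ⟨hne1, hne2, hne3⟩, one_mul, one_mul]
    rw [d1, d2] at f4
    exact pow_le_pow_left₀ (hR0 c) f4 2
  have hinj' : ∀ H, Set.InjOn F' (Cv 2 H : Set (ℤ × ℤ)) := by
    intro H c hc c' hc' h
    obtain ⟨a1, _, a3⟩ := hmem H c hc
    obtain ⟨a1', _, a3'⟩ := hmem H c' hc'
    obtain ⟨b1, b2, _⟩ := hF c a1 a3
    obtain ⟨b1', b2', _⟩ := hF c' a1' a3'
    apply hinj ⟨a1, a3⟩ ⟨a1', a3'⟩
    have hgcd : ∀ x : ℕ × ℤ × ℤ, IsCoprime x.2.1 x.2.2 →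
        Int.gcd ((x.1 : ℤ) * x.2.1) ((x.1 : ℤ) * x.2.2) = x.1 := by
      intro x hx
      rw [Int.gcd_mul_left, Int.isCoprime_iff_gcd_eq_one.1 hx, mul_one, Int.natAbs_natCast]
    have g1 : (F c).1 = (F c').1 := by
      rw [← hgcd _ b2, ← hgcd _ b2']
      have k1 := congrArg Prod.fst h
      have k2 := congrArg Prod.snd h
      change ((F c).1 : ℤ) * (F c).2.1 = ((F c').1 : ℤ) * (F c').2.1 at k1
      change ((F c).1 : ℤ) * (F c).2.2 = ((F c').1 : ℤ) * (F c').2.2 at k2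
      rw [k1, k2]
    have hg : ((F c).1 : ℤ) ≠ 0 := by exact_mod_cast (by omega : (F c).1 ≠ 0)
    have k1 : ((F c).1 : ℤ) * (F c).2.1 = ((F c').1 : ℤ) * (F c').2.1 := congrArg Prod.fst h
    have k2 : ((F c).1 : ℤ) * (F c).2.2 = ((F c').1 : ℤ) * (F c').2.2 := congrArg Prod.snd h
    rw [← g1] at k1 k2
    exact Prod.ext g1 (Prod.ext (mul_left_cancel₀ hg k1) (mul_left_cancel₀ hg k2))
  obtain ⟨K, hK, hfin⟩ := final_uni (by norm_num) h4 16 F' (fun H => ⟨hinj' H, key H⟩)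
  obtain ⟨C, hC, hbox⟩ := box_GDG h1 h2
  refine ⟨K * C, fun H => ?_⟩
  have h5 := hfin (fun c => R c ^ 2) (GDG G 1) (GDG_nonneg G 1) key2 C hC
    (fun T hT => by
      have h6 := hbox 1 one_ne_zero T hT
      simpa using h6) H
  exact h5

end Pool.Agent.Y669
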