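import Pool.Agent.W864.FK.ExpF

/-!
# Expansion of the moments over the signs into symbols, general weights

Version of `Pool.Agent.W864.FK.expf` with an arbitrary multiplicative weight.
-/

set_option autoImplicit false

namespace Pool.Agent.Y669.ExpG

open Finset Pool.Agent.W262.RK Pool.Agent.W108.RK Pool.Agent.W762.RK2 Pool.Agent.W307.FK
  Pool.Agent.W125.RS Pool.Agent.W864.FK

/-- the weight `∏_{p ∣ d} w h(p)` -/
noncomputable def gh (w : ℝ) (h : ℕ → ℝ) (d : ℕ) : ℝ := ∏ p ∈ d.primeFactors, w * h p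

lemma prod_gh {z y : ℕ} {ι : Type} [Fintype ι] [DecidableEq ι] (w : ι → ℝ) (h : ℕ → ℝ)
    (l : Pr z y → Option ι) :
    ∏ i, gh (w i) h (Dl l i) = ∏ p : Pr z y, (l p).elim 1 fun i => w i * h p := by
  have h1 : ∀ i, gh (w i) h (Dl l i) = ∏ p : Pr z y,
      if l p = some i then w i * h p else 1 := by
    intro i
    unfold gh Dl
    rw [prod_pf _ fun p : ℕ => w i * h p]
    simp only [decide_eq_true_eq]
  rw [Finset.prod_congr rfl fun i _ => h1 i, Finset.prod_comm]
  refine Finset.prod_congr rfl fun p _ => ?_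
  cases h : l p with
  | none => simp
  | some j => simp

section final

variable {z y k : ℕ}

/-- the local term -/
noncomputable def TmG (wt : ℕ → ℝ)
    (ξ : Pr z y → Option (Fin 3 × (Fin k → Bool × Bool))) (p : Pr z y) : ℝ :=
  (ξ p).elim 1 fun r => wt p * (((∏ a, ind (LR r.1 true (r.2 a).1 (r.2 a).2
    (sgn p (E1 a ξ)) (sgn p (E2 a ξ)))) + ∏ a, ind (LR r.1 false (r.2 a).1 (r.2 a).2
    (sgn p (E1 a ξ)) (sgn p (E2 a ξ)))) / 2)

lemma lhsG (wt : ℕ → ℝ) :
    ∑ s ∈ Tup (Fin 3) z y, NF k s * ∏ j, gh 1 wt (s j) =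
      ∑ ξ : Pr z y → Option (Fin 3 × (Fin k → Bool × Bool)), ∏ p, TmG wt ξ p := by
  have h1 : ∀ s ∈ Tup (Fin 3) z y, NF k s * ∏ j, gh 1 wt (s j) =
      ∑ d ∈ Fintype.piFinset (fun _ : Fin k => (∏ j, s j).divisors ×ˢ (∏ j, s j).divisors),
        (∏ p ∈ (∏ j, s j).primeFactors, ((∏ a, IlF s (d a) true p) +
        ∏ a, IlF s (d a) false p) / 2) * ∏ j, gh 1 wt (s j) := by
    intro s hs
    rw [NF_eq, Finset.sum_mul]
  rw [Finset.sum_congr rfl h1, sum_bigK fun s d =>
    (∏ p ∈ (∏ j, s j).primeFactors, ((∏ a, IlF s (d a) true p) +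
        ∏ a, IlF s (d a) false p) / 2) * ∏ j, gh 1 wt (s j)]
  refine Finset.sum_congr rfl fun ξ _ => ?_
  have h2 : ∏ j, gh 1 wt (SK ξ j) = ∏ p : Pr z y, ((ξ p).map Prod.fst).elim 1
      fun _ => wt p := by
    have h4 := prod_gh (fun _ : Fin 3 => 1) wt (fun p : Pr z y => (ξ p).map Prod.fst)
    simp only [one_mul] at h4
    exact h4
  have h3 : ∏ j, SK ξ j = nb fun p => ((ξ p).map Prod.fst).isSome := prod_Dl _
  rw [h2, h3, prod_pf _ fun p => ((∏ a, IlF (SK ξ) (E1 a ξ, E2 a ξ) true p) +
    ∏ a, IlF (SK ξ) (E1 a ξ, E2 a ξ) false p) / 2, ← Finset.prod_mul_distrib]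
  refine Finset.prod_congr rfl fun p _ => ?_
  unfold TmG
  cases hx : ξ p with
  | none => simp
  | some r =>
    have h4 : ∀ (neg : Bool) (a : Fin k), IlF (SK ξ) (E1 a ξ, E2 a ξ) neg p =
        ind (LR r.1 neg (r.2 a).1 (r.2 a).2 (sgn p (E1 a ξ)) (sgn p (E2 a ξ))) := by
      intro neg a
      unfold IlF
      have e1 : dv p (E1 a ξ : ℤ) = (r.2 a).1 := by
        have : B1 a (ξ p) = (r.2 a).1 := by rw [hx]; rfl
        rw [← this]
        unfold dv
        rw [Bool.eq_iff_iff, decide_eq_true_iff, Int.natCast_dvd_natCast]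
        exact dvd_nb _ p
      have e2 : dv p (E2 a ξ : ℤ) = (r.2 a).2 := by
        have : B2 a (ξ p) = (r.2 a).2 := by rw [hx]; rfl
        rw [← this]
        unfold dv
        rw [Bool.eq_iff_iff, decide_eq_true_iff, Int.natCast_dvd_natCast]
        exact dvd_nb _ p
      have e3 : ∀ j, (p : ℕ) ∣ SK ξ j ↔ j = r.1 := by
        intro j
        unfold SK Dl
        rw [dvd_nb, decide_eq_true_iff]
        show (ξ p).map Prod.fst = some j ↔ j = r.1
        rw [hx]
        simp [eq_comm]
      congr 1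
      simp only [e1, e2, e3, forall_eq]
    simp only [h4]
    simp only [Option.map_some, Option.isSome_some, if_true, Option.elim]
    ring

/-- the local factor -/
noncomputable def GG (wt : ℕ → ℝ)
    (ξ : Pr z y → Option (Fin 3 × (Fin k → Bool × Bool))) (p : Pr z y) (x : Option (IF k)) : ℝ :=
  x.elim 1 fun i => wt p * (1 / 2 ^ k *
    ∏ a, (if i.1.2.2 a = true then sg (phi i.1.1 (sgn p (E1 a ξ)) (sgn p (E2 a ξ))) else 1))

lemma sum_GG (wt : ℕ → ℝ)
    (ξ : Pr z y → Option (Fin 3 × (Fin k → Bool × Bool))) (p : Pr z y) :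
    ∑ x ∈ univ.filter (fun x : Option (IF k) => fgF x = ξ p), GG wt ξ p x =
      TmG wt ξ p := by
  rw [Finset.sum_filter, Fintype.sum_option]
  unfold TmG
  cases hx : ξ p with
  | none => simp [fgF, GG]
  | some r =>
    obtain ⟨j, v⟩ := r
    have h0 : (if fgF (none : Option (IF k)) = some (j, v) then GG wt ξ p none else 0) = 0 := by
      rw [if_neg]
      simp [fgF]
    rw [h0, zero_add]
    set F : Fin 3 × (Fin k → Bool) × (Fin k → Bool) → ℝ :=
      fun r : Fin 3 × (Fin k → Bool) × (Fin k → Bool) =>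
          if r.1 = j ∧ (fun a => em r.1 (r.2.1 a)) = v then wt p * (1 / 2 ^ k *
            ∏ a, (if r.2.2 a = true then sg (phi r.1 (sgn p (E1 a ξ)) (sgn p (E2 a ξ))) else 1))
            else 0 with hF
    have h1 : ∀ i : IF k, (if fgF (some i) = some (j, v) then GG wt ξ p (some i) else 0) =
        F i.1 := by
      intro i
      refine if_congr ?_ rfl rfl
      simp only [fgF, Option.map_some, Option.some.injEq, Prod.mk.injEq]
    refine (Finset.sum_congr rfl fun i _ => h1 i).trans ((sum_IF F).trans ?_)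
    rw [Fintype.sum_prod_type, Finset.sum_eq_single j]
    · rw [Fintype.sum_prod_type]
      show _ = wt p * _
      rw [locF j v, Finset.mul_sum]
      refine Finset.sum_congr rfl fun x _ => ?_
      by_cases hxv : (fun a => em j (x a)) = v
      · rw [if_pos hxv, Finset.mul_sum]
        refine Finset.sum_congr rfl fun y _ => ?_
        simp only [hF, hxv, and_self, if_true, mul_ite, mul_zero]
      · rw [if_neg hxv, mul_zero]
        refine Finset.sum_eq_zero fun y _ => ?_
        simp [hF, hxv]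
    · intro j' _ hj'
      refine Finset.sum_eq_zero fun x _ => ?_
      simp [hF, hj']
    · intro h
      exact absurd (Finset.mem_univ _) h

lemma rhsG (wt : ℕ → ℝ)
    (ξ : Pr z y → Option (Fin 3 × (Fin k → Bool × Bool))) (l : Pr z y → Option (IF k))
    (h : ∀ p, fgF (l p) = ξ p) :
    (∏ i, gh (1 / 2 ^ k) wt (Dl l i)) * Pool.Agent.W262.RK.Sym (Lk k) (fun _ => 1) (Dl l) =
      ∏ p, GG wt ξ p (l p) := by
  rw [prod_gh (fun _ => 1 / 2 ^ k), Sym_Dl, ← Finset.prod_mul_distrib, ← Finset.prod_mul_distrib]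
  refine Finset.prod_congr rfl fun p _ => ?_
  have hJ1 : Jr 1 (p : ℕ) = 1 := Jr_one_left p
  cases hl : l p with
  | none =>
    have h0 : ∀ q, Pool.Agent.W762.RK2.lk (Lk k) (l q) (none : Option (IF k)) = false := by
      intro q
      cases l q <;> rfl
    simp [h0, GG]
  | some i =>
    have h2 : ∏ q : Pr z y, (if Pool.Agent.W762.RK2.lk (Lk k) (l q) (some i) = true
        then Jr (q : ℕ) p else 1) =
        ∏ a, (if i.1.2.2 a = true then
          sg (phi i.1.1 (sgn p (E1 a ξ)) (sgn p (E2 a ξ))) else 1) := by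
      have h3 : ∀ a : Bool, ∀ b1 b2 : Pr z y → Bool,
          (if a = true then sg (phi i.1.1 (sgn p (nb b1 : ℤ)) (sgn p (nb b2 : ℤ))) else 1) =
          ∏ q : Pr z y, if a = true then fac i.1.1 q p (b1 q) (b2 q) else 1 := by
        intro a b1 b2
        cases a
        · simp
        · simp only [if_true]
          exact sgn_fac _ p b1 b2
      unfold E1 E2
      simp only [h3]
      rw [Finset.prod_comm]
      refine Finset.prod_congr rfl fun q _ => ?_
      by_cases hqp : q = p
      · subst hqp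
        rw [hl]
        have h4 : Pool.Agent.W762.RK2.lk (Lk k) (some i) (some i) = false := by
          show (decide (i.1.1 ≠ i.1.1) && decide (dt k i.1.2.1 i.1.2.2 % 2 = 1)) = false
          simp
        simp [h4, fac]
      · cases hq : l q with
        | none =>
          have h5 : ξ q = none := by rw [← h q, hq]; rfl
          simp [Pool.Agent.W762.RK2.lk, h5, B1, B2, fac]
        | some i' =>
          have h5 : ξ q = some (i'.1.1, fun a => em i'.1.1 (i'.1.2.1 a)) := by
            rw [← h q, hq]; rfl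
          have e1 : ∀ a, B1 a (ξ q) = (em i'.1.1 (i'.1.2.1 a)).1 := fun a => by rw [h5]; rfl
          have e2 : ∀ a, B2 a (ξ q) = (em i'.1.1 (i'.1.2.1 a)).2 := fun a => by rw [h5]; rfl
          simp only [e1, e2, fac_em i.1.1 i'.1.1 hqp]
          by_cases hc : i'.1.1 = i.1.1
          · have h7 : Pool.Agent.W762.RK2.lk (Lk k) (some i') (some i) = false := by
              show (decide (i'.1.1 ≠ i.1.1) && decide (dt k i'.1.2.1 i.1.2.2 % 2 = 1)) = false
              simp [hc]
            simp [h7, hc]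
          · have h7 : (if Pool.Agent.W762.RK2.lk (Lk k) (some i') (some i) = true
                then Jr (q : ℕ) p else 1) =
                if dt k i'.1.2.1 i.1.2.2 % 2 = 1 then Jr (q : ℕ) p else 1 := by
              refine if_congr ?_ rfl rfl
              show (decide (i'.1.1 ≠ i.1.1) && decide (dt k i'.1.2.1 i.1.2.2 % 2 = 1)) = true ↔ _
              simp [hc]
            rw [h7, ← prod_dt (Jr (q : ℕ) p) (Jr_self_mul hqp) i'.1.2.1 i.1.2.2]
            refine Finset.prod_congr rfl fun a _ => ?_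
            rw [if_pos hc]
            cases i'.1.2.1 a <;> cases i.1.2.2 a <;> simp
    rw [h2]
    simp only [GG, Option.elim, hJ1]
    ring

end final

theorem expg (k : ℕ) (wt : ℕ → ℝ) (z y : ℕ) (hz : 2 ≤ z) :
    ∑ s ∈ Tup (Fin 3) z y, NF k s * ∏ j, gh 1 wt (s j) =
    ∑ d ∈ Tup (IF k) z y, (∏ i, gh (1 / 2 ^ k) wt (d i)) * Pool.Agent.W262.RK.Sym (Lk k) (fun _ => 1) d := by
  classical
  rw [lhsG, sum_Tup, ← Finset.sum_fiberwise univ
    (fun (l : Pr z y → Option (IF k)) => fun p => fgF (l p))]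
  refine Finset.sum_congr rfl fun ξ _ => ?_
  have h1 : (univ.filter fun l : Pr z y → Option (IF k) => (fun p => fgF (l p)) = ξ) =
      Fintype.piFinset (fun p => univ.filter (fun x : Option (IF k) => fgF x = ξ p)) := by
    ext l
    simp only [Finset.mem_filter, Finset.mem_univ, true_and, Fintype.mem_piFinset, funext_iff]
  rw [h1, Finset.prod_congr rfl fun p _ => (sum_GG wt ξ p).symm, Finset.prod_univ_sum]
  refine Finset.sum_congr rfl fun l hl => ?_
  rw [Fintype.mem_piFinset] at hl
  exact (rhsG wt ξ l fun p => (Finset.mem_filter.1 (hl p)).2).symm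

end Pool.Agent.Y669.ExpG
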