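import Pool.Agent.W655.RK.Ep
import Pool.Agent.W215.FK.MAF
import Pool.Agent.W756.FK.Combf
import Pool.Agent.Y669.AT
import Pool.Agent.Y669.ExpG

/-!
# Sums over the divisors all of whose primes are in a given set of primes
-/

set_option autoImplicit false

namespace Pool.Agent.Y669

open Finset Pool.Agent.W262.RK Pool.Agent.W655.RK Pool.Agent.Y669.ExpG

/-- a set of primes of density `δ` with bounds for the sums of real characters -/
structure PSet (A : ℕ → Prop) [DecidablePred A] (δ : ℝ) (z1 : ℕ) : Prop where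
  d0 : 0 < δ
  d1 : δ ≤ 1
  ub : ∀ (κ : ℤ) (z : ℕ), κ ≠ 0 → z1 ≤ z → 2 ≤ z → κ.natAbs ≤ z → ∃ C : ℝ,
    ∀ (y r : ℕ) (e : Bool), z < y → 1 < r → Squarefree r → (∀ p : ℕ, p.Prime → p ∣ r → z < p) →
      ∑ p ∈ (PS z y).filter A, Jr p r * Jr κ p * x4 e p / (p : ℝ) ≤ Real.log (Real.log r) + C
  mer : ∃ C : ℝ, 0 ≤ C ∧ ∀ z y : ℕ, 2 ≤ y →
    ∑ p ∈ (PS z y).filter A, (1 : ℝ) / p ≤ δ * Real.log (Real.log y) + C
  mer' : ∃ C : ℝ, 0 ≤ C ∧ ∀ z y : ℕ, 2 ≤ y →
    ∑ p ∈ (PS z y).filter (fun p => ¬ A p), (1 : ℝ) / p ≤ (1 - δ) * Real.log (Real.log y) + C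

variable {A : ℕ → Prop} [DecidablePred A] {δ : ℝ} {z1 : ℕ}

/-- the weight -/
noncomputable def hA (A : ℕ → Prop) [DecidablePred A] (c p : ℕ) : ℝ :=
  if A p then 1 / ((p : ℝ) - c) else 0

lemma hA_nonneg {c p : ℕ} (h : c ≤ p) : 0 ≤ hA A c p := by
  unfold hA
  split_ifs
  · have : (c : ℝ) ≤ p := by exact_mod_cast h
    exact div_nonneg zero_le_one (by linarith)
  · exact le_rfl

lemma hA_le {c p : ℕ} (h : c ≤ p) : hA A c p ≤ 1 / ((p : ℝ) - c) := by
  unfold hA
  split_ifs
  · exact le_rfl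
  · have : (c : ℝ) ≤ p := by exact_mod_cast h
    exact div_nonneg zero_le_one (by linarith)

lemma gh_nonneg {w : ℝ} {c z y d : ℕ} (hw : 0 ≤ w) (hz : c ≤ z) (hd : d ∈ (PP z y).divisors) :
    0 ≤ gh w (hA A c) d := by
  unfold gh
  refine prod_nonneg fun p hp => mul_nonneg hw (hA_nonneg ?_)
  have := dv_prime hd (Nat.prime_of_mem_primeFactors hp) (Nat.dvd_of_mem_primeFactors hp)
  omega

lemma gh_le_gw {w : ℝ} {c z y d : ℕ} (hw : 0 ≤ w) (hz : c ≤ z) (hd : d ∈ (PP z y).divisors) :
    gh w (hA A c) d ≤ gw w c d := by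
  unfold gh gw
  refine prod_le_prod (fun p hp => ?_) fun p hp => ?_
  · have := dv_prime hd (Nat.prime_of_mem_primeFactors hp) (Nat.dvd_of_mem_primeFactors hp)
    exact mul_nonneg hw (hA_nonneg (by omega))
  · have := dv_prime hd (Nat.prime_of_mem_primeFactors hp) (Nat.dvd_of_mem_primeFactors hp)
    rw [div_eq_mul_one_div]
    exact mul_le_mul_of_nonneg_left (hA_le (by omega)) hw

lemma gh_one (w : ℝ) (h : ℕ → ℝ) : gh w h 1 = 1 := by simp [gh]

lemma gh_hh (w : ℝ) (h : ℕ → ℝ) (d : ℕ) : gh w h d * hh d =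
    ∏ p ∈ d.primeFactors, (w * h p * (1 + 2 / (p : ℝ))) := by
  unfold gh hh
  rw [← Finset.prod_mul_distrib]

/-- the sums of the weights over all, the small and the large divisors -/
theorem fullA (hA' : PSet A δ z1) (w : ℝ) (c : ℕ) (hw : 0 < w) (hw2 : w ≤ 1 / 2) :
    ∃ z0 : ℕ, ∀ z, z0 ≤ z → ∃ C : ℝ,
  (∀ y, z < y → ∑ d ∈ (PP z y).divisors, gh w (hA A c) d * hh d ≤
    C * (Real.log y) ^ (w * δ)) ∧
  (∀ y V : ℕ, z < y → 2 ≤ V →
    ∑ d ∈ (PP z y).divisors.filter (fun d => d ≤ V), gh w (hA A c) d * hh d ≤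
      C * (Real.log V) ^ (w * δ)) ∧
  (∀ y Y : ℕ, z < y → 1 ≤ Y →
    ∑ d ∈ (PP z y).divisors.filter (fun d => Y < d), gh w (hA A c) d * hh d ≤
      C * Real.exp (-(Real.log Y / Real.log y)) * (Real.log y) ^ 2) := by
  obtain ⟨C0, hC0, hmer⟩ := hA'.mer
  obtain ⟨K, hK, hsq⟩ := sum_inv_sq
  obtain ⟨zF, hzF⟩ := full w c hw hw2
  refine ⟨max zF (2 * c + 2), fun z hz' => ?_⟩
  have hz : 2 * c + 2 ≤ z := (le_max_right _ _).trans hz'
  have hz2 : 2 ≤ z := by omega
  obtain ⟨CF, -, -, hF3⟩ := hzF z ((le_max_left _ _).trans hz')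
  set φ : ℕ → ℝ := fun p => w * hA A c p * (1 + 2 / (p : ℝ)) with hφ
  set B : ℝ := w * C0 + (6 * c + 2) * K with hB
  have hB0 : 0 ≤ B := by positivity
  have hcz : c ≤ z := by omega
  have hφ0 : ∀ y, ∀ p ∈ PS z y, 0 ≤ φ p := fun y p hp => by
    have h1 := PS_lt hp
    exact mul_nonneg (mul_nonneg hw.le (hA_nonneg (by omega))) (by positivity)
  have hsum : ∀ y : ℕ, 2 ≤ y → ∑ p ∈ PS z y, φ p ≤ w * δ * Real.log (Real.log y) + B := by
    intro y hy
    have h1 : ∑ p ∈ PS z y, φ p = ∑ p ∈ (PS z y).filter A, w / ((p : ℝ) - c) * (1 + 2 / (p : ℝ)) := by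
      rw [sum_filter]
      refine sum_congr rfl fun p _ => ?_
      rw [hφ]
      simp only [hA]
      split_ifs
      · ring
      · ring
    rw [h1]
    calc ∑ p ∈ (PS z y).filter A, w / ((p : ℝ) - c) * (1 + 2 / (p : ℝ)) ≤
          ∑ p ∈ (PS z y).filter A, (w * (1 / (p : ℝ)) + (6 * c + 2) * (1 / (p : ℝ) ^ 2)) :=
          Finset.sum_le_sum fun p hp =>
            (weight_le w c z p hw hw2 hz (PS_lt (mem_filter.1 hp).1)).2
      _ = w * ∑ p ∈ (PS z y).filter A, 1 / (p : ℝ) +
          (6 * c + 2) * ∑ p ∈ (PS z y).filter A, 1 / (p : ℝ) ^ 2 := by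
          rw [Finset.sum_add_distrib, Finset.mul_sum, Finset.mul_sum]
      _ ≤ w * (δ * Real.log (Real.log y) + C0) + (6 * c + 2) * K := by
          refine add_le_add (mul_le_mul_of_nonneg_left (hmer z y hy) hw.le)
            (mul_le_mul_of_nonneg_left (hsq _) (by positivity))
      _ = _ := by rw [hB]; ring
  have hlog : ∀ y : ℕ, 2 ≤ y → 0 < Real.log y := fun y hy =>
    Real.log_pos (by exact_mod_cast (by omega : 1 < y))
  have main : ∀ y : ℕ, 2 ≤ y → ∑ d ∈ (PP z y).divisors, gh w (hA A c) d * hh d ≤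
      Real.exp B * (Real.log y) ^ (w * δ) := by
    intro y hy
    simp only [gh_hh]
    unfold PP
    rw [sum_mult (PS z y) (fun p hp => PS_prime hp) φ]
    refine (prod_le_exp _ _ fun p hp => by have := hφ0 y p hp; linarith).trans ?_
    rw [Real.rpow_def_of_pos (hlog y hy), ← Real.exp_add, Real.exp_le_exp]
    have := hsum y hy
    linarith
  have hnn : ∀ y d : ℕ, d ∈ (PP z y).divisors → 0 ≤ gh w (hA A c) d * hh d := fun y d hd =>
    mul_nonneg (gh_nonneg hw.le hcz hd) (hh_nonneg d)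
  have hpf : ∀ y d, d ∈ (PP z y).divisors → d.primeFactors ⊆ PS z y := by
    intro y d hd
    have h1 : (PP z y).primeFactors = PS z y := Nat.primeFactors_prod fun p hp => PS_prime hp
    rw [← h1]
    exact Nat.primeFactors_mono (Nat.dvd_of_mem_divisors hd) (Nat.mem_divisors.1 hd).2
  refine ⟨Real.exp B + |CF|, ?_, ?_, ?_⟩
  · intro y hy
    refine (main y (by omega)).trans ?_
    refine mul_le_mul_of_nonneg_right ?_ (Real.rpow_nonneg (hlog y (by omega)).le _)
    have := abs_nonneg CF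
    linarith
  · intro y V hy hV
    have hsub : (PP z y).divisors.filter (fun d => d ≤ V) ⊆ (PP z (min y V)).divisors := by
      intro d hd
      rw [mem_filter] at hd
      have h1 := hpf y d hd.1
      have hd0 : d ≠ 0 := (Nat.pos_of_mem_divisors hd.1).ne'
      have h2 : Squarefree d := (prod_primes_squarefree (PS z y) fun p hp => PS_prime hp).squarefree_of_dvd
        (Nat.dvd_of_mem_divisors hd.1)
      rw [Nat.mem_divisors]
      refine ⟨?_, (prod_primes_squarefree (PS z (min y V)) fun p hp => PS_prime hp).ne_zero⟩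
      rw [← Nat.prod_primeFactors_of_squarefree h2]
      refine Finset.prod_dvd_prod_of_subset _ _ _ fun p hp => ?_
      have h3 := h1 hp
      have h4 : p ≤ d := Nat.le_of_mem_primeFactors hp
      exact mem_filter.2 ⟨mem_Ioc.2 ⟨PS_lt h3, le_min (PS_le h3) (h4.trans hd.2)⟩, PS_prime h3⟩
    have h1 : ∑ d ∈ (PP z y).divisors.filter (fun d => d ≤ V), gh w (hA A c) d * hh d ≤
        ∑ d ∈ (PP z (min y V)).divisors, gh w (hA A c) d * hh d :=
      Finset.sum_le_sum_of_subset_of_nonneg hsub fun d hd _ => hnn _ d hd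
    have hmin2 : 2 ≤ min y V := le_min (by omega) hV
    refine h1.trans ((main _ hmin2).trans ?_)
    have h2 : (Real.log (min y V : ℕ)) ^ (w * δ) ≤ (Real.log V) ^ (w * δ) := by
      refine Real.rpow_le_rpow (hlog _ hmin2).le ?_ (mul_nonneg hw.le hA'.d0.le)
      exact Real.log_le_log (by exact_mod_cast (by omega : 0 < min y V))
        (by exact_mod_cast min_le_right y V)
    refine mul_le_mul ?_ h2 (Real.rpow_nonneg (hlog _ hmin2).le _) (by positivity)
    have := abs_nonneg CF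
    linarith
  · intro y Y hy hY
    have h1 : ∑ d ∈ (PP z y).divisors.filter (fun d => Y < d), gh w (hA A c) d * hh d ≤
        ∑ d ∈ (PP z y).divisors.filter (fun d => Y < d), gw w c d * hh d :=
      sum_le_sum fun d hd => mul_le_mul_of_nonneg_right
        (gh_le_gw hw.le hcz (mem_filter.1 hd).1) (hh_nonneg d)
    refine h1.trans ((hF3 y Y hy hY).trans ?_)
    refine mul_le_mul_of_nonneg_right ?_ (by positivity)
    refine mul_le_mul_of_nonneg_right ?_ (Real.exp_pos _).le
    have := le_abs_self CF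
    have := Real.exp_pos B
    linarith

/-- a twisted Euler product -/
theorem epA (hA' : PSet A δ z1) (w : ℝ) (c : ℕ) (κ : ℤ) (hw : 0 < w) (hw2 : w ≤ 1 / 2)
    (hκ : κ ≠ 0) : ∃ z0 : ℕ, ∀ z, z0 ≤ z →
  ∃ C : ℝ, ∀ (y R r : ℕ) (e : Bool), z < y → R ≠ 0 → 1 < r → Squarefree r →
    (∀ p : ℕ, p.Prime → p ∣ r → z < p) →
    |∑ d ∈ (PP z y).divisors.filter (fun d => d.Coprime R),
        gh w (hA A c) d * (Jr d r * Jr κ d * x4 e d)| ≤ C * Real.log r * hh R := by
  obtain ⟨K, hK, hsq⟩ := sum_inv_sq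
  refine ⟨max (max (2 * c + 2) κ.natAbs) z1, fun z hz => ?_⟩
  have hzc : 2 * c + 2 ≤ z := ((le_max_left _ _).trans (le_max_left _ _)).trans hz
  have hzκ : κ.natAbs ≤ z := ((le_max_right _ _).trans (le_max_left _ _)).trans hz
  have hz2 : 2 ≤ z := by omega
  obtain ⟨C, hC⟩ := hA'.ub κ z hκ ((le_max_right _ _).trans hz) hz2 hzκ
  refine ⟨Real.exp (w * C + c * K), fun y R r e hy hR hr hrs hrp => ?_⟩
  classical
  have hr3 : 3 ≤ r := by
    obtain ⟨p, hp, hpr⟩ := Nat.exists_prime_and_dvd (by omega : r ≠ 1)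
    have h1 := hrp p hp hpr
    have h2 := Nat.le_of_dvd (by omega) hpr
    omega
  have hlr : 0 < Real.log r := Real.log_pos (by exact_mod_cast (by omega : 1 < r))
  have hlr1 : 1 ≤ Real.log r := by
    rw [Real.le_log_iff_exp_le (by exact_mod_cast (by omega : 0 < r))]
    have h1 : (3 : ℝ) ≤ r := by exact_mod_cast hr3
    have h2 := Real.exp_one_lt_d9
    linarith
  set S' := (PS z y).filter (fun p => ¬ p ∣ R) with hS'
  have hS'p : ∀ p ∈ S', p.Prime := fun p hp => PS_prime (mem_filter.1 hp).1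
  have hset : (PP z y).divisors.filter (fun d => d.Coprime R) = (∏ p ∈ S', p).divisors := by
    have hsq1 := prod_primes_squarefree (PS z y) fun p hp => PS_prime hp
    have hsq2 := prod_primes_squarefree S' hS'p
    ext d
    rw [mem_filter, Nat.mem_divisors, Nat.mem_divisors]
    constructor
    · rintro ⟨⟨hd, -⟩, hc⟩
      refine ⟨?_, hsq2.ne_zero⟩
      have hsd : Squarefree d := hsq1.squarefree_of_dvd hd
      rw [← Nat.prod_primeFactors_of_squarefree hsd]
      refine Finset.prod_dvd_prod_of_subset _ _ _ fun p hp => ?_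
      have hpp := Nat.prime_of_mem_primeFactors hp
      have hpd := Nat.dvd_of_mem_primeFactors hp
      have h1 : p ∈ PS z y := by
        rw [← Nat.primeFactors_prod (s := PS z y) fun p hp => PS_prime hp]
        exact Nat.primeFactors_mono hd hsq1.ne_zero hp
      refine mem_filter.2 ⟨h1, fun hpR => ?_⟩
      have := Nat.dvd_gcd hpd hpR
      rw [hc.gcd_eq_one] at this
      exact hpp.one_lt.ne' (Nat.dvd_one.1 this)
    · rintro ⟨hd, -⟩
      refine ⟨⟨hd.trans (Finset.prod_dvd_prod_of_subset _ _ _ (filter_subset _ _)),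
        hsq1.ne_zero⟩, ?_⟩
      refine Nat.Coprime.coprime_dvd_left hd ?_
      exact Nat.Coprime.prod_left fun p hp =>
        ((hS'p p hp).coprime_iff_not_dvd).2 (mem_filter.1 hp).2
  set φ : ℕ → ℝ := fun p => w * hA A c p * chr κ r e p with hφ
  have hsum : ∑ d ∈ (PP z y).divisors.filter (fun d => d.Coprime R),
      gh w (hA A c) d * (Jr d r * Jr κ d * x4 e d) = ∏ p ∈ S', (1 + φ p) := by
    rw [hset, ← sum_mult S' hS'p φ]
    refine Finset.sum_congr rfl fun d hd => ?_
    have hsd : Squarefree d :=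
      (prod_primes_squarefree S' hS'p).squarefree_of_dvd (Nat.dvd_of_mem_divisors hd)
    show gh w (hA A c) d * chr κ r e d = _
    have h1 : chr κ r e d = ∏ p ∈ d.primeFactors, chr κ r e p := by
      rw [← chr_prod κ r e _ fun p hp => Nat.prime_of_mem_primeFactors hp,
        Nat.prod_primeFactors_of_squarefree hsd]
    rw [h1, gh, ← Finset.prod_mul_distrib]
  rw [hsum]
  have hp3 : ∀ p ∈ PS z y, (2 * c + 3 : ℝ) ≤ p := fun p hp => by
    have := PS_lt hp
    exact_mod_cast (by omega : 2 * c + 3 ≤ p)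
  have hc0 : (0:ℝ) ≤ c := Nat.cast_nonneg c
  have hfac : ∀ p ∈ S', 0 ≤ 1 + φ p := by
    intro p hp
    have h1 := hp3 p (mem_filter.1 hp).1
    have h2 : 0 < (p : ℝ) - c := by linarith
    have hcp : c ≤ p := by have := PS_lt (mem_filter.1 hp).1; omega
    have h3 : w * hA A c p ≤ 1 := by
      calc w * hA A c p ≤ w * (1 / ((p : ℝ) - c)) := mul_le_mul_of_nonneg_left (hA_le hcp) hw.le
        _ = w / ((p : ℝ) - c) := by ring
        _ ≤ 1 := by
          rw [div_le_one h2]
          linarith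
    have h4 := (abs_le.1 (chr_abs κ r e p)).1
    have h5 : 0 ≤ w * hA A c p := mul_nonneg hw.le (hA_nonneg hcp)
    simp only [hφ]
    nlinarith
  rw [abs_of_nonneg (Finset.prod_nonneg hfac)]
  refine (prod_le_exp S' φ hfac).trans ?_
  -- the exponent
  set ch : ℕ → ℝ := fun p => if A p then chr κ r e p else 0 with hch
  have hcha : ∀ p, |ch p| ≤ 1 := by
    intro p
    rw [hch]
    simp only
    split_ifs
    · exact chr_abs κ r e p
    · simp
  have hterm : ∀ p ∈ S', φ p ≤ w * (ch p / p) + c * (1 / (p : ℝ) ^ 2) := by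
    intro p hp
    have h1 := hp3 p (mem_filter.1 hp).1
    have h2 : 0 < (p : ℝ) - c := by linarith
    have hp0 : (0:ℝ) < p := by linarith
    have h4 := (abs_le.1 (hcha p)).2
    have h50 : φ p = w / ((p : ℝ) - c) * ch p := by
      rw [hφ, hch]
      simp only [hA]
      split_ifs
      · ring
      · ring
    rw [h50]
    have h5 : w / ((p : ℝ) - c) * ch p =
        w * (ch p / p) + (w * c / (p * (p - c))) * ch p := by
      field_simp
      ring
    rw [h5]
    have h6 : 0 ≤ w * c / (p * (p - c)) := by positivity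
    have h7 : w * c / (p * (p - c)) ≤ c * (1 / (p : ℝ) ^ 2) := by
      rw [mul_one_div, div_le_div_iff₀ (by positivity) (by positivity)]
      have h8 : w * p ≤ p - c := by nlinarith
      have h9 : 0 ≤ (c : ℝ) * p := by positivity
      nlinarith
    nlinarith
  have hexp : ∑ p ∈ S', φ p ≤ w * (Real.log (Real.log r) + C) + c * K +
      ∑ p ∈ (PS z y).filter (fun p => p ∣ R), w / p := by
    have hub := hC y r e hy hr hrs hrp
    have hub' : ∑ p ∈ PS z y, ch p / (p : ℝ) ≤ Real.log (Real.log r) + C := by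
      refine le_trans (le_of_eq ?_) hub
      rw [sum_filter]
      refine sum_congr rfl fun p _ => ?_
      rw [hch]
      simp only
      split_ifs
      · rfl
      · simp
    have hsplit := Finset.sum_filter_add_sum_filter_not (PS z y) (fun p => p ∣ R)
      (fun p => ch p / (p : ℝ))
    have h1 : ∑ p ∈ S', ch p / (p : ℝ) ≤ (Real.log (Real.log r) + C) +
        ∑ p ∈ (PS z y).filter (fun p => p ∣ R), 1 / (p : ℝ) := by
      have h2 : -∑ p ∈ (PS z y).filter (fun p => p ∣ R), 1 / (p : ℝ) ≤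
          ∑ p ∈ (PS z y).filter (fun p => p ∣ R), ch p / (p : ℝ) := by
        rw [← Finset.sum_neg_distrib]
        refine Finset.sum_le_sum fun p _ => ?_
        rw [← neg_div]
        exact div_le_div_of_nonneg_right (abs_le.1 (hcha p)).1 (Nat.cast_nonneg p)
      linarith
    calc ∑ p ∈ S', φ p ≤ ∑ p ∈ S', (w * (ch p / p) + c * (1 / (p : ℝ) ^ 2)) :=
          Finset.sum_le_sum hterm
      _ = w * ∑ p ∈ S', ch p / p + c * ∑ p ∈ S', 1 / (p : ℝ) ^ 2 := by
          rw [Finset.sum_add_distrib, Finset.mul_sum, Finset.mul_sum]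
      _ ≤ w * ((Real.log (Real.log r) + C) +
            ∑ p ∈ (PS z y).filter (fun p => p ∣ R), 1 / (p : ℝ)) + c * K :=
          add_le_add (mul_le_mul_of_nonneg_left h1 hw.le) (mul_le_mul_of_nonneg_left (hsq _) hc0)
      _ = _ := by
          rw [mul_add, Finset.mul_sum]
          simp only [mul_one_div]
          ring
  have hhh : Real.exp (∑ p ∈ (PS z y).filter (fun p => p ∣ R), w / p) ≤ hh R := by
    rw [Real.exp_sum]
    unfold hh
    have hsub : (PS z y).filter (fun p => p ∣ R) ⊆ R.primeFactors := by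
      intro p hp
      rw [mem_filter] at hp
      exact Nat.mem_primeFactors.2 ⟨PS_prime hp.1, hp.2, hR⟩
    calc ∏ p ∈ (PS z y).filter (fun p => p ∣ R), Real.exp (w / p)
        ≤ ∏ p ∈ (PS z y).filter (fun p => p ∣ R), (1 + 2 / (p : ℝ)) := by
          refine Finset.prod_le_prod (fun p _ => (Real.exp_pos _).le) fun p hp => ?_
          have h1 := hp3 p (mem_filter.1 hp).1
          have hp0 : (0:ℝ) < p := by linarith
          have h2 : w / (p : ℝ) ≤ 1 / 2 := by
            rw [div_le_iff₀ hp0]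
            linarith
          refine (exp_small _ (by positivity) h2).trans ?_
          have h3 : w / (p : ℝ) ≤ 1 / p := div_le_div_of_nonneg_right (by linarith) hp0.le
          have h4 : 2 / (p : ℝ) = 2 * (1 / p) := by ring
          rw [h4]
          linarith
      _ ≤ ∏ p ∈ R.primeFactors, (1 + 2 / (p : ℝ)) := by
          refine Finset.prod_le_prod_of_subset_of_one_le hsub (fun p _ => by positivity)
            fun p _ _ => ?_
          have : (0:ℝ) ≤ 2 / (p : ℝ) := by positivity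
          linarith
  have hpow : (Real.log r) ^ w ≤ Real.log r := by
    calc (Real.log r) ^ w ≤ (Real.log r) ^ (1 : ℝ) :=
          Real.rpow_le_rpow_of_exponent_le hlr1 (by linarith)
      _ = Real.log r := Real.rpow_one _
  calc Real.exp (∑ p ∈ S', φ p) ≤ Real.exp (w * (Real.log (Real.log r) + C) + c * K +
        ∑ p ∈ (PS z y).filter (fun p => p ∣ R), w / p) := Real.exp_le_exp.2 hexp
    _ = Real.exp (w * C + c * K) * (Real.log r) ^ w *
        Real.exp (∑ p ∈ (PS z y).filter (fun p => p ∣ R), w / p) := by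
        rw [Real.rpow_def_of_pos hlr, ← Real.exp_add, ← Real.exp_add]
        congr 1
        ring
    _ ≤ Real.exp (w * C + c * K) * Real.log r *
        Real.exp (∑ p ∈ (PS z y).filter (fun p => p ∣ R), w / p) := by gcongr
    _ ≤ _ := mul_le_mul_of_nonneg_left hhh (by positivity)

open Pool.Agent.W307.FK in
/-- the average over the tuples of divisors with primes in `A` -/
theorem mafA (hA' : PSet A δ z1) :
    ∃ z0 : ℕ, ∀ z, z0 ≤ z → ∃ C : ℝ, ∀ y, z < y →
      ∑ s ∈ Tup (Fin 3) z y, NF 2 s * ∏ j, gh 1 (hA A 3) (s j) ≤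
        C * (Real.log y) ^ (3 * δ) := by
  classical
  obtain ⟨zF, hzF⟩ := fullA hA' (1 / 2 ^ 2) 3 (by norm_num) (by norm_num)
  obtain ⟨zE, hzE⟩ := epA hA' (1 / 2 ^ 2) 3 1 (by norm_num) (by norm_num) one_ne_zero
  refine ⟨zF + zE + 8, fun z hz => ?_⟩
  obtain ⟨CF, hF1, hF2, hF3⟩ := hzF z (by omega)
  obtain ⟨CE, hE⟩ := hzE z (by omega)
  obtain ⟨C, hC⟩ : ∃ C, C = 1 + |CF| + |CE| := ⟨_, rfl⟩
  have hCF : CF ≤ C := by have := le_abs_self CF; have := abs_nonneg CE; rw [hC]; linarith
  have hCE : CE ≤ C := by have := le_abs_self CE; have := abs_nonneg CF; rw [hC]; linarith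
  have hd0 := hA'.d0
  have hd1 := hA'.d1
  have hB : AT.Bd (ι := IF 2) (fun _ => gh (1 / 2 ^ 2) (hA A 3)) (fun _ => 1 / 2 ^ 2 * δ)
      (fun _ => 1) z C :=
    { w0 := fun i => by positivity
      w1 := fun i => by norm_num; linarith
      z2 := by omega
      C1 := by rw [hC]; have := abs_nonneg CE; have := abs_nonneg CF; linarith
      g0 := fun i y m hm => gh_nonneg (by norm_num) (by omega) hm
      gle := fun i y m hm => (gh_le_gw (by norm_num) (by omega) hm).trans
        (gw_le (by norm_num) (by norm_num) (by omega) hm)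
      g1 := fun i => gh_one _ _
      F1 := fun i y hy => (hF1 y hy).trans (mul_le_mul_of_nonneg_right hCF
        (Real.rpow_nonneg (Real.log_natCast_nonneg y) _))
      F2 := fun i y V hy hV => (hF2 y V hy hV).trans (mul_le_mul_of_nonneg_right hCF
        (Real.rpow_nonneg (Real.log_natCast_nonneg V) _))
      F3 := fun i y Y hy hY => (hF3 y Y hy hY).trans (by
        apply mul_le_mul_of_nonneg_right _ (by positivity)
        exact mul_le_mul_of_nonneg_right hCF (Real.exp_pos _).le)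
      E := fun i y R r e hy hR hr hs hp => (hE y R r e hy hR hr hs hp).trans (by
        apply mul_le_mul_of_nonneg_right _ (hh_nonneg _)
        exact mul_le_mul_of_nonneg_right hCE (Real.log_natCast_nonneg r)) }
  obtain ⟨C', hC'⟩ := AT.at_gen
    (Pool.Agent.W655.RK.blw_of (_root_.W37.RK.bl_of Pool.Agent.W505.RK.ls)) hB
    (L := Lk 2) (Pool.Agent.W215.FK.Lk_self 2) (K := 3 * δ) (fun U hU => by
      rw [sum_const, nsmul_eq_mul]
      have h3 : ((U.card : ℕ) : ℝ) ≤ ((12 : ℕ) : ℝ) := by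
        exact_mod_cast Pool.Agent.W756.FK.combf U hU
      push_cast at h3
      nlinarith)
  refine ⟨C', fun y hy => ?_⟩
  rw [expg 2 (hA A 3) z y (by omega)]
  exact (le_abs_self _).trans (hC' y hy)

end Pool.Agent.Y669
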