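import Pool.Agent.Y669.UBA
import Pool.Agent.Y669.Mer
import Pool.Agent.Y669.FullA

/-!
# The set of the primes with `ψ(p) = 1`
-/

set_option autoImplicit false

namespace Pool.Agent.Y669

open Finset Pool.Agent.W262.RK

theorem pset_psi (N : ℕ) [NeZero N] (ψ : DirichletCharacter ℂ N) (m : ℕ) (hm : orderOf ψ = m)
    (hm0 : m ≠ 0) : PSet (fun p : ℕ => ψ (p : ZMod N) = 1) (1 / (m : ℝ)) N where
  d0 := by
    have : (0 : ℝ) < m := by exact_mod_cast Nat.pos_of_ne_zero hm0
    positivity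
  d1 := by
    have : (0 : ℝ) < m := by exact_mod_cast Nat.pos_of_ne_zero hm0
    rw [div_le_one this]
    exact_mod_cast Nat.pos_of_ne_zero hm0
  ub := fun κ z hκ hNz hz hκz => UBA.uba N (NeZero.ne N) ψ m hm0
    (by rw [← hm]; exact pow_orderOf_eq_one ψ) κ z hκ hz hκz hNz
  mer := mer_PS N ψ m hm hm0
  mer' := mer_PS' N ψ m hm hm0

end Pool.Agent.Y669
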