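import Pool.Agent.Y669.Cyc2
import Pool.Agent.Y669.DescG
import Pool.Agent.Y669.HtA
import Pool.Agent.Y669.PSetPsi
import Pool.Agent.W307.FK.Main

/-!
# The multiplicities of the characters of 2-power order
-/

set_option autoImplicit false

namespace Pool.Agent.Y669

open NumberField IsCyclotomicExtension WeierstrassCurve Pool.Agent.H918R3 Finset
open Pool.Agent.W307.RT (Cv Sh)

section alg

variable (N : ℕ) [NeZero N] {F : Type} [Field F] [NumberField F] [IsCyclotomicExtension {N} ℚ F]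

/-- a vector on which the group `H` acts by the quadratic character `χ` -/
lemma exists_s (H : Subgroup (F ≃ₐ[ℚ] F)) (χ : (F ≃ₐ[ℚ] F) →* ℂˣ)
    (hH : ∀ τ ∈ H, χ τ ^ 2 = 1) :
    ∃ s : F, s ≠ 0 ∧ s ∈ RZ N F ∧ ∀ τ ∈ H, τ s = (sgz χ τ : F) * s := by
  classical
  obtain ⟨b, hb⟩ : ∃ b : F,
      ∑ τ : H, (sgz χ (τ : F ≃ₐ[ℚ] F) : F) * (τ : F ≃ₐ[ℚ] F) b ≠ 0 := by
    by_contra hcon
    push Not at hcon
    obtain ⟨f, hf⟩ : ∃ f : H → (F →* F), ∀ τ x, f τ x = (τ : F ≃ₐ[ℚ] F) x :=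
      ⟨fun τ => (((τ : F ≃ₐ[ℚ] F) : F →+* F) : F →* F), fun τ x => rfl⟩
    have hinj : Function.Injective f := by
      intro τ τ' h
      apply Subtype.ext
      ext x
      rw [← hf, ← hf, h]
    have h1 := (linearIndependent_monoidHom F F).comp _ hinj
    rw [Fintype.linearIndependent_iff] at h1
    have h2 := h1 (fun τ => (sgz χ (τ : F ≃ₐ[ℚ] F) : F)) (by
      funext x
      have h3 := hcon x
      simp only [Finset.sum_apply, Pi.smul_apply, Function.comp_apply, smul_eq_mul, Pi.zero_apply]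
      rw [← h3]
      exact Finset.sum_congr rfl fun τ _ => by rw [hf]) 1
    have h3 : sgz χ (((1 : H) : F ≃ₐ[ℚ] F)) = 1 := by
      unfold sgz
      rw [if_pos]
      simp
    simp only [h3] at h2
    norm_num at h2
  obtain ⟨n, hn, hnR⟩ := RZ_scale N F
    (∑ τ : H, (sgz χ (τ : F ≃ₐ[ℚ] F) : F) * (τ : F ≃ₐ[ℚ] F) b)
  refine ⟨_, mul_ne_zero (by exact_mod_cast hn) hb, hnR, fun τ hτ => ?_⟩
  rw [map_mul, map_intCast, map_sum, mul_left_comm]
  congr 1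
  rw [Finset.mul_sum]
  refine Fintype.sum_equiv (Equiv.mulLeft (⟨τ, hτ⟩ : H)) _ _ fun g => ?_
  rw [Equiv.coe_mulLeft, map_mul, map_intCast, Subgroup.coe_mul]
  have h1 := sgz_mul χ (hH τ hτ) (hH g g.2)
  have h2 := sgz_sq χ τ
  have h3 : (sgz χ τ : F) * (sgz χ (τ * (g : F ≃ₐ[ℚ] F)) : F) =
      (sgz χ (g : F ≃ₐ[ℚ] F) : F) := by
    rw [h1]
    push_cast
    rw [← mul_assoc]
    have h4 : (sgz χ τ : F) * (sgz χ τ : F) = 1 := by exact_mod_cast congrArg (Int.cast : ℤ → F) h2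
    rw [h4, one_mul]
  rw [← mul_assoc]
  show _ = (sgz χ τ : F) * (sgz χ (τ * (g : F ≃ₐ[ℚ] F)) : F) * (τ * (g : F ≃ₐ[ℚ] F)) b
  rw [h3]
  rfl

end alg

/-- the curve with given roots -/
lemma sh_crv {A B e1 e2 e3 : ℤ}
    (h : ∀ x : ℤ, x ^ 3 + A * x + B = (x - e1) * (x - e2) * (x - e3)) :
    Sh A B = crv (e1 : ℚ) e2 e3 := by
  have h0 := h 0
  have h1 := h 1
  have h2 := h (-1)
  have e0 : e1 + e2 + e3 = 0 := by linarith
  have e4 : A = e1 * e2 + e1 * e3 + e2 * e3 := by linarith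
  have e6 : B = -(e1 * e2 * e3) := by linarith
  unfold Sh crv
  have e0' : (e1 : ℚ) + e2 + e3 = 0 := by exact_mod_cast e0
  rw [e0', e4, e6]
  push_cast
  norm_num

section main

/-- **The averages of `4 ^ m_χ` for the characters of order `2 ^ (a + 1)`.** -/
theorem avg_char (N : ℕ) [NeZero N] {F : Type} [Field F] [NumberField F]
    [IsCyclotomicExtension {N} ℚ F] [DecidableEq F] (χ : (F ≃ₐ[ℚ] F) →* ℂˣ) (a : ℕ)
    (h1 : ∀ σ, χ σ ^ (2 ^ (a + 1)) = 1) (h2 : ∃ σ, χ σ ^ (2 ^ a) ≠ 1) :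
    ∃ C : ℝ, ∀ H : ℕ, ∑ c ∈ Cv 2 H,
      (4 : ℝ) ^ (Module.finrank ℂ (PartC F χ (Sh c.1 c.2))) ≤ C * (Cv 2 H).card := by
  classical
  have hgal : IsGalois ℚ F := IsCyclotomicExtension.isGalois {N} ℚ F
  have hab : ∀ σ τ : F ≃ₐ[ℚ] F, σ * τ = τ * σ := by
    intro σ τ
    apply (IsCyclotomicExtension.Rat.galEquivZMod N F).injective
    rw [map_mul, map_mul, mul_comm]
  -- the generator
  have hfinr : Finite χ.range := inferInstance
  obtain ⟨g, hg⟩ := IsCyclic.exists_monoid_generator (α := χ.range)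
  obtain ⟨σ, hσ⟩ := g.2
  have hσ2 : ∀ τ, ∃ j : ℕ, χ τ = χ σ ^ j := by
    intro τ
    obtain ⟨j, hj⟩ := (Submonoid.mem_powers_iff _ _).1 (hg ⟨χ τ, ⟨τ, rfl⟩⟩)
    refine ⟨j, ?_⟩
    rw [hσ]
    exact (congrArg (fun t : χ.range => (t : ℂˣ)) hj).symm
  have hσ1 : χ σ ^ (2 ^ a) = -1 := by
    have e1 : (χ σ ^ (2 ^ a)) ^ 2 = 1 := by
      rw [← pow_mul, ← pow_succ]
      exact h1 σ
    have e2 : ((χ σ ^ (2 ^ a) : ℂˣ) : ℂ) * ((χ σ ^ (2 ^ a) : ℂˣ) : ℂ) = 1 := by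
      rw [← sq, ← Units.val_pow_eq_pow_val, e1, Units.val_one]
    rcases mul_self_eq_one_iff.1 e2 with h3 | h3
    · exfalso
      obtain ⟨τ, hτ⟩ := h2
      apply hτ
      obtain ⟨j, hj⟩ := hσ2 τ
      rw [hj, ← pow_mul, mul_comm, pow_mul, Units.ext (h3.trans Units.val_one.symm), one_pow]
    · apply Units.ext
      rw [h3, Units.val_neg, Units.val_one]
  -- the field
  obtain ⟨K, hK⟩ : ∃ K : Subgroup (F ≃ₐ[ℚ] F), ∀ τ, τ ∈ K ↔ χ τ ^ 2 = 1 := by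
    refine ⟨(χ ^ 2).ker, fun τ => ?_⟩
    rw [MonoidHom.mem_ker]
    rfl
  have hKn : K.Normal := ⟨fun x hx y => by rw [hab y x, mul_inv_cancel_right]; exact hx⟩
  obtain ⟨L, hLd⟩ : ∃ L : IntermediateField ℚ F, L = IntermediateField.fixedField K := ⟨_, rfl⟩
  have hLg : IsGalois ℚ L := by
    rw [hLd]
    exact IsGalois.of_fixedField_normal_subgroup K
  have hLf : L.fixingSubgroup = K := by
    rw [hLd]
    exact IntermediateField.fixingSubgroup_fixedField K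
  have hL : ∀ τ : F ≃ₐ[ℚ] F, τ ∈ L.fixingSubgroup ↔ χ τ ^ 2 = 1 := by
    intro τ
    rw [hLf, hK]
  have hmemL : ∀ x : F, x ∈ L ↔ ∀ τ ∈ K, τ x = x := by
    intro x
    rw [hLd]
    exact IntermediateField.mem_fixedField_iff K x
  obtain ⟨s, hs0, hsR, hs⟩ := exists_s N K χ (fun τ hτ => (hK τ).1 hτ)
  have hsL : s ^ 2 ∈ L := by
    rw [hmemL]
    intro τ hτ
    rw [map_pow, hs τ hτ, mul_pow, ← Int.cast_pow, sq (sgz χ τ), sgz_sq, Int.cast_one, one_mul]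
  obtain ⟨δ, hδ⟩ : ∃ δ : L, (δ : F) = s ^ 2 := ⟨⟨s ^ 2, hsL⟩, rfl⟩
  have hδ0 : δ ≠ 0 := by
    intro h
    rw [h] at hδ
    exact pow_ne_zero 2 hs0 hδ.symm
  have hinj : Function.Injective (algebraMap L F) := (algebraMap L F).injective
  have hδi : IsIntegral ℤ δ := by
    apply (isIntegral_algebraMap_iff hinj).1
    have : algebraMap L F δ = s ^ 2 := hδ
    rw [this]
    exact (RZ_int N F hsR).pow 2
  have hsq : ∀ τ : L ≃ₐ[ℚ] L, IsSquare (δ * τ δ) := by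
    intro τ
    obtain ⟨σ', hσ'⟩ := AlgEquiv.restrictNormalHom_surjective (F := ℚ) (K₁ := L) F τ
    have e1 : ((τ δ : L) : F) = σ' (δ : F) := by
      rw [← hσ']
      exact AlgEquiv.restrictNormal_commutes σ' L δ
    have e2 : s * σ' s ∈ L := by
      rw [hmemL]
      intro τ' hτ'
      have e3 : τ' (σ' s) = σ' (τ' s) := by
        have := congrArg (fun g : F ≃ₐ[ℚ] F => g s) (hab τ' σ')
        exact this
      rw [map_mul, e3, hs τ' hτ', map_mul, map_intCast]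
      have e4 : (sgz χ τ' : F) * (sgz χ τ' : F) = 1 := by
        exact_mod_cast congrArg (Int.cast : ℤ → F) (sgz_sq χ τ')
      linear_combination (s * σ' s) * e4
    refine ⟨⟨s * σ' s, e2⟩, ?_⟩
    apply Subtype.ext
    show (δ : F) * ((τ δ : L) : F) = (s * σ' s) * (s * σ' s)
    rw [e1, hδ, map_pow]
    ring
  have hH : ∀ τ : F ≃ₐ[ℚ] F, τ ^ (2 ^ a) ∈ L.fixingSubgroup := by
    intro τ
    rw [hL, map_pow, ← pow_mul, ← pow_succ]
    exact h1 τ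
  -- the Dirichlet character
  obtain ⟨ψ, hψ⟩ : ∃ ψ : DirichletCharacter ℂ N, ∀ (p : ℕ) (hp : p.Coprime N),
      ψ (p : ZMod N) = (((χ (frob N F hp)) ^ 2 : ℂˣ) : ℂ) := by
    refine ⟨MulChar.ofUnitHom ((χ ^ 2).comp
      (IsCyclotomicExtension.Rat.galEquivZMod N F).symm.toMonoidHom), fun p hp => ?_⟩
    rw [← ZMod.coe_unitOfCoprime p hp, MulChar.ofUnitHom_coe]
    rfl
  obtain ⟨m, hm⟩ : ∃ m, orderOf ψ = m := ⟨_, rfl⟩
  have hm0 : m ≠ 0 := by
    rw [← hm]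
    exact (orderOf_pos ψ).ne'
  have hPS := pset_psi N ψ m hm hm0
  obtain ⟨z1, hLD⟩ := ld_cyc N L a hH (fun p : ℕ => ψ (p : ZMod N) = 1) (fun p hp => by
    show ψ (p : ZMod N) = 1 ↔ _
    rw [hψ p hp, hL]
    constructor
    · intro h
      exact Units.ext h
    · intro h
      rw [h, Units.val_one]) δ hδ0 hδi hsq
  obtain ⟨Ng, hS⟩ := selfa hLD
  have hA := Pool.Agent.W307.FK.G.avgng_of (avgfg_of hPS hS Pool.Agent.W307.FK.cntf)
  obtain ⟨C, hC⟩ := height_of hA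
    (fun c => (2 : ℝ) ^ (Module.finrank ℂ (PartC F χ (Sh c.1 c.2))) / 8)
    (fun c => by positivity) (fun H c hc e1 e2 e3 he h12 h13 h23 => by
      have g12 : e1 ≠ e2 := fun h => h12 (by rw [h, sub_self])
      have g13 : e1 ≠ e3 := fun h => h13 (by rw [h, sub_self])
      have g23 : e2 ≠ e3 := fun h => h23 (by rw [h])
      have hd := descG hab χ a L hL s hs0 (fun τ hτ => hs τ ((hK τ).2 hτ)) δ hδ σ hσ1 hσ2
        e1 e2 e3 g12 g13 g23 hsq (sx_fin hLD h12 h13 h23)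
      rw [sh_crv he]
      rw [div_le_iff₀ (by norm_num), mul_comm]
      exact_mod_cast hd)
  refine ⟨64 * C, fun H => ?_⟩
  have hC' := hC H
  have e : ∀ c : ℤ × ℤ, (4 : ℝ) ^ (Module.finrank ℂ (PartC F χ (Sh c.1 c.2))) =
      64 * ((2 : ℝ) ^ (Module.finrank ℂ (PartC F χ (Sh c.1 c.2))) / 8) ^ 2 := by
    intro c
    rw [div_pow, ← pow_mul, mul_comm (Module.finrank ℂ (PartC F χ (Sh c.1 c.2))) 2, pow_mul]
    norm_num
    ring
  simp only [e]
  rw [← Finset.mul_sum]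
  linarith

end main

end Pool.Agent.Y669
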