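import Pool.Agent.Y669.FullA
import Pool.Agent.W503.FK.SUBF
import Pool.Agent.W262.RK.NT1

/-!
# The average with local conditions at the primes of a given set only
-/

set_option autoImplicit false

namespace Pool.Agent.Y669

open Finset Pool.Agent.W262.RK Pool.Agent.W655.RK Pool.Agent.Y669.ExpG Pool.Agent.W307.FK

variable {A : ℕ → Prop} [DecidablePred A] {δ : ℝ} {z1 : ℕ}

/-- the product of the primes of `n` in the set `A` -/
def act (A : ℕ → Prop) [DecidablePred A] (n : ℕ) : ℕ := ∏ p ∈ n.primeFactors.filter A, p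

lemma act_pf (n : ℕ) : (act A n).primeFactors = n.primeFactors.filter A :=
  Nat.primeFactors_prod fun p hp => Nat.prime_of_mem_primeFactors (mem_filter.1 hp).1

lemma act_dvd (n : ℕ) : act A n ∣ n :=
  (prod_dvd_prod_of_subset _ _ _ (filter_subset _ _)).trans (Nat.prod_primeFactors_dvd n)

lemma act_squarefree (n : ℕ) : Squarefree (act A n) :=
  prod_primes_squarefree _ fun p hp => Nat.prime_of_mem_primeFactors (mem_filter.1 hp).1

lemma act_mul_not {n : ℕ} (hn : Squarefree n) : act A n * act (fun p => ¬ A p) n = n := by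
  unfold act
  rw [prod_filter_mul_prod_filter_not, Nat.prod_primeFactors_of_squarefree hn]

lemma prime_dvd_act {n p : ℕ} (hn : n ≠ 0) (hp : p.Prime) : p ∣ act A n ↔ p ∣ n ∧ A p := by
  have h1 : p ∣ act A n ↔ p ∈ (act A n).primeFactors := by
    rw [Nat.mem_primeFactors]
    exact ⟨fun h => ⟨hp, h, (act_squarefree n).ne_zero⟩, fun h => h.2.1⟩
  rw [h1, act_pf, mem_filter, Nat.mem_primeFactors]
  tauto

lemma act_mul {m n : ℕ} (h : Squarefree (m * n)) : act A (m * n) = act A m * act A n := by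
  have hcop := Nat.coprime_of_squarefree_mul h
  have hm : m ≠ 0 := left_ne_zero_of_mul h.ne_zero
  have hn : n ≠ 0 := right_ne_zero_of_mul h.ne_zero
  unfold act
  rw [Nat.primeFactors_mul hm hn, filter_union, prod_union]
  exact (disjoint_filter_filter hcop.disjoint_primeFactors)

lemma gh_act {w : ℝ} {c n : ℕ} : gh w (hA A c) (act A n) =
    ∏ p ∈ n.primeFactors.filter A, w / ((p : ℝ) - c) := by
  unfold gh
  rw [act_pf]
  refine prod_congr rfl fun p hp => ?_
  unfold hA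
  rw [if_pos (mem_filter.1 hp).2]
  ring

lemma gw_split {w : ℝ} {c n : ℕ} : gw w c n =
    gh w (hA A c) (act A n) * gh w (hA (fun p => ¬ A p) c) (act (fun p => ¬ A p) n) := by
  rw [gh_act, gh_act, prod_filter_mul_prod_filter_not]
  rfl

/-- the factorisation of the sum -/
lemma sum_act_le {c z y : ℕ} (hz : c ≤ z) (F : (Fin 3 → ℕ) → ℝ) (hF : ∀ s, 0 ≤ F s) :
    ∑ s ∈ Tup (Fin 3) z y, F (fun j => act A (s j)) * ∏ j, gw 1 c (s j) ≤
      (∑ s ∈ Tup (Fin 3) z y, F s * ∏ j, gh 1 (hA A c) (s j)) *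
        ∏ _j : Fin 3, ∑ d ∈ (PP z y).divisors, gh 1 (hA (fun p => ¬ A p) c) d := by
  classical
  rw [prod_univ_sum, sum_mul_sum, ← sum_product']
  obtain ⟨φ, hφ⟩ : ∃ φ : (Fin 3 → ℕ) → (Fin 3 → ℕ) × (Fin 3 → ℕ),
    φ = fun s => ((fun j => act A (s j)), (fun j => act (fun p => ¬ A p) (s j))) := ⟨_, rfl⟩
  have hmem : ∀ s ∈ Tup (Fin 3) z y, φ s ∈ Tup (Fin 3) z y ×ˢ
      Fintype.piFinset (fun _ : Fin 3 => (PP z y).divisors) := by
    intro s hs
    rw [mem_product, hφ]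
    refine ⟨Tup_dvd hs fun j => act_dvd _, ?_⟩
    rw [Fintype.mem_piFinset]
    intro j
    rw [Nat.mem_divisors]
    exact ⟨(act_dvd _).trans ((mem_Tup'.1 hs).1 j), PP_ne_zero z y⟩
  have hsq : ∀ s ∈ Tup (Fin 3) z y, ∀ j, Squarefree (s j) := fun s hs j =>
    (PP_squarefree z y).squarefree_of_dvd ((mem_Tup'.1 hs).1 j)
  have hinj : Set.InjOn φ (Tup (Fin 3) z y : Set (Fin 3 → ℕ)) := by
    intro s hs t ht hst
    rw [hφ] at hst
    simp only [Prod.mk.injEq] at hst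
    funext j
    rw [← act_mul_not (A := A) (hsq s hs j), ← act_mul_not (A := A) (hsq t ht j),
      congrFun hst.1 j, congrFun hst.2 j]
  have hnn : ∀ x ∈ Tup (Fin 3) z y ×ˢ Fintype.piFinset (fun _ : Fin 3 => (PP z y).divisors),
      0 ≤ (F x.1 * ∏ j, gh 1 (hA A c) (x.1 j)) * ∏ j, gh 1 (hA (fun p => ¬ A p) c) (x.2 j) := by
    intro x hx
    rw [mem_product, Fintype.mem_piFinset] at hx
    refine mul_nonneg (mul_nonneg (hF _) (prod_nonneg fun j _ => ?_)) (prod_nonneg fun j _ => ?_)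
    · refine gh_nonneg zero_le_one hz (Nat.mem_divisors.2 ⟨(mem_Tup'.1 hx.1).1 j, PP_ne_zero z y⟩)
    · exact gh_nonneg zero_le_one hz (hx.2 j)
  calc ∑ s ∈ Tup (Fin 3) z y, F (fun j => act A (s j)) * ∏ j, gw 1 c (s j)
      = ∑ s ∈ Tup (Fin 3) z y, (F (φ s).1 * ∏ j, gh 1 (hA A c) ((φ s).1 j)) *
        ∏ j, gh 1 (hA (fun p => ¬ A p) c) ((φ s).2 j) := by
        refine sum_congr rfl fun s _ => ?_
        rw [hφ]
        simp only
        rw [mul_assoc, ← prod_mul_distrib]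
        congr 1
        refine prod_congr rfl fun j _ => ?_
        exact gw_split
    _ = ∑ x ∈ (Tup (Fin 3) z y).image φ, (F x.1 * ∏ j, gh 1 (hA A c) (x.1 j)) *
        ∏ j, gh 1 (hA (fun p => ¬ A p) c) (x.2 j) := by
        rw [sum_image hinj]
    _ ≤ _ := by
        refine sum_le_sum_of_subset_of_nonneg ?_ fun x hx _ => hnn x hx
        intro x hx
        obtain ⟨s, hs, rfl⟩ := mem_image.1 hx
        exact hmem s hs

lemma sum_not (hA' : PSet A δ z1) : ∃ C : ℝ, 0 ≤ C ∧ ∀ z y : ℕ, 8 ≤ z → z < y →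
    ∑ d ∈ (PP z y).divisors, gh 1 (hA (fun p => ¬ A p) 3) d ≤ C * (Real.log y) ^ (1 - δ) := by
  obtain ⟨C0, hC0, hmer⟩ := hA'.mer'
  obtain ⟨K, hK, hsq⟩ := sum_inv_sq
  refine ⟨Real.exp (C0 + 6 * K), by positivity, fun z y hz hy => ?_⟩
  have hlog : 0 < Real.log y := Real.log_pos (by exact_mod_cast (by omega : 1 < y))
  set φ : ℕ → ℝ := fun p => 1 * hA (fun p => ¬ A p) 3 p with hφ
  have hφ0 : ∀ p ∈ PS z y, 0 ≤ φ p := fun p hp => by
    have h1 := PS_lt hp
    exact mul_nonneg zero_le_one (hA_nonneg (by omega))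
  have e1 : ∑ d ∈ (PP z y).divisors, gh 1 (hA (fun p => ¬ A p) 3) d =
      ∏ p ∈ PS z y, (1 + φ p) := by
    unfold PP
    rw [← sum_mult (PS z y) (fun p hp => PS_prime hp) φ]
    rfl
  rw [e1]
  refine (prod_le_exp _ _ fun p hp => by have := hφ0 p hp; linarith).trans ?_
  rw [Real.rpow_def_of_pos hlog, ← Real.exp_add, Real.exp_le_exp]
  have h1 : ∑ p ∈ PS z y, φ p = ∑ p ∈ (PS z y).filter (fun p => ¬ A p), 1 / ((p : ℝ) - 3) := by
    rw [sum_filter]
    refine sum_congr rfl fun p _ => ?_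
    rw [hφ]
    simp only [hA, one_mul]
    push_cast
    rfl
  rw [h1]
  have h2 : ∀ p ∈ (PS z y).filter (fun p => ¬ A p), 1 / ((p : ℝ) - 3) ≤
      1 / (p : ℝ) + 6 * (1 / (p : ℝ) ^ 2) := by
    intro p hp
    have h3 : (8 : ℝ) ≤ p := by
      have := PS_lt (mem_filter.1 hp).1
      exact_mod_cast (by omega : 8 ≤ p)
    have h4 : (0 : ℝ) < p - 3 := by linarith
    have h5 : (0 : ℝ) < p := by linarith
    have h6 : 1 / (p : ℝ) + 6 * (1 / (p : ℝ) ^ 2) = (p + 6) / (p : ℝ) ^ 2 := by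
      field_simp
    rw [h6, div_le_div_iff₀ h4 (by positivity)]
    nlinarith
  calc ∑ p ∈ (PS z y).filter (fun p => ¬ A p), 1 / ((p : ℝ) - 3)
      ≤ ∑ p ∈ (PS z y).filter (fun p => ¬ A p), (1 / (p : ℝ) + 6 * (1 / (p : ℝ) ^ 2)) :=
        sum_le_sum h2
    _ = ∑ p ∈ (PS z y).filter (fun p => ¬ A p), 1 / (p : ℝ) +
        6 * ∑ p ∈ (PS z y).filter (fun p => ¬ A p), 1 / (p : ℝ) ^ 2 := by
        rw [sum_add_distrib, mul_sum]
    _ ≤ ((1 - δ) * Real.log (Real.log y) + C0) + 6 * K := by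
        have := hmer z y (by omega)
        have := hsq ((PS z y).filter (fun p => ¬ A p))
        linarith
    _ = _ := by ring

/-- the average of the second moments, with local conditions at the primes in `A` -/
theorem maf_act (hA' : PSet A δ z1) :
    ∃ z0 : ℕ, ∀ z, z0 ≤ z → ∃ C : ℝ, ∀ y, z < y →
      ∑ s ∈ Tup (Fin 3) z y, NF 2 (fun j => act A (s j)) * ∏ j, gw 1 (Fintype.card (Fin 3)) (s j) ≤
        C * (Real.log y) ^ (Fintype.card (Fin 3)) := by
  obtain ⟨z0, hz0⟩ := mafA hA'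
  obtain ⟨C2, hC2, h2⟩ := sum_not hA'
  refine ⟨max z0 8, fun z hz => ?_⟩
  obtain ⟨C1, hC1⟩ := hz0 z ((le_max_left _ _).trans hz)
  have hz8 : 8 ≤ z := (le_max_right _ _).trans hz
  refine ⟨C1 * C2 ^ 3, fun y hy => ?_⟩
  have hlog : 0 < Real.log y := Real.log_pos (by exact_mod_cast (by omega : 1 < y))
  rw [Fintype.card_fin]
  have hF : ∀ s, 0 ≤ NF 2 s := fun s => by
    unfold NF
    exact mul_nonneg (by positivity) (sum_nonneg fun _ _ => pow_nonneg (Nat.cast_nonneg _) _)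
  refine (sum_act_le (A := A) (c := 3) (by omega) (NF 2) hF).trans ?_
  have h3 : 0 ≤ ∑ s ∈ Tup (Fin 3) z y, NF 2 s * ∏ j, gh 1 (hA A 3) (s j) := by
    refine sum_nonneg fun s hs => mul_nonneg (hF s) (prod_nonneg fun j _ => ?_)
    exact gh_nonneg zero_le_one (by omega) (Nat.mem_divisors.2 ⟨(mem_Tup'.1 hs).1 j, PP_ne_zero z y⟩)
  have h4 : 0 ≤ ∑ d ∈ (PP z y).divisors, gh 1 (hA (fun p => ¬ A p) 3) d :=
    sum_nonneg fun d hd => gh_nonneg zero_le_one (by omega) hd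
  rw [prod_const, card_univ, Fintype.card_fin]
  have h5 := h2 z y hz8 hy
  have h6 := hC1 y hy
  calc _ ≤ (C1 * (Real.log y) ^ (3 * δ)) * (C2 * (Real.log y) ^ (1 - δ)) ^ 3 :=
        mul_le_mul h6 (pow_le_pow_left₀ h4 h5 3) (pow_nonneg h4 3) (h3.trans h6)
    _ = C1 * C2 ^ 3 * ((Real.log y) ^ (3 * δ) * ((Real.log y) ^ (1 - δ)) ^ 3) := by ring
    _ = C1 * C2 ^ 3 * (Real.log y) ^ 3 := by
        congr 1
        rw [← Real.rpow_natCast ((Real.log y) ^ (1 - δ)) 3, ← Real.rpow_mul hlog.le,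
          ← Real.rpow_add hlog, ← Real.rpow_natCast (Real.log y) 3]
        congr 1
        push_cast
        ring

/-- growth of the moments -/
theorem subf_act (k z y : ℕ) (hz : 2 ≤ z) (s e : Fin 3 → ℕ)
    (h : (fun j => s j * e j) ∈ Tup (Fin 3) z y) :
    NF k (fun j => act A (s j * e j)) ≤
      (4 ^ k : ℝ) ^ (∑ j, (e j).primeFactors.card) * NF k (fun j => act A (s j)) := by
  have hsq : ∀ j, Squarefree (s j * e j) := fun j =>
    (PP_squarefree z y).squarefree_of_dvd ((mem_Tup'.1 h).1 j)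
  have h1 : (fun j => act A (s j * e j)) = fun j => act A (s j) * act A (e j) :=
    funext fun j => act_mul (hsq j)
  have h2 : (fun j => act A (s j) * act A (e j)) ∈ Tup (Fin 3) z y := by
    rw [← h1]
    exact Tup_dvd h fun j => act_dvd _
  have h3 := Pool.Agent.W503.FK.subf k z y hz (fun j => act A (s j)) (fun j => act A (e j)) h2
  rw [h1]
  refine h3.trans ?_
  refine mul_le_mul_of_nonneg_right ?_ ?_
  · refine pow_le_pow_right₀ (one_le_pow₀ (by norm_num)) (sum_le_sum fun j _ => ?_)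
    rw [act_pf]
    exact card_filter_le _ _
  · unfold NF
    exact mul_nonneg (by positivity) (sum_nonneg fun _ _ => pow_nonneg (Nat.cast_nonneg _) _)

end Pool.Agent.Y669
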