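import Mathlib
import Pool.Agent.W407.SE.Ratp0

/-!
# Embeddings of number fields in the p-adic numbers and parity of the valuations of norms
-/

set_option autoImplicit false

namespace Pool.Agent.Y669

open NumberField Polynomial

section nf

variable {L : Type} [Field L] [NumberField L]

lemma int_mem {p : ℕ} (hp : p.Prime) {P : Ideal (𝓞 L)} (hP : P ≠ ⊤) (hpP : (p : 𝓞 L) ∈ P)
    {n : ℤ} (hn : (n : 𝓞 L) ∈ P) : (p : ℤ) ∣ n := by
  by_contra h
  have hc : IsCoprime (p : ℤ) n := (Prime.coprime_iff_not_dvd (Nat.prime_iff_prime_int.1 hp)).2 h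
  obtain ⟨u, v, huv⟩ := hc
  apply hP
  rw [Ideal.eq_top_iff_one]
  have h1 : (1 : 𝓞 L) = (u : 𝓞 L) * (p : 𝓞 L) + (v : 𝓞 L) * (n : 𝓞 L) := by
    have h2 := congrArg (fun t : ℤ => (t : 𝓞 L)) huv
    push_cast at h2
    rw [h2]
  rw [h1]
  exact P.add_mem (P.mul_mem_left _ hpP) (P.mul_mem_left _ hn)

lemma dvd_norm {p : ℕ} (hp : p.Prime) {P : Ideal (𝓞 L)} (hP : P ≠ ⊤) (hpP : (p : 𝓞 L) ∈ P)
    {β : 𝓞 L} (hβ : β ∈ P) : (p : ℤ) ∣ Algebra.norm ℤ β := by
  have h1 := Ideal.absNorm_mem (Ideal.span {β})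
  have h2 : ((Ideal.absNorm (Ideal.span {β}) : ℕ) : 𝓞 L) ∈ P :=
    (Ideal.span_singleton_le_iff_mem P).2 hβ h1
  rw [Ideal.absNorm_span_singleton] at h2
  have h3 : ((((Algebra.norm ℤ β).natAbs : ℕ) : ℤ) : 𝓞 L) ∈ P := by
    rw [Int.cast_natCast]
    exact h2
  exact Int.dvd_natAbs.1 (int_mem hp hP hpP h3)

lemma exists_prime_over {p : ℕ} (hp : p.Prime) :
    ∃ P : Ideal (𝓞 L), P.IsMaximal ∧ (p : 𝓞 L) ∈ P := by
  have h1 : (p : 𝓞 L) ∈ nonunits (𝓞 L) := by
    intro h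
    have h2 := (h.map (Algebra.norm ℤ : 𝓞 L →* ℤ))
    have h3 : Algebra.norm ℤ (p : 𝓞 L) = (p : ℤ) ^ Module.finrank ℤ (𝓞 L) := by
      have := Algebra.norm_algebraMap (S := 𝓞 L) (p : ℤ)
      simpa using this
    rw [h3, isUnit_pow_iff] at h2
    · have h4 := Int.isUnit_iff.1 h2
      have := hp.one_lt
      omega
    · exact Module.finrank_pos.ne'
  obtain ⟨P, hP, h⟩ := exists_max_ideal_of_mem_nonunits h1
  exact ⟨P, hP, h⟩

/-- an element of a field of characteristic `p` with `x ^ p = x` -/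
lemma mem_prime_field {p : ℕ} [hp : Fact p.Prime] {K : Type} [Field K] [CharP K p] {x : K}
    (hx : x ^ p = x) : ∃ a : ℤ, x = a := by
  obtain ⟨n, hn⟩ := (mem_bot_iff_intCast p K).1 ((Subfield.mem_bot_iff_pow_eq_self K p).2 hx)
  exact ⟨n, hn.symm⟩

/-- embeddings in the p-adic numbers -/
theorem exists_iota (α : 𝓞 L) (hα : IntermediateField.adjoin ℚ {(α : L)} = ⊤) :
    ∃ z1 : ℕ, ∀ (p : ℕ) [Fact p.Prime], z1 < p → (∃ y : 𝓞 L, α ^ p - α = p * y) →
      Nonempty (L →+* ℚ_[p]) := by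
  classical
  have hint : IsIntegral ℤ (α : L) := α.2
  have hintQ : IsIntegral ℚ (α : L) := hint.tower_top
  obtain ⟨f, hf⟩ : ∃ f : ℤ[X], f = minpoly ℤ (α : L) := ⟨_, rfl⟩
  have hfα : aeval α f = 0 := by
    apply RingOfIntegers.coe_injective
    rw [map_zero, ← minpoly.aeval ℤ (α : L), ← hf]
    exact (Polynomial.aeval_algebraMap_apply L α f).symm
  have hfQ : minpoly ℚ (α : L) = f.map (algebraMap ℤ ℚ) := by
    rw [hf]
    exact minpoly.isIntegrallyClosed_eq_field_fractions' ℚ hint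
  obtain ⟨β, hβ⟩ : ∃ β : 𝓞 L, β = aeval α (derivative f) := ⟨_, rfl⟩
  have hβ0 : β ≠ 0 := by
    intro h0
    have h1 : aeval (α : L) (derivative (minpoly ℚ (α : L))) ≠ 0 :=
      (Algebra.IsSeparable.isSeparable ℚ (α : L)).aeval_derivative_ne_zero (minpoly.aeval _ _)
    apply h1
    rw [hfQ, derivative_map, Polynomial.aeval_map_algebraMap]
    have h2 : aeval (α : L) (derivative f) = ((aeval α (derivative f) : 𝓞 L) : L) :=
      Polynomial.aeval_algebraMap_apply L α (derivative f)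
    rw [h2, ← hβ, h0]
    rfl
  have hN0 : Algebra.norm ℤ β ≠ 0 := Algebra.norm_ne_zero_iff.2 hβ0
  refine ⟨(Algebra.norm ℤ β).natAbs, fun p hp hpz hy => ?_⟩
  obtain ⟨y, hy⟩ := hy
  obtain ⟨P, hPm, hpP⟩ := exists_prime_over (L := L) hp.out
  have hPt : P ≠ ⊤ := hPm.ne_top
  -- the residue field
  let _ : Field (𝓞 L ⧸ P) := Ideal.Quotient.field P
  have hchar : CharP (𝓞 L ⧸ P) p := by
    constructor
    intro n
    constructor
    · intro h
      have h1 : ((n : ℤ) : 𝓞 L) ∈ P := by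
        rw [← Ideal.Quotient.eq_zero_iff_mem]
        push_cast
        exact_mod_cast h
      exact_mod_cast int_mem hp.out hPt hpP h1
    · rintro ⟨k, rfl⟩
      rw [Nat.cast_mul]
      have : ((p : ℕ) : 𝓞 L ⧸ P) = 0 := by
        have := (Ideal.Quotient.eq_zero_iff_mem (I := P)).2 hpP
        simpa using this
      rw [this, zero_mul]
  obtain ⟨a, ha⟩ : ∃ a : ℤ, Ideal.Quotient.mk P α = a := by
    apply mem_prime_field (p := p)
    rw [← map_pow, Ideal.Quotient.eq, hy]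
    exact P.mul_mem_right _ hpP
  have hmod : ∀ g : ℤ[X], aeval α g ∈ P ↔ (p : ℤ) ∣ g.eval a := by
    intro g
    have h1 : Ideal.Quotient.mk P (aeval α g) = ((g.eval a : ℤ) : 𝓞 L ⧸ P) := by
      have h2 : Ideal.Quotient.mk P (aeval α g) = aeval (Ideal.Quotient.mk P α) g := by
        rw [Polynomial.aeval_def, Polynomial.aeval_def, Polynomial.hom_eval₂]
        congr 1
      rw [h2, ha, Polynomial.aeval_def, Polynomial.eval₂_eq_eval_map]
      have h3 := Polynomial.eval_intCast_map (algebraMap ℤ (𝓞 L ⧸ P)) g a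
      rw [h3]
      rfl
    rw [← Ideal.Quotient.eq_zero_iff_mem, h1]
    exact CharP.intCast_eq_zero_iff _ p _
  have hfa : (p : ℤ) ∣ f.eval a := (hmod f).1 (by rw [hfα]; exact P.zero_mem)
  have hfa' : ¬ (p : ℤ) ∣ (derivative f).eval a := by
    intro h
    have h1 := (hmod (derivative f)).2 h
    rw [← hβ] at h1
    have h2 := dvd_norm hp.out hPt hpP h1
    have h3 := Nat.le_of_dvd (Int.natAbs_pos.2 hN0) (Int.natCast_dvd.1 h2)
    omega
  have he : ∀ g : ℤ[X], aeval ((a : ℤ) : ℤ_[p]) g = ((g.eval a : ℤ) : ℤ_[p]) := by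
    intro g
    rw [Polynomial.aeval_def, Polynomial.eval₂_eq_eval_map,
      Polynomial.eval_intCast_map (algebraMap ℤ ℤ_[p]) g a]
    simp
  obtain ⟨z, hz, -⟩ := hensels_lemma (p := p) (R := ℤ) (F := f) (a := ((a : ℤ) : ℤ_[p])) (by
    rw [he, he]
    have h1 : ‖((f.eval a : ℤ) : ℤ_[p])‖ < 1 := PadicInt.norm_int_lt_one_iff_dvd _ |>.2 hfa
    have h2 : ‖(((derivative f).eval a : ℤ) : ℤ_[p])‖ = 1 := by
      refine le_antisymm (PadicInt.norm_le_one _) (not_lt.1 ?_)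
      intro h
      exact hfa' ((PadicInt.norm_int_lt_one_iff_dvd _).1 h)
    rw [h2, one_pow]
    exact h1)
  have hroot : aeval (z : ℚ_[p]) (minpoly ℚ (α : L)) = 0 := by
    rw [hfQ, Polynomial.aeval_map_algebraMap]
    have h1 := Polynomial.aeval_algebraMap_apply ℚ_[p] z f
    rw [hz, map_zero] at h1
    exact h1
  obtain ⟨w, hw⟩ : ∃ w : ℚ_[p], aeval w (minpoly ℚ (α : L)) = 0 := ⟨_, hroot⟩
  let pb := IntermediateField.adjoin.powerBasis hintQ
  let φ : IntermediateField.adjoin ℚ {(α : L)} →ₐ[ℚ] ℚ_[p] :=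
    pb.lift w ((congrArg (aeval w) (IntermediateField.minpoly_gen ℚ (α : L))).trans hw)
  let e : L ≃ₐ[ℚ] IntermediateField.adjoin ℚ {(α : L)} :=
    (IntermediateField.topEquiv (F := ℚ) (E := L)).symm.trans
      (IntermediateField.equivOfEq hα.symm)
  exact ⟨(φ.comp e.toAlgHom).toRingHom⟩

/-- square classes of units -/
theorem unit_sq (δ : 𝓞 L) (hδ : δ ≠ 0) : ∃ z1 : ℕ, ∀ (p : ℕ) [Fact p.Prime], z1 < p →
    ∀ ι : L →+* ℚ_[p], ∃ ε : ℤ, ¬ (p : ℤ) ∣ ε ∧ IsSquare (ι (δ : L) * ε) := by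
  have hN0 : Algebra.norm ℤ δ ≠ 0 := Algebra.norm_ne_zero_iff.2 hδ
  refine ⟨(Algebra.norm ℤ δ).natAbs + 2, fun p hp hpz ι => ?_⟩
  have hint : ∀ t : 𝓞 L, ∃ t' : ℤ_[p], (t' : ℚ_[p]) = ι (t : L) := by
    intro t
    have h1 : IsIntegral ℤ (ι (t : L)) := by
      have := t.2
      exact this.map (ι.toIntAlgHom)
    have h2 : IsIntegral ℤ_[p] (ι (t : L)) := h1.tower_top
    obtain ⟨t', ht'⟩ := IsIntegrallyClosed.isIntegral_iff.1 h2
    exact ⟨t', ht'⟩
  obtain ⟨u, hu⟩ := hint δ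
  obtain ⟨δ', hδ'⟩ : ∃ δ' : 𝓞 L, δ * δ' = ((Algebra.norm ℤ δ : ℤ) : 𝓞 L) := by
    have h1 := Ideal.absNorm_mem (Ideal.span {δ})
    rw [Ideal.absNorm_span_singleton, Ideal.mem_span_singleton] at h1
    obtain ⟨c, hc⟩ := h1
    rcases Int.natAbs_eq (Algebra.norm ℤ δ) with h | h
    · refine ⟨c, ?_⟩
      rw [← hc, h]
      simp
    · refine ⟨-c, ?_⟩
      rw [mul_neg, ← hc, h]
      simp
  obtain ⟨v, hv⟩ := hint δ'
  have huv : u * v = ((Algebra.norm ℤ δ : ℤ) : ℤ_[p]) := by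
    apply PadicInt.ext
    have h1 := congrArg (fun t : 𝓞 L => ι (t : L)) hδ'
    simp only [map_mul, map_intCast] at h1
    push_cast
    rw [hu, hv]
    exact h1
  have hn : ‖((Algebra.norm ℤ δ : ℤ) : ℤ_[p])‖ = 1 := by
    refine le_antisymm (PadicInt.norm_le_one _) (not_lt.1 ?_)
    intro h
    have h1 := (PadicInt.norm_int_lt_one_iff_dvd _).1 h
    have h2 := Nat.le_of_dvd (Int.natAbs_pos.2 hN0) (Int.natCast_dvd.1 h1)
    omega
  have hu1 : ‖u‖ = 1 := by
    have h1 : ‖u‖ * ‖v‖ = 1 := by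
      rw [← norm_mul, huv]
      exact hn
    have h2 := PadicInt.norm_le_one u
    have h3 := PadicInt.norm_le_one v
    nlinarith [norm_nonneg u, norm_nonneg v]
  -- an integer close to `u`
  obtain ⟨n, hn1⟩ : ∃ n : ℤ, ‖u - (n : ℤ_[p])‖ < 1 := by
    obtain ⟨n, -, hn⟩ := PadicInt.exists_mem_range u
    refine ⟨(n : ℤ), ?_⟩
    have := (PadicInt.mem_nonunits (p := p)).1 ((IsLocalRing.mem_maximalIdeal _).1 hn)
    simpa using this
  refine ⟨n, ?_, ?_⟩
  · intro h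
    have h1 := (PadicInt.norm_int_lt_one_iff_dvd (p := p) n).2 h
    have h2 : u = (u - (n : ℤ_[p])) + (n : ℤ_[p]) := by ring
    have h3 : ‖u‖ < 1 := by
      rw [h2]
      exact lt_of_le_of_lt (PadicInt.nonarchimedean _ _) (max_lt hn1 h1)
    linarith
  · have h1 : ‖ι (δ : L) - ((n : ℤ) : ℚ_[p])‖ < ‖ι (δ : L)‖ := by
      rw [← hu]
      have e1 : ‖(u : ℚ_[p])‖ = 1 := by
        rw [← PadicInt.norm_def]
        exact hu1
      rw [e1]
      have e2 : (u : ℚ_[p]) - ((n : ℤ) : ℚ_[p]) = ((u - (n : ℤ_[p]) : ℤ_[p]) : ℚ_[p]) := by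
        push_cast
        rfl
      rw [e2, ← PadicInt.norm_def]
      exact hn1
    exact (Pool.Agent.W407.SE.near (by omega) _ _ h1).1

/-- parity of the valuations of norms -/
theorem even_norm {p : ℕ} [hp : Fact p.Prime]
    (h : ∀ P : Ideal (𝓞 L), P.IsPrime → P ≠ ⊥ → (p : 𝓞 L) ∈ P →
      ∀ f : ℕ, Ideal.absNorm P = p ^ f → Even f) :
    ∀ t : L, t ≠ 0 → Even (padicValRat p (Algebra.norm ℚ t)) := by
  have hI : ∀ I : Ideal (𝓞 L), I ≠ 0 → Even (padicValNat p (Ideal.absNorm I)) := by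
    intro I
    refine UniqueFactorizationMonoid.induction_on_prime I (fun h => absurd rfl h)
      (fun J hJ _ => ?_) (fun J P hJ hP ih _ => ?_)
    · rw [Ideal.isUnit_iff] at hJ
      rw [hJ, Ideal.absNorm_top]
      simp
    · have hJ0 : J ≠ 0 := hJ
      have hP0 : P ≠ ⊥ := hP.ne_zero
      have hPp : P.IsPrime := (Ideal.prime_iff_isPrime hP0).1 hP
      have n1 : Ideal.absNorm P ≠ 0 := by
        rw [Ne, Ideal.absNorm_eq_zero_iff]
        exact hP0
      have n2 : Ideal.absNorm J ≠ 0 := by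
        rw [Ne, Ideal.absNorm_eq_zero_iff]
        exact hJ0
      rw [map_mul, padicValNat.mul n1 n2]
      refine Even.add ?_ (ih hJ0)
      by_cases hd : p ∣ Ideal.absNorm P
      · have hmax : P.IsMaximal := hPp.isMaximal hP0
        let _ : Field (𝓞 L ⧸ P) := Ideal.Quotient.field P
        have : Finite (𝓞 L ⧸ P) := by
          apply Nat.finite_of_card_ne_zero
          rw [← Submodule.cardQuot_apply, ← Ideal.absNorm_apply]
          exact n1
        have : Fintype (𝓞 L ⧸ P) := Fintype.ofFinite _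
        obtain ⟨q, hq⟩ := CharP.exists (𝓞 L ⧸ P)
        obtain ⟨n, hqp, hn⟩ := FiniteField.card (𝓞 L ⧸ P) q
        have hcard : Ideal.absNorm P = q ^ (n : ℕ) := by
          rw [Ideal.absNorm_apply, Submodule.cardQuot_apply, Nat.card_eq_fintype_card]
          exact hn
        rw [hcard] at hd ⊢
        have hpq : p = q := (Nat.prime_dvd_prime_iff_eq hp.out hqp).1 (hp.out.dvd_of_dvd_pow hd)
        subst hpq
        rw [padicValNat.prime_pow]
        refine h P hPp hP0 ?_ n hcard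
        have h1 : ((p : ℕ) : 𝓞 L ⧸ P) = 0 := CharP.cast_eq_zero _ _
        rw [← Ideal.Quotient.eq_zero_iff_mem]
        simp
      · rw [padicValNat.eq_zero_of_not_dvd hd]
        exact Even.zero
  have hint : ∀ a : 𝓞 L, a ≠ 0 → Even (padicValRat p (Algebra.norm ℚ (a : L))) := by
    intro a ha
    have h1 := hI (Ideal.span {a}) (by
      rw [Ne, Ideal.zero_eq_bot, Ideal.span_singleton_eq_bot]
      exact ha)
    rw [Ideal.absNorm_span_singleton] at h1
    rw [← Algebra.coe_norm_int, padicValRat.of_int, padicValInt]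
    exact_mod_cast h1
  intro t ht
  obtain ⟨a, b, hb, hab⟩ := IsFractionRing.div_surjective (A := 𝓞 L) t
  have hb0 : b ≠ 0 := nonZeroDivisors.ne_zero hb
  have ha0 : a ≠ 0 := by
    rintro rfl
    rw [map_zero, zero_div] at hab
    exact ht hab.symm
  have hbL : (b : L) ≠ 0 := fun h0 => hb0 (RingOfIntegers.coe_injective h0)
  have hmul : t * (b : L) = (a : L) := by
    rw [← hab]
    exact div_mul_cancel₀ _ hbL
  have h1 : padicValRat p (Algebra.norm ℚ t) + padicValRat p (Algebra.norm ℚ (b : L)) =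
      padicValRat p (Algebra.norm ℚ (a : L)) := by
    rw [← padicValRat.mul (Algebra.norm_ne_zero_iff.2 ht) (Algebra.norm_ne_zero_iff.2 hbL),
      ← map_mul, hmul]
  have h2 := hint a ha0
  rw [← h1] at h2
  exact (Int.even_add.1 h2).2 (hint b hb0)

end nf

end Pool.Agent.Y669
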