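import Pool.Agent.Y669.Cyc1
import Pool.Agent.Y669.SelF

/-!
# The local data of subfields of the cyclotomic fields
-/

set_option autoImplicit false

namespace Pool.Agent.Y669

open NumberField Polynomial IsCyclotomicExtension

section cyc

variable (N : ℕ) [NeZero N] (F : Type) [Field F] [NumberField F] [IsCyclotomicExtension {N} ℚ F]

/-- the ring `ℤ[ζ]` -/
noncomputable def RZ : Subalgebra ℤ F := Algebra.adjoin ℤ {zeta N ℚ F}

/-- the automorphism `ζ ↦ ζ ^ p` -/
noncomputable def frob {p : ℕ} (hp : p.Coprime N) : F ≃ₐ[ℚ] F :=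
  (IsCyclotomicExtension.Rat.galEquivZMod N F).symm (ZMod.unitOfCoprime p hp)

lemma frob_pow_zeta {p : ℕ} (hp : p.Coprime N) (j : ℕ) :
    (frob N F hp ^ j) (zeta N ℚ F) = zeta N ℚ F ^ (p ^ j) := by
  have h1 := IsCyclotomicExtension.Rat.galEquivZMod_apply_of_pow_eq N F (frob N F hp ^ j)
    (zeta_spec N ℚ F).pow_eq_one
  have h2 : IsCyclotomicExtension.Rat.galEquivZMod N F (frob N F hp ^ j) =
      ZMod.unitOfCoprime p hp ^ j := by
    rw [map_pow]
    unfold frob
    rw [MulEquiv.apply_symm_apply]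
  rw [h1, h2, Units.val_pow_eq_pow_val, ZMod.coe_unitOfCoprime, ← Nat.cast_pow, ZMod.val_natCast]
  exact (pow_eq_pow_mod _ (zeta_spec N ℚ F).pow_eq_one).symm

lemma RZ_int {x : F} (hx : x ∈ RZ N F) : IsIntegral ℤ x := by
  have h1 : RZ N F ≤ integralClosure ℤ F := by
    unfold RZ
    rw [Algebra.adjoin_le_iff, Set.singleton_subset_iff]
    exact (zeta_spec N ℚ F).isIntegral (NeZero.pos N)
  exact h1 hx

lemma frob_cong {p : ℕ} [hpp : Fact p.Prime] (hp : p.Coprime N) (j : ℕ) {x : F}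
    (hx : x ∈ RZ N F) : ∃ y ∈ RZ N F, (frob N F hp ^ j) x = x ^ (p ^ j) + p * y := by
  have hz : zeta N ℚ F ∈ RZ N F := Algebra.subset_adjoin rfl
  unfold RZ at hx
  induction hx using Algebra.adjoin_induction with
  | mem x hx =>
    rw [Set.mem_singleton_iff] at hx
    subst hx
    refine ⟨0, (RZ N F).zero_mem, ?_⟩
    rw [frob_pow_zeta, mul_zero, add_zero]
  | algebraMap r =>
    have h1 : (p : ℤ) ∣ r - r ^ (p ^ j) := by
      rw [← ZMod.intCast_zmod_eq_zero_iff_dvd]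
      push_cast
      rw [ZMod.pow_card_pow, sub_self]
    obtain ⟨k, hk⟩ := h1
    refine ⟨algebraMap ℤ F k, (RZ N F).algebraMap_mem k, ?_⟩
    have h2 : r = r ^ (p ^ j) + p * k := by linarith
    simp only [eq_intCast, map_intCast]
    exact_mod_cast congrArg (Int.cast : ℤ → F) h2
  | add x y hx hy ihx ihy =>
    obtain ⟨u, hu, hu'⟩ := ihx
    obtain ⟨v, hv, hv'⟩ := ihy
    obtain ⟨r, hr⟩ := exists_add_pow_prime_pow_eq hpp.out (⟨x, hx⟩ : RZ N F) (⟨y, hy⟩ : RZ N F) j
    have hr' := congrArg (fun t : RZ N F => (t : F)) hr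
    have hpc : (((p : ℕ) : RZ N F) : F) = p := map_natCast (RZ N F).val p
    simp only [Subalgebra.coe_add, Subalgebra.coe_pow, Subalgebra.coe_mul] at hr'
    rw [hpc] at hr'
    refine ⟨u + v - x * y * (r : F), ?_, ?_⟩
    · exact (RZ N F).sub_mem ((RZ N F).add_mem hu hv)
        ((RZ N F).mul_mem ((RZ N F).mul_mem hx hy) r.2)
    · rw [map_add, hu', hv', hr']
      ring
  | mul x y hx hy ihx ihy =>
    obtain ⟨u, hu, hu'⟩ := ihx
    obtain ⟨v, hv, hv'⟩ := ihy
    refine ⟨x ^ (p ^ j) * v + y ^ (p ^ j) * u + p * u * v, ?_, ?_⟩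
    · refine (RZ N F).add_mem ((RZ N F).add_mem ((RZ N F).mul_mem ((RZ N F).pow_mem hx _) hv)
        ((RZ N F).mul_mem ((RZ N F).pow_mem hy _) hu)) ?_
      exact (RZ N F).mul_mem ((RZ N F).mul_mem ((RZ N F).natCast_mem p) hu) hv
    · rw [map_mul, hu', hv']
      ring

lemma RZ_scale (x : F) : ∃ n : ℤ, n ≠ 0 ∧ (n : F) * x ∈ RZ N F := by
  have htop : Algebra.adjoin ℚ {zeta N ℚ F} = ⊤ :=
    adjoin_primitive_root_eq_top (zeta_spec N ℚ F)
  have hx : x ∈ Algebra.adjoin ℚ {zeta N ℚ F} := by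
    rw [htop]
    exact Algebra.mem_top
  induction hx using Algebra.adjoin_induction with
  | mem x hx =>
    rw [Set.mem_singleton_iff] at hx
    subst hx
    refine ⟨1, one_ne_zero, ?_⟩
    rw [Int.cast_one, one_mul]
    exact Algebra.subset_adjoin rfl
  | algebraMap r =>
    refine ⟨r.den, by exact_mod_cast r.den_nz, ?_⟩
    have h1 : ((r.den : ℤ) : F) * algebraMap ℚ F r = algebraMap ℤ F r.num := by
      have h2 : (r.den : ℚ) * r = r.num := Rat.den_mul_eq_num r
      have h3 := congrArg (algebraMap ℚ F) h2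
      rw [map_mul, map_natCast, map_intCast] at h3
      rw [eq_intCast]
      exact_mod_cast h3
    rw [h1]
    exact (RZ N F).algebraMap_mem _
  | add x y hx hy ihx ihy =>
    obtain ⟨u, hu, hu'⟩ := ihx
    obtain ⟨v, hv, hv'⟩ := ihy
    refine ⟨u * v, mul_ne_zero hu hv, ?_⟩
    have h1 : ((u * v : ℤ) : F) * (x + y) = (v : F) * (u * x) + (u : F) * (v * y) := by
      push_cast; ring
    rw [h1]
    exact (RZ N F).add_mem ((RZ N F).mul_mem ((RZ N F).intCast_mem v) hu')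
      ((RZ N F).mul_mem ((RZ N F).intCast_mem u) hv')
  | mul x y hx hy ihx ihy =>
    obtain ⟨u, hu, hu'⟩ := ihx
    obtain ⟨v, hv, hv'⟩ := ihy
    refine ⟨u * v, mul_ne_zero hu hv, ?_⟩
    have h1 : ((u * v : ℤ) : F) * (x * y) = (u * x) * (v * y) := by
      push_cast; ring
    rw [h1]
    exact (RZ N F).mul_mem hu' hv'

variable {F}

/-- the local data of a subfield of 2-power degree of a cyclotomic field -/
theorem ld_cyc (L : IntermediateField ℚ F) [IsGalois ℚ L] (a : ℕ)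
    (hH : ∀ σ : F ≃ₐ[ℚ] F, σ ^ (2 ^ a) ∈ L.fixingSubgroup)
    (A : ℕ → Prop) (hA : ∀ (p : ℕ) (hp : p.Coprime N), A p ↔ frob N F hp ∈ L.fixingSubgroup)
    (δ : L) (hδ0 : δ ≠ 0) (hδi : IsIntegral ℤ δ)
    (hsq : ∀ τ : L ≃ₐ[ℚ] L, IsSquare (δ * τ δ)) :
    ∃ z1, LD L δ A z1 := by
  classical
  have hgal : IsGalois ℚ F := IsCyclotomicExtension.isGalois {N} ℚ F
  obtain ⟨H, hLH⟩ : ∃ H, L.fixingSubgroup = H := ⟨_, rfl⟩
  rw [hLH] at hH
  have hA' : ∀ (p : ℕ) (hp : p.Coprime N), A p ↔ frob N F hp ∈ H := fun p hp => by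
    rw [hA p hp, hLH]
  have hinj : Function.Injective (algebraMap L F) := (algebraMap L F).injective
  have hint : ∀ x : L, (x : F) ∈ RZ N F → IsIntegral ℤ x := fun x hx =>
    (isIntegral_algebraMap_iff hinj).1 (RZ_int N F hx)
  -- the primitive element
  obtain ⟨α, hαR, hαt⟩ : ∃ α : 𝓞 L, (((α : L) : F) ∈ RZ N F) ∧
      IntermediateField.adjoin ℚ {(α : L)} = ⊤ := by
    obtain ⟨b, hb⟩ := Field.exists_primitive_element ℚ L
    obtain ⟨n, hn, hnb⟩ := RZ_scale N F (b : F)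
    have hnb' : (((n : L) * b : L) : F) ∈ RZ N F := by
      push_cast
      exact hnb
    refine ⟨⟨(n : L) * b, hint _ hnb'⟩, hnb', ?_⟩
    rw [eq_top_iff, ← hb, IntermediateField.adjoin_simple_le_iff]
    have h1 : ((n : L) * b) ∈ IntermediateField.adjoin ℚ {(n : L) * b} :=
      IntermediateField.mem_adjoin_simple_self ℚ _
    have h2 : (n : L) ∈ IntermediateField.adjoin ℚ {(n : L) * b} :=
      IntermediateField.intCast_mem _ n
    have h3 := IntermediateField.div_mem _ h1 h2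
    have h4 : (n : L) * b / n = b := by
      have : (n : L) ≠ 0 := by exact_mod_cast hn
      field_simp
    rw [h4] at h3
    exact h3
  have hfix : ∀ τ : L ≃ₐ[ℚ] L, τ (α : L) = (α : L) → τ = 1 := by
    intro τ hτ
    have h1 : IntermediateField.adjoin ℚ {(α : L)} ≤
        IntermediateField.fixedField (Subgroup.zpowers τ) := by
      rw [IntermediateField.adjoin_simple_le_iff, IntermediateField.mem_fixedField_iff]
      rintro g ⟨k, rfl⟩
      show (τ ^ k) (α : L) = α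
      have h2 : τ ∈ MulAction.stabilizer (L ≃ₐ[ℚ] L) (α : L) := hτ
      exact (Subgroup.zpow_mem _ h2 k)
    rw [hαt] at h1
    ext x
    have h2 := (IntermediateField.mem_fixedField_iff _ x).1 (h1 IntermediateField.mem_top) τ
      (Subgroup.mem_zpowers τ)
    rw [h2]
    rfl
  -- descent of integrality
  have hdesc : ∀ (p : ℕ), p.Prime → ∀ (u v : 𝓞 L) (y : F), y ∈ RZ N F →
      ((u : L) : F) = ((v : L) : F) + p * y → ∃ w : 𝓞 L, u = v + p * w := by
    intro p hp u v y hy huv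
    have hp0 : (p : L) ≠ 0 := by exact_mod_cast hp.ne_zero
    have hpF : (p : F) ≠ 0 := by exact_mod_cast hp.ne_zero
    have h1 : ((((u : L) - v) / p : L) : F) = y := by
      push_cast
      rw [div_eq_iff hpF]
      linear_combination huv
    refine ⟨⟨((u : L) - v) / p, hint _ (by rw [h1]; exact hy)⟩, ?_⟩
    apply RingOfIntegers.coe_injective
    rw [map_add, map_mul, map_natCast]
    show (u : L) = (v : L) + (p : L) * (((u : L) - v) / p)
    field_simp
    ring
  -- the differences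
  obtain ⟨β, hβ⟩ : ∃ β : (L ≃ₐ[ℚ] L) → 𝓞 L, ∀ τ, ((β τ : 𝓞 L) : L) = τ (α : L) - α := by
    refine ⟨fun τ => ⟨τ (α : L) - α, ?_⟩, fun τ => rfl⟩
    have h1 : IsIntegral ℤ (α : L) := α.2
    exact (h1.map (τ.toAlgHom.restrictScalars ℤ)).sub h1
  obtain ⟨z2, hz2⟩ := exists_iota α hαt
  have hδ0' : (⟨δ, hδi⟩ : 𝓞 L) ≠ 0 := by
    intro h
    exact hδ0 (congrArg (fun t : 𝓞 L => (t : L)) h)
  obtain ⟨z3, hz3⟩ := unit_sq (⟨δ, hδi⟩ : 𝓞 L) hδ0'
  refine ⟨N + z2 + z3 + ∑ τ : L ≃ₐ[ℚ] L, (Algebra.norm ℤ (β τ)).natAbs, hδ0, hsq, ?_, ?_⟩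
  · intro p hp hpz hAp
    have hcop : p.Coprime N := by
      rw [Nat.Prime.coprime_iff_not_dvd hp.out]
      intro h
      have := Nat.le_of_dvd (NeZero.pos N) h
      omega
    have hfr := (hA' p hcop).1 hAp
    obtain ⟨y, hy, hyα⟩ := frob_cong N F hcop 1 hαR
    rw [pow_one, pow_one] at hyα
    have h1 : (frob N F hcop) (((α : L) : F)) = ((α : L) : F) := by
      rw [← hLH, IntermediateField.mem_fixingSubgroup_iff] at hfr
      exact hfr _ (α : L).2
    rw [h1] at hyα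
    obtain ⟨w, hw⟩ := hdesc p hp.out α (α ^ p) y hy (by
      rw [hyα]
      simp)
    obtain ⟨ι⟩ := hz2 p (by omega) ⟨-w, by rw [hw]; ring_nf; rw [← hw]; ring⟩
    obtain ⟨ε, h2, h3⟩ := hz3 p (by omega) ι
    exact ⟨ι, ε, h2, h3⟩
  · intro p hp hpz hAp
    have hcop : p.Coprime N := by
      rw [Nat.Prime.coprime_iff_not_dvd hp.out]
      intro h
      have := Nat.le_of_dvd (NeZero.pos N) h
      omega
    have hfr : frob N F hcop ∉ H := fun h => hAp ((hA' p hcop).2 h)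
    refine even_norm fun P hPp hP0 hpP f hf => ?_
    by_contra hodd
    rw [Nat.not_even_iff_odd] at hodd
    have hmax : P.IsMaximal := hPp.isMaximal hP0
    -- the power is not in `H`
    have hσ : frob N F hcop ^ f ∉ H := by
      intro h
      apply hfr
      have hc : Nat.Coprime f (2 ^ a) := (Nat.Coprime.pow_right a hodd.coprime_two_right)
      have hb := Nat.gcd_eq_gcd_ab f (2 ^ a)
      rw [hc] at hb
      have h2 : frob N F hcop = (frob N F hcop ^ f) ^ (Nat.gcdA f (2 ^ a)) *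
          (frob N F hcop ^ (2 ^ a)) ^ (Nat.gcdB f (2 ^ a)) := by
        rw [← zpow_natCast, ← zpow_natCast, ← zpow_mul, ← zpow_mul, ← zpow_add, ← hb]
        simp
      rw [h2]
      exact H.mul_mem (H.zpow_mem h _) (H.zpow_mem (hH _) _)
    obtain ⟨σ, hσd⟩ : ∃ σ, σ = frob N F hcop ^ f := ⟨_, rfl⟩
    rw [← hσd] at hσ
    obtain ⟨τ, hτ⟩ : ∃ τ : L ≃ₐ[ℚ] L, τ = σ.restrictNormal L := ⟨_, rfl⟩
    have hτF : ∀ x : L, ((τ x : L) : F) = σ (x : F) := fun x => by
      rw [hτ]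
      exact AlgEquiv.restrictNormal_commutes σ L x
    have hβ0 : β τ ≠ 0 := by
      intro h
      apply hσ
      have h1 := hβ τ
      rw [h] at h1
      have h2 : τ (α : L) = α := (sub_eq_zero.1 h1.symm)
      have h3 := hfix τ h2
      rw [← hLH, IntermediateField.mem_fixingSubgroup_iff]
      intro x hx
      have h4 := hτF ⟨x, hx⟩
      rw [h3] at h4
      exact h4.symm
    have hβP : β τ ∈ P := by
      obtain ⟨y, hy, hyα⟩ := frob_cong N F hcop f hαR
      rw [← hσd] at hyα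
      obtain ⟨w, hw⟩ := hdesc p hp.out (β τ) (α ^ (p ^ f) - α) y hy (by
        rw [hβ τ]
        push_cast
        rw [hτF, hyα]
        ring)
      rw [hw]
      refine P.add_mem ?_ (P.mul_mem_right _ hpP)
      let _ : Field (𝓞 L ⧸ P) := Ideal.Quotient.field P
      have n1 : Ideal.absNorm P ≠ 0 := by
        rw [Ne, Ideal.absNorm_eq_zero_iff]
        exact hP0
      have : Finite (𝓞 L ⧸ P) := by
        apply Nat.finite_of_card_ne_zero
        rw [← Submodule.cardQuot_apply, ← Ideal.absNorm_apply]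
        exact n1
      have : Fintype (𝓞 L ⧸ P) := Fintype.ofFinite _
      rw [← Ideal.Quotient.eq, map_pow]
      have hcard : Fintype.card (𝓞 L ⧸ P) = p ^ f := by
        rw [← hf, Ideal.absNorm_apply, Submodule.cardQuot_apply, Nat.card_eq_fintype_card]
      rw [← hcard]
      exact FiniteField.pow_card _
    have h5 := dvd_norm hp.out hmax.ne_top hpP hβP
    have h6 := Nat.le_of_dvd (Int.natAbs_pos.2 (Algebra.norm_ne_zero_iff.2 hβ0))
      (Int.natCast_dvd.1 h5)
    have h7 : (Algebra.norm ℤ (β τ)).natAbs ≤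
        ∑ τ : L ≃ₐ[ℚ] L, (Algebra.norm ℤ (β τ)).natAbs :=
      Finset.single_le_sum (f := fun τ : L ≃ₐ[ℚ] L => (Algebra.norm ℤ (β τ)).natAbs)
        (fun _ _ => Nat.zero_le _) (Finset.mem_univ τ)
    omega

end cyc

end Pool.Agent.Y669
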