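import Pool.Agent.H918R3.TB1
import Pool.Agent.Y669.SelF

/-!
# The descent on the twisted curve over a cyclic field
-/

set_option autoImplicit false

namespace Pool.Agent.Y669

open WeierstrassCurve Pool.Agent.H918R3 Pool.Agent.H918R3.TB1

section half

variable {K : Type} [Field K] [DecidableEq K]

lemma exists_half' (h2 : (2 : K) ≠ 0) {e1 e2 e3 : K} (h12 : e1 ≠ e2) (h13 : e1 ≠ e3)
    (h23 : e2 ≠ e3) (P : Pt e1 e2 e3) (hP0 : IsSquare (dl e1 e2 e3 P))
    (hP1 : IsSquare (dl e2 e1 e3 P)) : ∃ Q : Pt e1 e2 e3, P = Q + Q := by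
  cases P with
  | zero => exact ⟨0, by rw [add_zero]; rfl⟩
  | some x y h =>
    have q := crv_eqn.mp h.1
    rw [dl_eq, dlW_some] at hP0 hP1
    by_cases hx1 : x = e1
    · rw [if_pos hx1] at hP0
      rw [if_neg (by rw [hx1]; exact h12)] at hP1
      refine halve h2 h12 h13 h23 ⟨0, by rw [hx1]; ring⟩ hP1 ?_ h
      have e4 : x - e3 = (e1 - e2) * (e1 - e3) / (x - e2) := by
        rw [hx1]
        have : e1 - e2 ≠ 0 := sub_ne_zero.2 h12
        field_simp
      rw [e4]
      exact hP0.div hP1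
    · rw [if_neg hx1] at hP0
      by_cases hx2 : x = e2
      · rw [if_pos hx2] at hP1
        refine halve h2 h12 h13 h23 hP0 ⟨0, by rw [hx2]; ring⟩ ?_ h
        have e4 : x - e3 = (e2 - e1) * (e2 - e3) / (x - e1) := by
          rw [hx2]
          have : e2 - e1 ≠ 0 := sub_ne_zero.2 h12.symm
          field_simp
        rw [e4]
        exact hP1.div hP0
      · rw [if_neg hx2] at hP1
        refine halve h2 h12 h13 h23 hP0 hP1 ?_ h
        have hn1 : x - e1 ≠ 0 := sub_ne_zero.2 hx1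
        have hn2 : x - e2 ≠ 0 := sub_ne_zero.2 hx2
        have e4 : x - e3 = y ^ 2 / ((x - e1) * (x - e2)) := by
          rw [eq_div_iff (mul_ne_zero hn1 hn2), q]
          ring
        rw [e4]
        exact (IsSquare.sq y).div (hP0.mul hP1)

/-- the points of order two -/
lemma two_tors (h2 : (2 : K) ≠ 0) {e1 e2 e3 : K} (h12 : e1 ≠ e2) (h13 : e1 ≠ e3)
    (h23 : e2 ≠ e3) : ∃ S : Finset (Pt e1 e2 e3), S.card ≤ 4 ∧ 0 ∈ S ∧
    (∀ P : Pt e1 e2 e3, P + P = 0 → P ∈ S) ∧
    (∀ P : Pt e1 e2 e3, P ∉ S → ∃ x y h, P = Affine.Point.some x y h ∧ y ≠ 0) := by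
  classical
  have n1 : (crv e1 e2 e3).toAffine.Nonsingular e1 0 := crv_nonsing h2 h12 h13 h23 (by ring)
  have n2 : (crv e1 e2 e3).toAffine.Nonsingular e2 0 := crv_nonsing h2 h12 h13 h23 (by ring)
  have n3 : (crv e1 e2 e3).toAffine.Nonsingular e3 0 := crv_nonsing h2 h12 h13 h23 (by ring)
  have hcase : ∀ P : Pt e1 e2 e3,
      P ∈ ({0, .some e1 0 n1, .some e2 0 n2, .some e3 0 n3} : Finset (Pt e1 e2 e3)) ∨
      ∃ x y h, P = Affine.Point.some x y h ∧ y ≠ 0 := by
    intro P
    cases P with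
    | zero =>
      left
      rw [Finset.mem_insert]
      left
      rfl
    | some x y h =>
      by_cases hy : y = 0
      · left
        subst hy
        have q := crv_eqn.mp h.1
        have q' : (x - e1) * (x - e2) * (x - e3) = 0 := by rw [← q]; ring
        rcases mul_eq_zero.1 q' with h1 | h1
        · rcases mul_eq_zero.1 h1 with h1 | h1
          · have hx := sub_eq_zero.1 h1
            subst hx
            simp
          · have hx := sub_eq_zero.1 h1
            subst hx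
            simp
        · have hx := sub_eq_zero.1 h1
          subst hx
          simp
      · right
        exact ⟨x, y, h, rfl, hy⟩
  refine ⟨{0, .some e1 0 n1, .some e2 0 n2, .some e3 0 n3}, ?_, by simp, ?_, ?_⟩
  · refine (Finset.card_insert_le _ _).trans ?_
    refine Nat.succ_le_succ ((Finset.card_insert_le _ _).trans ?_)
    refine Nat.succ_le_succ ((Finset.card_insert_le _ _).trans ?_)
    simp
  · intro P hP
    rcases hcase P with h | ⟨x, y, h, rfl, hy⟩
    · exact h
    · exfalso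
      have h3 : (Affine.Point.some x y h : Pt e1 e2 e3) = -(Affine.Point.some x y h) :=
        eq_neg_of_add_eq_zero_left hP
      rw [Affine.Point.neg_some] at h3
      simp only [Affine.Point.some.injEq, true_and] at h3
      simp only [Affine.negY, crv] at h3
      have h4 : 2 * y = 0 := by linear_combination h3
      rcases mul_eq_zero.1 h4 with h5 | h5
      · exact h2 h5
      · exact hy h5
  · intro P hP
    rcases hcase P with h | h
    · exact absurd h hP
    · exact h

end half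

section desc

variable {L : Type} [Field L] [NumberField L] [IsGalois ℚ L] [DecidableEq L]

lemma sq_cancelL {K : Type} [Field K] {r Y : K} (hr : r ≠ 0) (h : IsSquare (r ^ 2 * Y)) :
    IsSquare Y := by
  obtain ⟨w, hw⟩ := h
  refine ⟨w / r, ?_⟩
  rw [div_mul_div_comm, eq_div_iff (mul_ne_zero hr hr), ← hw]
  ring

lemma sq_trans {K : Type} [Field K] {a b c : K} (hb : b ≠ 0) (h1 : IsSquare (a * b))
    (h2 : IsSquare (b * c)) : IsSquare (a * c) := by
  refine sq_cancelL hb ?_
  have e : b ^ 2 * (a * c) = (a * b) * (b * c) := by ring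
  rw [e]
  exact h1.mul h2

theorem descL (δ : L) (hδ : δ ≠ 0) (hsq : ∀ τ : L ≃ₐ[ℚ] L, IsSquare (δ * τ δ)) (e1 e2 e3 : ℤ)
    (h12 : e1 ≠ e2) (h13 : e1 ≠ e3) (h23 : e2 ≠ e3)
    (T : Pt (δ * e1) (δ * e2) (δ * e3) →+ Pt (δ * e1) (δ * e2) (δ * e3))
    (σ : L ≃ₐ[ℚ] L) (m : ℕ) (hm : orderOf σ = m) (hσ : ∀ τ : L ≃ₐ[ℚ] L, τ ∈ Subgroup.zpowers σ)
    (hT1 : ∀ Q, T^[m] Q = -Q)
    (hT2 : ∀ x y h, ∃ x' y' h', T (Affine.Point.some x y h) = Affine.Point.some x' y' h' ∧
      x' * σ δ = δ * σ x)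
    (hfin : (SX L δ (e2 - e1) (e3 - e1)).Finite) :
    ∃ S : Finset (Pt (δ * e1) (δ * e2) (δ * e3)),
      S.card ≤ 8 * max 1 (SX L δ (e2 - e1) (e3 - e1)).ncard ∧
      ∀ g, ∃ s ∈ S, ∃ h, g = s + (h - T h) := by
  classical
  have h2 : (2 : L) ≠ 0 := two_ne_zero
  have c12 : δ * (e1 : L) ≠ δ * e2 := fun h => h12 (by exact_mod_cast mul_left_cancel₀ hδ h)
  have c13 : δ * (e1 : L) ≠ δ * e3 := fun h => h13 (by exact_mod_cast mul_left_cancel₀ hδ h)
  have c23 : δ * (e2 : L) ≠ δ * e3 := fun h => h23 (by exact_mod_cast mul_left_cancel₀ hδ h)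
  have hσδ : σ δ ≠ 0 := (map_ne_zero_iff _ σ.injective).2 hδ
  have hm0 : 0 < m := by
    rw [← hm]
    exact orderOf_pos σ
  -- the product over the Galois group
  have hprod : ∀ t : L, ∏ j ∈ Finset.range m, (σ ^ j) t = algebraMap ℚ L (Algebra.norm ℚ t) := by
    intro t
    rw [Algebra.norm_eq_prod_automorphisms]
    have h1 : Finset.image (fun i => σ ^ i) (Finset.range (orderOf σ)) = Finset.univ :=
      IsCyclic.image_range_orderOf hσ
    rw [← h1, Finset.prod_image, hm]
    intro i hi j hj hij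
    rw [Finset.coe_range, Set.mem_Iio] at hi hj
    exact pow_injOn_Iio_orderOf hi hj hij
  -- general properties of the descent maps
  have hgen : ∀ (f g k : ℤ), crv (δ * (f : L)) (δ * g) (δ * k) = crv (δ * (e1 : L)) (δ * e2) (δ * e3) →
      f ≠ g → f ≠ k → g ≠ k →
      (∀ P : Pt (δ * (e1 : L)) (δ * e2) (δ * e3), dl (δ * (f : L)) (δ * g) (δ * k) P ≠ 0) ∧
      (∀ P Q : Pt (δ * (e1 : L)) (δ * e2) (δ * e3),
        IsSquare (dl (δ * (f : L)) (δ * g) (δ * k) (P + Q) *
        (dl (δ * (f : L)) (δ * g) (δ * k) P * dl (δ * (f : L)) (δ * g) (δ * k) Q))) ∧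
      (∀ Q : Pt (δ * (e1 : L)) (δ * e2) (δ * e3),
        IsSquare (Algebra.norm ℚ (dl (δ * (f : L)) (δ * g) (δ * k) Q)) →
        IsSquare (dl (δ * (f : L)) (δ * g) (δ * k) (∑ j ∈ Finset.range m, T^[j] Q))) := by
    intro f g k hp hfg hfk hgk
    have d1 : δ * (f : L) ≠ δ * g := fun h => hfg (by exact_mod_cast mul_left_cancel₀ hδ h)
    have d2 : δ * (f : L) ≠ δ * k := fun h => hfk (by exact_mod_cast mul_left_cancel₀ hδ h)
    have d3 : δ * (g : L) ≠ δ * k := fun h => hgk (by exact_mod_cast mul_left_cancel₀ hδ h)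
    have hadd := fun P Q : Pt (δ * (e1 : L)) (δ * e2) (δ * e3) => dl_add h2 hp d1 d2 d3 P Q
    obtain ⟨t, ht⟩ : ∃ t : Pt (δ * (e1 : L)) (δ * e2) (δ * e3) → L,
      t = dl (δ * (f : L)) (δ * g) (δ * k) := ⟨_, rfl⟩
    rw [← ht] at hadd ⊢
    have hne : ∀ P, t P ≠ 0 := fun P => (hadd P 0).1
    have hsqadd : ∀ P Q, IsSquare (t (P + Q) * (t P * t Q)) := fun P Q => (hadd P Q).2
    have h0 : t 0 = 1 := by rw [ht]; rfl
    have hσT : ∀ Q, IsSquare (t (T Q) * σ (t Q)) := by
      intro Q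
      cases Q with
      | zero =>
        have e0 : (Affine.Point.zero : Pt (δ * (e1 : L)) (δ * e2) (δ * e3)) = 0 := rfl
        rw [e0, map_zero, h0, map_one, mul_one]
        exact ⟨1, by ring⟩
      | some x y h =>
        obtain ⟨x', y', h', hT, hx'⟩ := hT2 x y h
        rw [hT, ht, dl_eq, dl_eq, dlW_some, dlW_some]
        by_cases hx : x = δ * f
        · have hx2 : x' = δ * f := by
            have h3 : x' * σ δ = (δ * f) * σ δ := by
              rw [hx', hx, map_mul, map_intCast]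
              ring
            exact mul_right_cancel₀ hσδ h3
          rw [if_pos hx, if_pos hx2]
          refine ⟨δ * σ δ * ((f - g) * (f - k)), ?_⟩
          simp only [map_mul, map_sub, map_intCast]
          ring
        · have hx2 : x' ≠ δ * f := by
            intro h3
            apply hx
            rw [h3] at hx'
            have h4 : σ x = σ (δ * f) := by
              rw [map_mul, map_intCast]
              apply mul_left_cancel₀ hδ
              rw [← hx']
              ring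
            exact σ.injective h4
          rw [if_neg hx, if_neg hx2]
          have h5 : (x' - δ * f) * σ δ = δ * σ (x - δ * f) := by
            rw [map_sub, map_mul, map_intCast, mul_sub, sub_mul, hx']
            ring
          obtain ⟨r, hr⟩ := hsq σ
          refine ⟨r * σ (x - δ * f) / σ δ, ?_⟩
          rw [div_mul_div_comm, eq_div_iff (mul_ne_zero hσδ hσδ)]
          calc (x' - δ * f) * σ (x - δ * f) * (σ δ * σ δ)
              = ((x' - δ * f) * σ δ) * (σ δ * σ (x - δ * f)) := by ring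
            _ = (δ * σ δ) * (σ (x - δ * f) * σ (x - δ * f)) := by rw [h5]; ring
            _ = (r * r) * (σ (x - δ * f) * σ (x - δ * f)) := by rw [hr]
            _ = _ := by ring
    have hσne : ∀ (j : ℕ) (P : Pt (δ * (e1 : L)) (δ * e2) (δ * e3)), (σ ^ j) (t P) ≠ 0 :=
      fun j P => (map_ne_zero_iff _ (σ ^ j).injective).2 (hne P)
    have hσTj : ∀ (j : ℕ) (Q : Pt (δ * (e1 : L)) (δ * e2) (δ * e3)),
        IsSquare (t (T^[j] Q) * (σ ^ j) (t Q)) := by
      intro j
      induction j with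
      | zero =>
        intro Q
        exact ⟨t Q, by simp⟩
      | succ j ih =>
        intro Q
        rw [Function.iterate_succ_apply', pow_succ']
        have h3 := hσT (T^[j] Q)
        have h4 : IsSquare (σ (t (T^[j] Q)) * σ ((σ ^ j) (t Q))) := by
          rw [← map_mul]
          exact (ih Q).map σ
        exact sq_trans ((map_ne_zero_iff _ σ.injective).2 (hne _)) h3 h4
    have hν : ∀ (n : ℕ) (Q : Pt (δ * (e1 : L)) (δ * e2) (δ * e3)),
        IsSquare (t (∑ j ∈ Finset.range n, T^[j] Q) * ∏ j ∈ Finset.range n, (σ ^ j) (t Q)) := by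
      intro n
      induction n with
      | zero =>
        intro Q
        simp [h0]
      | succ n ih =>
        intro Q
        rw [Finset.sum_range_succ, Finset.prod_range_succ]
        have h3 := hsqadd (∑ j ∈ Finset.range n, T^[j] Q) (T^[n] Q)
        have h4 := (ih Q).mul (hσTj n Q)
        refine sq_trans (mul_ne_zero (hne _) (hne _)) h3 ?_
        have e : t (∑ j ∈ Finset.range n, T^[j] Q) * t (T^[n] Q) *
            ((∏ j ∈ Finset.range n, (σ ^ j) (t Q)) * (σ ^ n) (t Q)) =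
            t (∑ j ∈ Finset.range n, T^[j] Q) * (∏ j ∈ Finset.range n, (σ ^ j) (t Q)) *
            (t (T^[n] Q) * (σ ^ n) (t Q)) := by ring
        rw [e]
        exact h4
    refine ⟨hne, hsqadd, fun Q hQ => ?_⟩
    have h3 := hν m Q
    rw [hprod] at h3
    have h4 : IsSquare (algebraMap ℚ L (Algebra.norm ℚ (t Q))) := hQ.map (algebraMap ℚ L)
    have h5 := sq_trans (c := 1) (b := algebraMap ℚ L (Algebra.norm ℚ (t Q))) (by
      rw [map_ne_zero_iff _ (algebraMap ℚ L).injective]
      exact Algebra.norm_ne_zero_iff.2 (hne Q)) h3 (by rw [mul_one]; exact h4)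
    rwa [mul_one] at h5
  obtain ⟨a1, a2, a3⟩ := hgen e1 e2 e3 rfl h12 h13 h23
  obtain ⟨b1, b2, b3⟩ := hgen e2 e1 e3 (by
    unfold crv
    congr 1
    · ring
    · ring
    · ring) h12.symm h23 h13
  obtain ⟨TT, hTT, hTT0, hTT1, hTT2⟩ := two_tors h2 c12 c13 c23
  -- the kernel
  have hker : ∀ g : Pt (δ * (e1 : L)) (δ * e2) (δ * e3),
      IsSquare (Algebra.norm ℚ (dl (δ * (e1 : L)) (δ * e2) (δ * e3) g)) →
      IsSquare (Algebra.norm ℚ (dl (δ * (e2 : L)) (δ * e1) (δ * e3) g)) →
      ∃ s ∈ TT, ∃ h, g = s + (h - T h) := by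
    intro g g1 g2
    obtain ⟨Q, hQ⟩ := exists_half' h2 c12 c13 c23 _ (a3 g g1) (b3 g g2)
    refine ⟨g - (Q - T Q), ?_, Q, by abel⟩
    apply hTT1
    have h3 : (∑ j ∈ Finset.range m, T^[j] g) - T (∑ j ∈ Finset.range m, T^[j] g) = g + g := by
      have h4 : ∀ n : ℕ, (∑ j ∈ Finset.range n, T^[j] g) - T (∑ j ∈ Finset.range n, T^[j] g) =
          g - T^[n] g := by
        intro n
        induction n with
        | zero => simp
        | succ n ih =>
          rw [Finset.sum_range_succ, map_add, Function.iterate_succ_apply']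
          have h5 : (∑ j ∈ Finset.range n, T^[j] g) + T^[n] g -
              (T (∑ j ∈ Finset.range n, T^[j] g) + T (T^[n] g)) =
              ((∑ j ∈ Finset.range n, T^[j] g) - T (∑ j ∈ Finset.range n, T^[j] g)) +
              (T^[n] g - T (T^[n] g)) := by abel
          rw [h5, ih]
          abel
      rw [h4 m, hT1, sub_neg_eq_add]
    rw [hQ, map_add] at h3
    have h6 : g - (Q - T Q) + (g - (Q - T Q)) = (g + g) - (Q + Q - (T Q + T Q)) := by abel
    rw [h6, ← h3, sub_self]
  -- representatives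
  have hrep : ∀ d : ℤ × ℤ, ∃ g : Pt (δ * (e1 : L)) (δ * e2) (δ * e3),
      d ∈ SX L δ (e2 - e1) (e3 - e1) →
      IsSquare (Algebra.norm ℚ (dl (δ * (e1 : L)) (δ * e2) (δ * e3) g) * d.1) ∧
      IsSquare (Algebra.norm ℚ (dl (δ * (e2 : L)) (δ * e1) (δ * e3) g) * d.2) := by
    intro d
    by_cases hd : d ∈ SX L δ (e2 - e1) (e3 - e1)
    · obtain ⟨hd1, hd2, x, y, hy, hxy, s1, s2⟩ := hd
      have hns : (crv (δ * (e1 : L)) (δ * e2) (δ * e3)).toAffine.Nonsingular (δ * (x + e1))
          (δ ^ 2 * y) := by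
        apply crv_nonsing h2 c12 c13 c23
        have e4 : (δ ^ 2 * y) ^ 2 = δ ^ 3 * (δ * y ^ 2) := by ring
        rw [e4, hxy]
        push_cast
        ring
      have hprod0 : x * (x - ((e2 - e1 : ℤ) : L)) * (x - ((e3 - e1 : ℤ) : L)) ≠ 0 := by
        rw [← hxy]
        exact mul_ne_zero hδ (pow_ne_zero 2 hy)
      have hx : x ≠ 0 := left_ne_zero_of_mul (left_ne_zero_of_mul hprod0)
      have hxA : x - ((e2 - e1 : ℤ) : L) ≠ 0 :=
        right_ne_zero_of_mul (left_ne_zero_of_mul hprod0)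
      refine ⟨Affine.Point.some _ _ hns, fun _ => ?_⟩
      rw [dl_eq, dl_eq, dlW_some, dlW_some, if_neg, if_neg]
      · have e5 : δ * (x + e1) - δ * e1 = δ * x := by ring
        have e6 : δ * (x + e1) - δ * e2 = δ * (x - ((e2 - e1 : ℤ) : L)) := by push_cast; ring
        rw [e5, e6]
        exact ⟨s1, s2⟩
      · intro h
        apply hxA
        have h3 := mul_left_cancel₀ hδ h
        push_cast
        linear_combination h3
      · intro h
        apply hx
        have h3 := mul_left_cancel₀ hδ h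
        linear_combination h3
    · exact ⟨0, fun h => absurd h hd⟩
  choose rep hrep using hrep
  obtain ⟨R, hR⟩ : ∃ R : Finset (Pt (δ * (e1 : L)) (δ * e2) (δ * e3)),
    R = insert 0 (hfin.toFinset.image rep) := ⟨_, rfl⟩
  refine ⟨(R ×ˢ TT).image (fun c => c.1 + c.2), ?_, ?_⟩
  · refine Finset.card_image_le.trans ?_
    rw [Finset.card_product]
    have h3 : R.card ≤ (SX L δ (e2 - e1) (e3 - e1)).ncard + 1 := by
      rw [hR]
      refine (Finset.card_insert_le _ _).trans (Nat.succ_le_succ ?_)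
      refine Finset.card_image_le.trans ?_
      rw [Set.ncard_eq_toFinset_card _ hfin]
    have h4 : (SX L δ (e2 - e1) (e3 - e1)).ncard + 1 ≤
        2 * max 1 (SX L δ (e2 - e1) (e3 - e1)).ncard := by omega
    calc R.card * TT.card ≤ (2 * max 1 (SX L δ (e2 - e1) (e3 - e1)).ncard) * 4 :=
          Nat.mul_le_mul (h3.trans h4) hTT
      _ = _ := by ring
  · intro g
    by_cases hg : g ∈ TT
    · refine ⟨g, Finset.mem_image.2 ⟨(0, g), Finset.mem_product.2 ⟨?_, hg⟩, zero_add _⟩, 0, ?_⟩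
      · rw [hR]
        exact Finset.mem_insert_self _ _
      · rw [map_zero, sub_zero, add_zero]
    · obtain ⟨X, Y, hXY, rfl, hY⟩ := hTT2 g hg
      have q := crv_eqn.mp hXY.1
      have hprod0 : (X - δ * e1) * (X - δ * e2) * (X - δ * e3) ≠ 0 := by
        rw [← q]
        exact pow_ne_zero 2 hY
      have hX1 : X - δ * e1 ≠ 0 := left_ne_zero_of_mul (left_ne_zero_of_mul hprod0)
      have hX2 : X - δ * e2 ≠ 0 := right_ne_zero_of_mul (left_ne_zero_of_mul hprod0)
      have t1 : dl (δ * (e1 : L)) (δ * e2) (δ * e3) (Affine.Point.some X Y hXY :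
          Pt (δ * (e1 : L)) (δ * e2) (δ * e3)) = X - δ * e1 := by
        rw [dl_eq, dlW_some, if_neg (sub_ne_zero.1 hX1)]
      have t2 : dl (δ * (e2 : L)) (δ * e1) (δ * e3) (Affine.Point.some X Y hXY :
          Pt (δ * (e1 : L)) (δ * e2) (δ * e3)) = X - δ * e2 := by
        rw [dl_eq, dlW_some, if_neg (sub_ne_zero.1 hX2)]
      obtain ⟨d1, hd1, s1⟩ := Pool.Agent.W214.RK2.exists_rep _ (Algebra.norm_ne_zero_iff.2 hX1)
      obtain ⟨d2, hd2, s2⟩ := Pool.Agent.W214.RK2.exists_rep _ (Algebra.norm_ne_zero_iff.2 hX2)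
      have hmem : (d1, d2) ∈ SX L δ (e2 - e1) (e3 - e1) := by
        refine ⟨hd1, hd2, X / δ - e1, Y / δ ^ 2, div_ne_zero hY (pow_ne_zero 2 hδ), ?_, ?_, ?_⟩
        · have e4 : δ * (Y / δ ^ 2) ^ 2 = Y ^ 2 / δ ^ 3 := by field_simp
          rw [e4, q]
          push_cast
          field_simp
          ring
        · have e5 : δ * (X / δ - e1) = X - δ * e1 := by field_simp
          rw [e5]
          exact s1
        · have e5 : δ * (X / δ - e1 - ((e2 - e1 : ℤ) : L)) = X - δ * e2 := by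
            push_cast
            field_simp
            ring
          rw [e5]
          exact s2
      obtain ⟨r1, r2⟩ := hrep (d1, d2) hmem
      simp only at r1 r2
      have hd10 : (d1 : ℚ) ≠ 0 := by exact_mod_cast hd1.ne_zero
      have hd20 : (d2 : ℚ) ≠ 0 := by exact_mod_cast hd2.ne_zero
      obtain ⟨g, hgd⟩ : ∃ g : Pt (δ * (e1 : L)) (δ * e2) (δ * e3), g = Affine.Point.some X Y hXY :=
        ⟨_, rfl⟩
      rw [← hgd] at t1 t2 ⊢
      rw [← t1] at s1
      rw [← t2] at s2
      obtain ⟨ρ, hρ⟩ : ∃ ρ, ρ = rep (d1, d2) := ⟨_, rfl⟩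
      rw [← hρ] at r1 r2
      -- the difference
      have key : ∀ (t : Pt (δ * (e1 : L)) (δ * e2) (δ * e3) → L) (d : ℚ), d ≠ 0 →
          (∀ P, t P ≠ 0) → (∀ P Q, IsSquare (t (P + Q) * (t P * t Q))) →
          IsSquare (Algebra.norm ℚ (t g) * d) → IsSquare (Algebra.norm ℚ (t ρ) * d) →
          IsSquare (Algebra.norm ℚ (t (g - ρ))) := by
        intro t d hd hne hadd k1 k2
        have h3 := (hadd (g - ρ) ρ).map (Algebra.norm ℚ)
        rw [sub_add_cancel, map_mul, map_mul] at h3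
        have n1 : Algebra.norm ℚ (t g) ≠ 0 := Algebra.norm_ne_zero_iff.2 (hne _)
        have n2 : Algebra.norm ℚ (t ρ) ≠ 0 := Algebra.norm_ne_zero_iff.2 (hne _)
        have n3 : Algebra.norm ℚ (t (g - ρ)) ≠ 0 := Algebra.norm_ne_zero_iff.2 (hne _)
        have h4 := (h3.mul k1).mul k2
        refine sq_cancelL (mul_ne_zero (mul_ne_zero n1 n2) hd) ?_
        have e : (Algebra.norm ℚ (t g) * Algebra.norm ℚ (t ρ) * d) ^ 2 *
            Algebra.norm ℚ (t (g - ρ)) =
            Algebra.norm ℚ (t g) * (Algebra.norm ℚ (t (g - ρ)) * Algebra.norm ℚ (t ρ)) *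
            (Algebra.norm ℚ (t g) * d) * (Algebra.norm ℚ (t ρ) * d) := by ring
        rw [e]
        exact h4
      obtain ⟨s, hs, h, hh⟩ := hker (g - ρ)
        (key (dl (δ * (e1 : L)) (δ * e2) (δ * e3)) d1 hd10 a1 a2 s1 r1)
        (key (dl (δ * (e2 : L)) (δ * e1) (δ * e3)) d2 hd20 b1 b2 s2 r2)
      refine ⟨ρ + s, Finset.mem_image.2 ⟨(ρ, s), Finset.mem_product.2 ⟨?_, hs⟩, rfl⟩, h, ?_⟩
      · rw [hR]
        apply Finset.mem_insert_of_mem
        rw [Finset.mem_image]
        exact ⟨(d1, d2), hfin.mem_toFinset.2 hmem, hρ.symm⟩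
      · rw [add_assoc, ← hh]
        abel

end desc

end Pool.Agent.Y669
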