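import Mathlib

/-!
# Finitely generated groups with an endomorphism of 2-power order

If `T ^ (2 ^ a) = -1` then the dimension of the span of a `T`-eigenmap is bounded by the order of
`G / (1 - T) G`.
-/

set_option autoImplicit false

namespace Pool.Agent.Y669

open Polynomial

lemma one_sub_pow (a : ℕ) : ∃ A : ℤ[X], (1 - X) ^ (2 ^ a) = 1 + X ^ (2 ^ a) + 2 * A := by
  induction a with
  | zero => exact ⟨-X, by ring⟩
  | succ a ih =>
    obtain ⟨A, hA⟩ := ih
    refine ⟨2 * A ^ 2 + X ^ (2 ^ a) + 2 * A + 2 * A * X ^ (2 ^ a), ?_⟩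
    rw [pow_succ, pow_mul, hA, pow_mul]
    ring

theorem nak (G : Type) [AddCommGroup G] (hfg : AddGroup.FG G) (T : G →+ G) (a : ℕ)
    (hT : ∀ g, T^[2 ^ a] g = -g) (S : Finset G)
    (hS : ∀ g : G, ∃ s ∈ S, ∃ h : G, g = s + (h - T h))
    {V : Type} [AddCommGroup V] [Module ℂ V] (Λ : G →+ V) (ζ : ℂ)
    (hΛ : ∀ g, Λ (T g) = ζ • Λ g) :
    2 ^ (Module.finrank ℂ (Submodule.span ℂ (Set.range Λ))) ≤ S.card ∧
      Module.Finite ℂ (Submodule.span ℂ (Set.range Λ)) := by
  classical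
  obtain ⟨Tl, hTl⟩ : ∃ Tl : Module.End ℤ G, Tl = T.toIntLinearMap := ⟨_, rfl⟩
  have hTl' : ∀ g, Tl g = T g := fun g => by rw [hTl]; rfl
  have hTlp : ∀ (n : ℕ) (g : G), (Tl ^ n) g = T^[n] g := by
    intro n g
    rw [Module.End.pow_apply]
    congr 1
    funext x
    exact hTl' x
  have hTm : Tl ^ (2 ^ a) = -1 := by
    ext g
    rw [hTlp, hT]
    rfl
  obtain ⟨D, hD⟩ : ∃ D : Module.End ℤ G, D = 1 - Tl := ⟨_, rfl⟩
  have hD' : ∀ g, D g = g - T g := fun g => by rw [hD, LinearMap.sub_apply, hTl']; rfl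
  have hdouble : ∀ g : G, ∃ h, 2 • g = D h := by
    intro g
    have h1 : D * (∑ j ∈ Finset.range (2 ^ a), Tl ^ j) = 2 := by
      have h2 := mul_neg_geom_sum Tl (2 ^ a)
      rw [hD, h2, hTm]
      norm_num
    refine ⟨(∑ j ∈ Finset.range (2 ^ a), Tl ^ j) g, ?_⟩
    have h3 := congrArg (fun f : Module.End ℤ G => f g) h1
    simp only [Module.End.mul_apply] at h3
    rw [h3]
    rw [two_nsmul]
    have : (2 : Module.End ℤ G) = 1 + 1 := by norm_num
    rw [this]
    rfl
  -- the quotient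
  obtain ⟨R, hR⟩ : ∃ R : AddSubgroup G, R = (LinearMap.range D).toAddSubgroup := ⟨_, rfl⟩
  have hRmem : ∀ g, g ∈ R ↔ ∃ h, D h = g := by
    intro g
    rw [hR]
    exact LinearMap.mem_range
  have hQ2 : ∀ q : G ⧸ R, 2 • q = 0 := by
    intro q
    obtain ⟨g, rfl⟩ := QuotientAddGroup.mk_surjective q
    obtain ⟨h, hh⟩ := hdouble g
    rw [← QuotientAddGroup.mk_nsmul, QuotientAddGroup.eq_zero_iff, hh, hRmem]
    exact ⟨h, rfl⟩
  have hsurj : Function.Surjective (fun s : S => ((s : G) : G ⧸ R)) := by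
    intro q
    obtain ⟨g, rfl⟩ := QuotientAddGroup.mk_surjective q
    obtain ⟨s, hs, h, hg⟩ := hS g
    refine ⟨⟨s, hs⟩, ?_⟩
    simp only
    rw [QuotientAddGroup.eq, hRmem]
    exact ⟨h, by rw [hD', hg]; abel⟩
  have hfin : Finite (G ⧸ R) := Finite.of_surjective _ hsurj
  have hcard : Nat.card (G ⧸ R) ≤ S.card := by
    have := Nat.card_le_card_of_surjective _ hsurj
    simpa using this
  let _ : Module (ZMod 2) (G ⧸ R) := AddCommGroup.zmodModule hQ2
  have hMF : Module.Finite (ZMod 2) (G ⧸ R) := Module.Finite.of_finite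
  obtain ⟨r, hr⟩ : ∃ r, r = Module.finrank (ZMod 2) (G ⧸ R) := ⟨_, rfl⟩
  have hcard2 : Nat.card (G ⧸ R) = 2 ^ r := by
    have := Fintype.ofFinite (G ⧸ R)
    rw [Nat.card_eq_fintype_card, hr]
    have h1 := Module.card_eq_pow_finrank (K := ZMod 2) (V := G ⧸ R)
    rw [ZMod.card] at h1
    exact h1
  let b := Module.finBasis (ZMod 2) (G ⧸ R)
  have hx : ∀ i, ∃ x : G, (x : G ⧸ R) = b i := fun i => QuotientAddGroup.mk_surjective (b i)
  choose x hx using hx
  obtain ⟨N', hN'⟩ : ∃ N' : AddSubgroup G, N' = AddSubgroup.closure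
    {y | ∃ (i : Fin (Module.finrank (ZMod 2) (G ⧸ R))) (j : ℕ), y = T^[j] (x i)} := ⟨_, rfl⟩
  have hNT : ∀ g ∈ N', T g ∈ N' := by
    intro g hg
    rw [hN'] at hg
    induction hg using AddSubgroup.closure_induction with
    | mem y hy =>
      obtain ⟨i, j, rfl⟩ := hy
      rw [hN']
      apply AddSubgroup.subset_closure
      exact ⟨i, j + 1, by rw [Function.iterate_succ_apply']⟩
    | zero => rw [map_zero]; exact N'.zero_mem
    | add u v _ _ hu hv => rw [map_add]; exact N'.add_mem hu hv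
    | neg u _ hu => rw [map_neg]; exact N'.neg_mem hu
  have hND : ∀ g ∈ N', D g ∈ N' := fun g hg => by
    rw [hD']
    exact N'.sub_mem hg (hNT g hg)
  have hNDk : ∀ (k : ℕ), ∀ g ∈ N', (D ^ k) g ∈ N' := by
    intro k
    induction k with
    | zero => intro g hg; exact hg
    | succ k ih =>
      intro g hg
      rw [pow_succ']
      exact hND _ (ih g hg)
  have hxN : ∀ i, x i ∈ N' := fun i => by
    rw [hN']
    exact AddSubgroup.subset_closure ⟨i, 0, rfl⟩
  have hgen1 : ∀ g : G, ∃ n ∈ N', ∃ h, g = n + D h := by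
    intro g
    have h1 := b.sum_repr (g : G ⧸ R)
    obtain ⟨n, hn⟩ : ∃ n : G, n = ∑ i, ((b.repr (g : G ⧸ R) i).val) • x i := ⟨_, rfl⟩
    have hnN : n ∈ N' := by
      rw [hn]
      exact N'.sum_mem fun i _ => N'.nsmul_mem (hxN i) _
    have h2 : (n : G ⧸ R) = (g : G ⧸ R) := by
      rw [← h1, hn]
      have h3 : ((∑ i, ((b.repr (g : G ⧸ R) i).val) • x i : G) : G ⧸ R) =
          ∑ i, ((b.repr (g : G ⧸ R) i).val) • (x i : G ⧸ R) := by
        have := map_sum (QuotientAddGroup.mk' R)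
          (fun i => ((b.repr (g : G ⧸ R) i).val) • x i) Finset.univ
        simpa using this
      rw [h3]
      refine Finset.sum_congr rfl fun i _ => ?_
      rw [hx]
      have h4 : ((b.repr (g : G ⧸ R) i).val : ZMod 2) • b i =
          (b.repr (g : G ⧸ R) i).val • b i := Nat.cast_smul_eq_nsmul _ _ _
      rw [← h4, ZMod.natCast_zmod_val]
    rw [QuotientAddGroup.eq, hRmem] at h2
    obtain ⟨h, hh⟩ := h2
    exact ⟨n, hnN, h, by rw [hh]; abel⟩
  have hgenk : ∀ (k : ℕ) (g : G), ∃ n ∈ N', ∃ h, g = n + (D ^ k) h := by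
    intro k
    induction k with
    | zero => intro g; exact ⟨0, N'.zero_mem, g, by rw [zero_add]; rfl⟩
    | succ k ih =>
      intro g
      obtain ⟨n, hn, h, hh⟩ := ih g
      obtain ⟨n', hn', h', hh'⟩ := hgen1 h
      refine ⟨n + (D ^ k) n', N'.add_mem hn (hNDk k n' hn'), h', ?_⟩
      rw [hh, hh', map_add, pow_succ]
      rw [add_assoc]
      rfl
  obtain ⟨A, hA⟩ := one_sub_pow a
  have hDA : D ^ (2 ^ a) = 2 * (aeval Tl A) := by
    have h1 := congrArg (aeval Tl) hA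
    simp only [map_pow, map_sub, map_one, aeval_X, map_add, map_mul, map_ofNat] at h1
    rw [hD, h1, hTm]
    simp
  have hgen2 : ∀ g : G, ∃ n ∈ N', ∃ h : G, g = n + (2 : ℤ) • h := by
    intro g
    obtain ⟨n, hn, h, hh⟩ := hgenk (2 ^ a) g
    refine ⟨n, hn, (aeval Tl A) h, ?_⟩
    rw [hh, hDA, Module.End.mul_apply]
    congr 1
    have : (2 : Module.End ℤ G) = 1 + 1 := by norm_num
    rw [this, two_smul]
    rfl
  -- Nakayama
  obtain ⟨Ns, hNs⟩ : ∃ Ns : Submodule ℤ G, Ns = AddSubgroup.toIntSubmodule N' := ⟨_, rfl⟩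
  have hNsmem : ∀ g, g ∈ Ns ↔ g ∈ N' := fun g => by rw [hNs]; rfl
  have hMG : Module.Finite ℤ G := Module.Finite.iff_addGroup_fg.2 hfg
  obtain ⟨n0, hn0, hn0'⟩ := Submodule.exists_sub_one_mem_and_smul_eq_zero_of_fg_of_le_smul
    (Ideal.span {(2 : ℤ)}) (⊤ : Submodule ℤ (G ⧸ Ns)) Module.Finite.fg_top (by
      intro q _
      obtain ⟨g, rfl⟩ := Submodule.Quotient.mk_surjective Ns q
      obtain ⟨n, hn, h, hh⟩ := hgen2 g
      have h1 : (Submodule.Quotient.mk g : G ⧸ Ns) = (2 : ℤ) • Submodule.Quotient.mk h := by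
        rw [hh, Submodule.Quotient.mk_add, (Submodule.Quotient.mk_eq_zero Ns).2 ((hNsmem n).2 hn),
          zero_add, Submodule.Quotient.mk_smul]
      rw [h1]
      exact Submodule.smul_mem_smul (Ideal.mem_span_singleton_self 2) Submodule.mem_top)
  have hn00 : n0 ≠ 0 := by
    rintro rfl
    rw [Ideal.mem_span_singleton] at hn0
    norm_num at hn0
  have hn0N : ∀ g : G, n0 • g ∈ N' := by
    intro g
    have h1 := hn0' (Submodule.Quotient.mk g) Submodule.mem_top
    rw [← Submodule.Quotient.mk_smul, Submodule.Quotient.mk_eq_zero, hNsmem] at h1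
    exact h1
  -- the span
  obtain ⟨W, hW⟩ : ∃ W : Submodule ℂ V, W = Submodule.span ℂ (Set.range fun i => Λ (x i)) :=
    ⟨_, rfl⟩
  have hΛj : ∀ (j : ℕ) (g : G), Λ (T^[j] g) = ζ ^ j • Λ g := by
    intro j
    induction j with
    | zero => intro g; simp
    | succ j ih =>
      intro g
      rw [Function.iterate_succ_apply', hΛ, ih, pow_succ', mul_smul]
  have hWN : ∀ g ∈ N', Λ g ∈ W := by
    intro g hg
    rw [hN'] at hg
    induction hg using AddSubgroup.closure_induction with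
    | mem y hy =>
      obtain ⟨i, j, rfl⟩ := hy
      rw [hΛj, hW]
      exact Submodule.smul_mem _ _ (Submodule.subset_span ⟨i, rfl⟩)
    | zero => rw [map_zero]; exact W.zero_mem
    | add u v _ _ hu hv => rw [map_add]; exact W.add_mem hu hv
    | neg u _ hu => rw [map_neg]; exact W.neg_mem hu
  have hle : Submodule.span ℂ (Set.range Λ) ≤ W := by
    rw [Submodule.span_le]
    rintro _ ⟨g, rfl⟩
    have h1 := hWN _ (hn0N g)
    rw [map_zsmul] at h1
    have h2 : Λ g = ((n0 : ℂ)⁻¹) • (n0 • Λ g) := by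
      rw [← Int.cast_smul_eq_zsmul ℂ n0 (Λ g), smul_smul, inv_mul_cancel₀, one_smul]
      exact_mod_cast hn00
    rw [h2]
    exact W.smul_mem _ h1
  have hWfin : Module.Finite ℂ W := by
    rw [hW]
    exact Module.Finite.span_of_finite ℂ (Set.finite_range _)
  have h3 : Module.finrank ℂ (Submodule.span ℂ (Set.range Λ)) ≤ r := by
    refine (Submodule.finrank_mono hle).trans ?_
    rw [hW, hr]
    have := finrank_range_le_card (R := ℂ) (fun i => Λ (x i))
    rw [Fintype.card_fin] at this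
    exact this
  refine ⟨?_, Submodule.finiteDimensional_of_le hle⟩
  calc 2 ^ (Module.finrank ℂ (Submodule.span ℂ (Set.range Λ))) ≤ 2 ^ r :=
        Nat.pow_le_pow_right (by norm_num) h3
    _ = Nat.card (G ⧸ R) := hcard2.symm
    _ ≤ S.card := hcard

end Pool.Agent.Y669
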