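import Pool.Agent.W605.AT.DSC
import Pool.Agent.Y669.DescL
import Pool.Agent.Y669.Nak

/-!
# The part of `E(F) ⊗ ℂ` belonging to a character of 2-power order
-/

set_option autoImplicit false

namespace Pool.Agent.Y669

open WeierstrassCurve Pool.Agent.H918R3 Pool.Agent.H918R3.TB1 TensorProduct
open Pool.Agent.W605.AT (Sc sc sc_zero sc_some sc_add sc_inj some_congr)

section chi

variable {F : Type} [Field F] [NumberField F]

/-- the sign of `χ` -/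
noncomputable def sgz (χ : (F ≃ₐ[ℚ] F) →* ℂˣ) (τ : F ≃ₐ[ℚ] F) : ℤ :=
  open Classical in if χ τ = 1 then 1 else -1

variable (χ : (F ≃ₐ[ℚ] F) →* ℂˣ)

lemma sgz_coe {τ : F ≃ₐ[ℚ] F} (h : χ τ ^ 2 = 1) : ((sgz χ τ : ℤ) : ℂ) = (χ τ : ℂ) := by
  unfold sgz
  split_ifs with h1
  · rw [h1]; simp
  · have h2 : ((χ τ : ℂˣ) : ℂ) * ((χ τ : ℂˣ) : ℂ) = 1 := by
      rw [← sq, ← Units.val_pow_eq_pow_val, h, Units.val_one]
    rcases mul_self_eq_one_iff.1 h2 with h3 | h3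
    · exact absurd (Units.ext h3) h1
    · rw [h3]; simp

lemma sgz_sq (τ : F ≃ₐ[ℚ] F) : sgz χ τ * sgz χ τ = 1 := by
  unfold sgz
  split_ifs <;> norm_num

lemma sgz_or (τ : F ≃ₐ[ℚ] F) : sgz χ τ = 1 ∨ sgz χ τ = -1 := by
  unfold sgz
  split_ifs
  · exact Or.inl rfl
  · exact Or.inr rfl

lemma sgz_mul {τ τ' : F ≃ₐ[ℚ] F} (h : χ τ ^ 2 = 1) (h' : χ τ' ^ 2 = 1) :
    sgz χ (τ * τ') = sgz χ τ * sgz χ τ' := by
  have h2 : χ (τ * τ') ^ 2 = 1 := by rw [map_mul, mul_pow, h, h', mul_one]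
  have h3 := sgz_coe χ h2
  rw [map_mul, Units.val_mul, ← sgz_coe χ h, ← sgz_coe χ h'] at h3
  exact_mod_cast h3

end chi

/-- the part of `ℂ ⊗ W(F)` belonging to `χ` -/
noncomputable def PartC (F : Type) [Field F] [NumberField F] [DecidableEq F]
    (χ : (F ≃ₐ[ℚ] F) →* ℂˣ) (W : WeierstrassCurve ℚ) :
    Submodule ℂ (ℂ ⊗[ℤ] (W.baseChange F).toAffine.Point) where
  carrier := {v | ∀ σ : F ≃ₐ[ℚ] F, LinearMap.baseChange ℂ
    (Affine.Point.map (W' := W.toAffine) (σ : F →ₐ[ℚ] F)).toIntLinearMap v = ((χ σ : ℂˣ) : ℂ) • v}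
  zero_mem' := fun σ => by rw [map_zero, smul_zero]
  add_mem' := fun {v w} hv hw σ => by rw [map_add, hv σ, hw σ, smul_add]
  smul_mem' := fun c v hv σ => by rw [map_smul, hv σ, smul_comm]

section eigen

variable {F : Type} [Field F] [NumberField F] [DecidableEq F]

/-- the action of the Galois group on the points -/
noncomputable def gact (W : WeierstrassCurve ℚ) (σ : F ≃ₐ[ℚ] F) :
    (W.baseChange F).toAffine.Point →+ (W.baseChange F).toAffine.Point :=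
  Affine.Point.map (W' := W.toAffine) (σ : F →ₐ[ℚ] F)

lemma gact_mul (W : WeierstrassCurve ℚ) (σ τ : F ≃ₐ[ℚ] F) (P : (W.baseChange F).toAffine.Point) :
    gact W (σ * τ) P = gact W σ (gact W τ P) := by
  unfold gact
  rw [Affine.Point.map_map]
  rfl

lemma gact_zero (W : WeierstrassCurve ℚ) (σ : F ≃ₐ[ℚ] F) :
    gact W σ (0 : (W.baseChange F).toAffine.Point) = 0 := map_zero _

/-- the projection to the eigenspace -/
noncomputable def proj (W : WeierstrassCurve ℚ) (χ : (F ≃ₐ[ℚ] F) →* ℂˣ) :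
    (W.baseChange F).toAffine.Point →+ (ℂ ⊗[ℤ] (W.baseChange F).toAffine.Point) where
  toFun := fun P => ∑ τ : F ≃ₐ[ℚ] F, ((χ τ : ℂˣ) : ℂ)⁻¹ • ((1 : ℂ) ⊗ₜ[ℤ] gact W τ P)
  map_zero' := by simp
  map_add' := fun P Q => by
    rw [← Finset.sum_add_distrib]
    refine Finset.sum_congr rfl fun τ _ => ?_
    rw [map_add, TensorProduct.tmul_add, smul_add]

lemma proj_apply (W : WeierstrassCurve ℚ) (χ : (F ≃ₐ[ℚ] F) →* ℂˣ)
    (P : (W.baseChange F).toAffine.Point) : proj W χ P =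
    ∑ τ : F ≃ₐ[ℚ] F, ((χ τ : ℂˣ) : ℂ)⁻¹ • ((1 : ℂ) ⊗ₜ[ℤ] gact W τ P) := rfl

lemma proj_gact (W : WeierstrassCurve ℚ) (χ : (F ≃ₐ[ℚ] F) →* ℂˣ) (σ : F ≃ₐ[ℚ] F)
    (P : (W.baseChange F).toAffine.Point) :
    proj W χ (gact W σ P) = ((χ σ : ℂˣ) : ℂ) • proj W χ P := by
  rw [proj_apply, proj_apply, Finset.smul_sum]
  refine Fintype.sum_equiv (Equiv.mulRight σ) _ _ fun τ => ?_
  rw [Equiv.coe_mulRight, gact_mul, smul_smul, map_mul, Units.val_mul, mul_inv_rev,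
    ← mul_assoc, mul_inv_cancel₀ (Units.ne_zero _), one_mul]

/-- the eigenspace is spanned by the projections of the points -/
lemma part_le (W : WeierstrassCurve ℚ) (χ : (F ≃ₐ[ℚ] F) →* ℂˣ) :
    PartC F χ W ≤ Submodule.span ℂ (Set.range (proj W χ)) := by
  intro v hv
  have hv' : ∀ σ : F ≃ₐ[ℚ] F, LinearMap.baseChange ℂ (gact W σ).toIntLinearMap v =
    ((χ σ : ℂˣ) : ℂ) • v := hv
  have h1 : ∀ w : ℂ ⊗[ℤ] (W.baseChange F).toAffine.Point,
      ∑ τ : F ≃ₐ[ℚ] F, ((χ τ : ℂˣ) : ℂ)⁻¹ • LinearMap.baseChange ℂ (gact W τ).toIntLinearMap w ∈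
        Submodule.span ℂ (Set.range (proj W χ)) := by
    intro w
    induction w using TensorProduct.induction_on with
    | zero => simp
    | tmul c P =>
      have h2 : ∑ τ : F ≃ₐ[ℚ] F, ((χ τ : ℂˣ) : ℂ)⁻¹ •
          LinearMap.baseChange ℂ (gact W τ).toIntLinearMap (c ⊗ₜ[ℤ] P) = c • proj W χ P := by
        rw [proj_apply, Finset.smul_sum]
        refine Finset.sum_congr rfl fun τ _ => ?_
        have e : c • ((1 : ℂ) ⊗ₜ[ℤ] gact W τ P) = c ⊗ₜ[ℤ] gact W τ P := by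
          rw [TensorProduct.smul_tmul', smul_eq_mul, mul_one]
        rw [LinearMap.baseChange_tmul, smul_comm, e]
        rfl
      rw [h2]
      exact Submodule.smul_mem _ _ (Submodule.subset_span ⟨P, rfl⟩)
    | add x y hx hy =>
      have h2 : ∑ τ : F ≃ₐ[ℚ] F, ((χ τ : ℂˣ) : ℂ)⁻¹ •
          LinearMap.baseChange ℂ (gact W τ).toIntLinearMap (x + y) =
          ∑ τ : F ≃ₐ[ℚ] F, ((χ τ : ℂˣ) : ℂ)⁻¹ •
            LinearMap.baseChange ℂ (gact W τ).toIntLinearMap x +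
          ∑ τ : F ≃ₐ[ℚ] F, ((χ τ : ℂˣ) : ℂ)⁻¹ •
            LinearMap.baseChange ℂ (gact W τ).toIntLinearMap y := by
        rw [← Finset.sum_add_distrib]
        refine Finset.sum_congr rfl fun τ _ => ?_
        rw [map_add, smul_add]
      rw [h2]
      exact Submodule.add_mem _ hx hy
  have h3 := h1 v
  have h4 : ∑ τ : F ≃ₐ[ℚ] F, ((χ τ : ℂˣ) : ℂ)⁻¹ •
      LinearMap.baseChange ℂ (gact W τ).toIntLinearMap v =
      (Fintype.card (F ≃ₐ[ℚ] F) : ℂ) • v := by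
    have h5 : ∀ τ ∈ (Finset.univ : Finset (F ≃ₐ[ℚ] F)), ((χ τ : ℂˣ) : ℂ)⁻¹ •
      LinearMap.baseChange ℂ (gact W τ).toIntLinearMap v = v := by
      intro τ _
      rw [hv' τ, smul_smul, inv_mul_cancel₀ (Units.ne_zero _), one_smul]
    rw [Finset.sum_congr rfl h5, Finset.sum_const, Finset.card_univ, Nat.cast_smul_eq_nsmul]
  rw [h4] at h3
  have h6 : ((Fintype.card (F ≃ₐ[ℚ] F) : ℂ)) ≠ 0 := by
    exact_mod_cast Fintype.card_ne_zero
  have h7 := Submodule.smul_mem _ ((Fintype.card (F ≃ₐ[ℚ] F) : ℂ))⁻¹ h3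
  rwa [smul_smul, inv_mul_cancel₀ h6, one_smul] at h7

end eigen

end Pool.Agent.Y669
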