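import Pool.Agent.Y669.Act
import Pool.Agent.W307.FK.Gen

/-!
# The second moment for a function bounded by the local count at the primes of a given set

Adaptation of `Pool.Agent.W307.FK.G.avgfg_of` (helper612, helper307).
-/

set_option autoImplicit false

namespace Pool.Agent.Y669

open Finset Pool.Agent.W262.RK Pool.Agent.W307.RT Pool.Agent.W307.RS Pool.Agent.W307.SE
  Pool.Agent.W307.FK Pool.Agent.W307.FK.G
open Pool.Agent.W612.FK (fF0 fF1 fF2 gd_fF fF_size)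

open Classical in
/-- the modified set of signs -/
noncomputable def Mod (Ng : ℕ → Prop) (Q E : Finset ℕ) : Finset ℕ :=
  Q.filter (fun p => ¬ (p ∈ E ↔ Ng p))

open Classical in
lemma sum_mod (P Q : Finset ℕ) (hQP : Q ⊆ P) (Ng : ℕ → Prop) (h : Finset ℕ → ℝ)
    (h0 : ∀ E, 0 ≤ h E) :
    (1 / 2) ^ P.card * ∑ E ∈ P.powerset, h (Mod Ng Q E) ≤
      (1 / 2) ^ Q.card * ∑ E ∈ Q.powerset, h E := by
  have hmaps : ∀ E ∈ P.powerset, Mod Ng Q E ∈ Q.powerset := fun E _ => by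
    rw [mem_powerset]
    exact filter_subset _ _
  have e1 : ∑ E ∈ P.powerset, h (Mod Ng Q E) =
      ∑ E' ∈ Q.powerset, ((P.powerset.filter (fun E => Mod Ng Q E = E')).card : ℝ) * h E' := by
    rw [← sum_fiberwise_of_maps_to hmaps]
    refine sum_congr rfl fun E' _ => ?_
    rw [← nsmul_eq_mul, ← sum_const]
    refine sum_congr rfl fun E hE => ?_
    rw [(mem_filter.1 hE).2]
  have e2 : ∀ E' ∈ Q.powerset,
      ((P.powerset.filter (fun E => Mod Ng Q E = E')).card : ℝ) * h E' ≤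
      2 ^ (P \ Q).card * h E' := by
    intro E' _
    refine mul_le_mul_of_nonneg_right ?_ (h0 E')
    have h1 : (P.powerset.filter (fun E => Mod Ng Q E = E')).card ≤ (P \ Q).powerset.card := by
      refine card_le_card_of_injOn (fun E => E \ Q) ?_ ?_
      · intro E hE
        have hE' := mem_powerset.1 (mem_filter.1 hE).1
        refine mem_powerset.2 fun p hp => ?_
        rw [mem_sdiff] at hp ⊢
        exact ⟨hE' hp.1, hp.2⟩
      · intro E hE F hF hEF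
        have q1 := (mem_filter.1 hE).2
        have q2 := (mem_filter.1 hF).2
        have q3 : Mod Ng Q E = Mod Ng Q F := q1.trans q2.symm
        ext p
        by_cases hpQ : p ∈ Q
        · have q4 : p ∈ Mod Ng Q E ↔ p ∈ Mod Ng Q F := by rw [q3]
          unfold Mod at q4
          rw [mem_filter, mem_filter] at q4
          tauto
        · have q5 : p ∈ E \ Q ↔ p ∈ F \ Q := by
            have : E \ Q = F \ Q := hEF
            rw [this]
          rw [mem_sdiff, mem_sdiff] at q5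
          tauto
    rw [card_powerset] at h1
    exact_mod_cast h1
  rw [e1]
  have e3 : P.card = (P \ Q).card + Q.card := (card_sdiff_add_card_eq_card hQP).symm
  calc (1 / 2 : ℝ) ^ P.card * ∑ E' ∈ Q.powerset,
        ((P.powerset.filter (fun E => Mod Ng Q E = E')).card : ℝ) * h E'
      ≤ (1 / 2) ^ P.card * ∑ E' ∈ Q.powerset, 2 ^ (P \ Q).card * h E' :=
        mul_le_mul_of_nonneg_left (sum_le_sum e2) (by positivity)
    _ = (1 / 2) ^ P.card * 2 ^ (P \ Q).card * ∑ E' ∈ Q.powerset, h E' := by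
        rw [← mul_sum]; ring
    _ = _ := by
        rw [e3, pow_add]
        have : (1 / 2 : ℝ) ^ (P \ Q).card * 2 ^ (P \ Q).card = 1 := by
          rw [← mul_pow]; norm_num
        calc (1 / 2 : ℝ) ^ (P \ Q).card * (1 / 2) ^ Q.card * 2 ^ (P \ Q).card *
              ∑ E' ∈ Q.powerset, h E' = ((1 / 2 : ℝ) ^ (P \ Q).card * 2 ^ (P \ Q).card) *
              ((1 / 2) ^ Q.card * ∑ E' ∈ Q.powerset, h E') := by ring
          _ = _ := by rw [this, one_mul]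

/-- the bound by the local count at the primes in `A` -/
def SELFA (A : ℕ → Prop) [DecidablePred A] (Ng : ℕ → Prop) (z1 : ℕ) (G : ℤ → ℤ → ℕ) : Prop :=
  ∀ (f : Fin 3 → ℤ) (D : ℤ) (z y X k B : ℕ), z1 ≤ z → 2 ≤ z → D ≠ 0 →
  Gd z f → f 0 - f 1 = f 2 → (∀ j, (f j).natAbs ≤ X ^ B) → 1 ≤ X → 1 ≤ y → X < (y + 1) ^ k →
    G (D * f 0) (D * f 1) ≤
      4 ^ (z + 2) * 8 ^ D.natAbs.primeFactors.card * ((4 ^ B) ^ Fintype.card (Fin 3)) ^ k *
        4 ^ (∑ j, (S2 z y f j).primeFactors.card) *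
        NL (∏ j, act A (S1 z y f j)) (LF (fun j => act A (S1 z y f j))
          (Mod Ng (∏ j, act A (S1 z y f j)).primeFactors
            (sgF (D * f 0) (D * f 1) (∏ j, S1 z y f j))))

variable {A : ℕ → Prop} [DecidablePred A] {δ : ℝ} {z1 : ℕ} {Ng : ℕ → Prop}

/-- the bound for one curve -/
lemma one_le {G : ℤ → ℤ → ℕ} (h1 : SELFA A Ng z1 G) (M : ℕ) (hM : 1 ≤ M) (D u v : ℤ) (hD : D ≠ 0) (huv : IsCoprime u v)
    (h0 : ∀ j, fF u v j ≠ 0) (hs : ∀ j, (fF u v j).natAbs ≤ M) :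
    ((G (D * fF u v 0) (D * fF u v 1)) : ℝ) ≤
      4 ^ (z1 + 4) * 64 ^ M * 8 ^ D.natAbs.primeFactors.card := by
  have h := (h1 (fF u v) D (z1 + 2) 1 M M 1 (by omega) (by omega) hD (gd_fF (z1 + 2) huv h0)
    (by rw [fF0, fF1, fF2]; ring) (fun j => by rw [pow_one]; exact hs j) hM le_rfl
    (by
      have : M < 2 ^ M := Nat.lt_two_pow_self
      simpa using this))
  have hPS : PS (z1 + 2) 1 = ∅ := by
    unfold PS
    rw [Ioc_eq_empty (by omega)]
    simp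
  have hS2 : ∀ j, S2 (z1 + 2) 1 (fF u v) j = 1 := by
    intro j
    unfold S2
    rw [hPS]
    simp
  have hS1 : ∀ j, S1 (z1 + 2) 1 (fF u v) j = 1 := by
    intro j
    unfold S1
    rw [hPS]
    simp
  have hNL : ∀ L : ℕ → Bool → Bool → Bool → Bool → Prop,
      NL (∏ j, act A (S1 (z1 + 2) 1 (fF u v) j)) L ≤ 1 := by
    intro L
    have e : (∏ j, act A (S1 (z1 + 2) 1 (fF u v) j)) = 1 := prod_eq_one fun j _ => by
      rw [hS1 j]
      unfold act
      simp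
    rw [e]
    classical
    unfold NL
    refine le_trans (card_le_card (filter_subset _ _)) ?_
    simp
  have hsum : (∑ j, (S2 (z1 + 2) 1 (fF u v) j).primeFactors.card) = 0 :=
    sum_eq_zero fun j _ => by rw [hS2 j]; simp
  rw [hsum] at h
  have h2 : (G (D * fF u v 0) (D * fF u v 1)) ≤
      4 ^ (z1 + 4) * 64 ^ M * 8 ^ D.natAbs.primeFactors.card := by
    refine h.trans ?_
    refine (Nat.mul_le_mul_left _ (hNL _)).trans (le_of_eq ?_)
    rw [Fintype.card_fin, show z1 + 2 + 2 = z1 + 4 by omega]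
    norm_num
    ring
  exact_mod_cast h2

lemma RR_small {G : ℤ → ℤ → ℕ} (h1 : SELFA A Ng z1 G) (M : ℕ) (hM : 1 ≤ M) (D N1 N2 : ℤ) (t : ℕ × ℕ) (hD : D ≠ 0)
    (huv : IsCoprime (N1 + (t.1 : ℤ)) (N2 + (t.2 : ℤ)))
    (h0 : ∀ j, fF (N1 + (t.1 : ℤ)) (N2 + (t.2 : ℤ)) j ≠ 0)
    (hs : ∀ j, (fF (N1 + (t.1 : ℤ)) (N2 + (t.2 : ℤ)) j).natAbs ≤ M) :
    RR G D N1 N2 t ≤ (4 ^ (z1 + 4) * 64 ^ M) ^ 2 * 128 ^ D.natAbs.primeFactors.card := by
  have h := one_le h1 M hM D _ _ hD huv h0 hs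
  unfold Pool.Agent.W307.FK.G.RR
  refine (pow_le_pow_left₀ (Nat.cast_nonneg _) h 2).trans ?_
  rw [mul_pow]
  refine mul_le_mul_of_nonneg_left ?_ (by positivity)
  rw [← pow_mul, mul_comm, pow_mul]
  exact pow_le_pow_left₀ (by norm_num) (by norm_num) _

/-- FK-AVGF -/
theorem avgfg_of {z2 : ℕ} (hP : PSet A δ z2) {G : ℤ → ℤ → ℕ} (h1 : SELFA A Ng z1 G)
    (h2 : Pool.Agent.W307.FK.CNTF) : AVGFG G := by
  intro B
  have hant : ANTU := Pool.Agent.W307.RS.antu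
  obtain ⟨n, hn⟩ : ∃ n, n = Fintype.card (Fin 3) := ⟨_, rfl⟩
  have hn3 : n = 3 := by rw [hn, Fintype.card_fin]
  obtain ⟨z0, hz0⟩ := maf_act hP
  obtain ⟨z, hz⟩ : ∃ z, z = z0 + z1 + 8 := ⟨_, rfl⟩
  have hz2 : 2 ≤ z := by omega
  have hz1 : z1 ≤ z := by omega
  have hzn : 2 * Fintype.card (Fin 3) + 2 ≤ z := by rw [Fintype.card_fin]; omega
  obtain ⟨C', hC'⟩ := hz0 z (by omega)
  obtain ⟨C, K, y0, hC0, hK1, hcn⟩ := h2 z B hzn
  obtain ⟨y1, hy1⟩ : ∃ y1, y1 = y0 + 6 := ⟨_, rfl⟩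
  suffices key : ∃ C2 : ℝ, ∀ θ : Th B,
      ∑ t ∈ TS θ.1.2.1 θ.1.2.2.1 θ.1.2.2.2, RR G θ.1.1 θ.1.2.1 θ.1.2.2.1 t ≤
        C2 * (128 ^ θ.1.1.natAbs.primeFactors.card * (θ.1.2.2.2 : ℝ) ^ 2) by
    obtain ⟨C2, hC2⟩ := key
    refine ⟨max C2 0, le_max_right _ _, fun D N1 N2 X hD hX hN1 hN2 => ?_⟩
    have h5 := hC2 ⟨(D, N1, N2, X), hD, hX, hN1, hN2⟩
    have e : TS N1 N2 X = (Icc 1 X ×ˢ Icc 1 X).filter (fun t : ℕ × ℕ =>
      IsCoprime (N1 + (t.1 : ℤ)) (N2 + (t.2 : ℤ)) ∧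
      ∀ j, fF (N1 + (t.1 : ℤ)) (N2 + (t.2 : ℤ)) j ≠ 0) := by
      unfold TS
      congr
    rw [← e]
    refine h5.trans ?_
    show C2 * (128 ^ D.natAbs.primeFactors.card * (X : ℝ) ^ 2) ≤ _
    rw [mul_assoc]
    exact mul_le_mul_of_nonneg_right (le_max_left _ _) (by positivity)
  refine hant (Fin 3) (ℕ × ℕ) (Th B) (fun θ => TS θ.1.2.1 θ.1.2.2.1 θ.1.2.2.2)
    (fun θ => θ.1.2.2.2)
    (fun θ t => fF (θ.1.2.1 + (t.1 : ℤ)) (θ.1.2.2.1 + (t.2 : ℤ)))
    (fun θ => 128 ^ θ.1.1.natAbs.primeFactors.card * (θ.1.2.2.2 : ℝ) ^ 2) z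
    (fun s => NF 2 (fun j => act A (s j)))
    (fun θ t => RR G θ.1.1 θ.1.2.1 θ.1.2.2.1 t) (4 ^ 2)
    (C * (4 ^ (z + 2)) ^ 2) C' (((4 ^ (B + 2)) ^ n) ^ 2) K y1 hzn (fun θ => θ.2.2.1)
    (fun θ => by positivity) (fun X0 => ?_)
    (fun θ ω hω => ?_) (fun s => ?_) (fun θ t => RR_nonneg _ _ _ _ _) (by norm_num)
    (by positivity)
    (one_le_pow₀ (one_le_pow₀ (one_le_pow₀ (by norm_num)))) hK1
    (fun y hy s e hse => subf_act 2 z y hz2 s e hse)
    hC' ?_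
  · -- small scales
    obtain ⟨M, hM⟩ : ∃ M, M = 3 * (X0 ^ B + X0) + 1 := ⟨_, rfl⟩
    refine ⟨(4 ^ (z1 + 4) * 64 ^ M) ^ 2, ?_⟩
    rintro ⟨⟨D, N1, N2, X⟩, hD, hX1, hN1, hN2⟩ hle
    simp only at hD hX1 hN1 hN2 hle ⊢
    have hXB : X ^ B ≤ X0 ^ B := Nat.pow_le_pow_left hle B
    have hb : ∀ t ∈ TS N1 N2 X, RR G D N1 N2 t ≤
        (4 ^ (z1 + 4) * 64 ^ M) ^ 2 * 128 ^ D.natAbs.primeFactors.card := by
      intro t ht
      simp only [TS, mem_filter, mem_product, mem_Icc] at ht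
      refine RR_small h1 M (by omega) D N1 N2 t hD ht.2.1 ht.2.2 fun j => ?_
      have h6 : (N1 + (t.1 : ℤ)).natAbs ≤ X0 ^ B + X0 := by
        have h61 : t.1 ≤ X := ht.1.1.2
        omega
      have h7 : (N2 + (t.2 : ℤ)).natAbs ≤ X0 ^ B + X0 := by
        have h71 : t.2 ≤ X := ht.1.2.2
        omega
      have h8 := fF_size h6 h7 j
      omega
    have hcard : ((TS N1 N2 X).card : ℝ) ≤ (X : ℝ) ^ 2 := by
      have h6 : (TS N1 N2 X).card ≤ X ^ 2 := by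
        unfold TS
        refine (card_filter_le _ _).trans ?_
        rw [card_product, Nat.card_Icc]
        simp only [Nat.add_sub_cancel]
        rw [pow_two]
      exact_mod_cast h6
    calc ∑ t ∈ TS N1 N2 X, RR G D N1 N2 t
        ≤ ∑ _t ∈ TS N1 N2 X, (4 ^ (z1 + 4) * 64 ^ M) ^ 2 * 128 ^ D.natAbs.primeFactors.card :=
          sum_le_sum hb
      _ = ((TS N1 N2 X).card : ℝ) * ((4 ^ (z1 + 4) * 64 ^ M) ^ 2 * 128 ^ D.natAbs.primeFactors.card) := by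
          rw [sum_const, nsmul_eq_mul]
      _ ≤ (X : ℝ) ^ 2 * ((4 ^ (z1 + 4) * 64 ^ M) ^ 2 * 128 ^ D.natAbs.primeFactors.card) :=
          mul_le_mul_of_nonneg_right hcard (by positivity)
      _ = _ := by ring
  · simp only [TS, mem_filter] at hω
    exact gd_fF z hω.2.1 hω.2.2
  · unfold NF
    exact mul_nonneg (by positivity) (sum_nonneg fun _ _ => pow_nonneg (Nat.cast_nonneg _) _)
  -- the local majorant
  rintro ⟨⟨D, N1, N2, X⟩, hD, hX1, hN1, hN2⟩ y Y k hy0 hzy hyK hk s hs v hv u hu h8 T' hT' hval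
  simp only at hD hX1 hN1 hN2 hyK hk h8 hT' hval ⊢
  have hy00 : y0 ≤ y := by omega
  have hyX : y ≤ X := le_trans (Nat.le_self_pow (by omega) y) hyK
  obtain ⟨ff, hff⟩ : ∃ ff : ℕ × ℕ → Fin 3 → ℤ,
    ff = fun t => fF (N1 + (t.1 : ℤ)) (N2 + (t.2 : ℤ)) := ⟨_, rfl⟩
  obtain ⟨sg, hsg⟩ : ∃ sg : ℕ × ℕ → Finset ℕ,
    sg = fun t => sgF (D * fF (N1 + (t.1 : ℤ)) (N2 + (t.2 : ℤ)) 0)
        (D * fF (N1 + (t.1 : ℤ)) (N2 + (t.2 : ℤ)) 1) (∏ j, s j) := ⟨_, rfl⟩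
  obtain ⟨g0, hg0'⟩ : ∃ g0 : Finset ℕ → ℝ, g0 = fun E =>
    (NL (∏ j, act A (s j)) (LF (fun j => act A (s j)) E) : ℝ) ^ 2 := ⟨_, rfl⟩
  obtain ⟨g, hg⟩ : ∃ g : Finset ℕ → ℝ,
    g = fun E => g0 (Mod Ng (∏ j, act A (s j)).primeFactors E) := ⟨_, rfl⟩
  have hg00 : ∀ E, 0 ≤ g0 E := fun E => by rw [hg0']; exact pow_nonneg (Nat.cast_nonneg _) _
  have hg0 : ∀ E, 0 ≤ g E := fun E => by rw [hg]; exact hg00 _
  have h5 : ∀ t ∈ T', RR G D N1 N2 t ≤
      (4 ^ (z + 2)) ^ 2 * (64 ^ D.natAbs.primeFactors.card * (((4 ^ (B + 2)) ^ n) ^ 2) ^ k) *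
        (4 ^ 2) ^ (∑ j, (v j).primeFactors.card) * g (sg t) := by
    intro t ht
    have htT := hT' ht
    simp only [TS, mem_filter, mem_product, mem_Icc] at htT
    obtain ⟨ht1, htc, ht0⟩ := htT
    obtain ⟨hts, htv, _⟩ := hval t ht
    have hsize : ∀ j, (fF (N1 + (t.1 : ℤ)) (N2 + (t.2 : ℤ)) j).natAbs ≤ X ^ (B + 2) := by
      intro j
      have e5 : X ^ B ≤ X ^ (B + 1) := Nat.pow_le_pow_right hX1 (by omega)
      have e6 : X ≤ X ^ (B + 1) := Nat.le_self_pow (by omega) X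
      have h6 : (N1 + (t.1 : ℤ)).natAbs ≤ X ^ B + X := by
        have h61 : t.1 ≤ X := ht1.1.2
        omega
      have h7 : (N2 + (t.2 : ℤ)).natAbs ≤ X ^ B + X := by
        have h71 : t.2 ≤ X := ht1.2.2
        omega
      calc (fF (N1 + (t.1 : ℤ)) (N2 + (t.2 : ℤ)) j).natAbs ≤ 3 * (X ^ B + X) := fF_size h6 h7 j
        _ ≤ 3 * (X ^ (B + 1) + X ^ (B + 1)) := Nat.mul_le_mul_left _ (Nat.add_le_add e5 e6)
        _ = 6 * X ^ (B + 1) := by ring
        _ ≤ X * X ^ (B + 1) := Nat.mul_le_mul_right _ (by omega)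
        _ = X ^ (B + 2) := by ring
    have hr := (h1 (fF (N1 + (t.1 : ℤ)) (N2 + (t.2 : ℤ))) D z y X k (B + 2) hz1 hz2 hD
      (gd_fF z htc ht0) (by rw [fF0, fF1, fF2]; ring) hsize hX1 (by omega) hk)
    rw [hts, htv, ← hn] at hr
    have hr' : ((G (D * fF (N1 + (t.1 : ℤ)) (N2 + (t.2 : ℤ)) 0)
        (D * fF (N1 + (t.1 : ℤ)) (N2 + (t.2 : ℤ)) 1)) : ℝ) ≤
        4 ^ (z + 2) * 8 ^ D.natAbs.primeFactors.card * ((4 ^ (B + 2)) ^ n) ^ k *
          4 ^ (∑ j, (v j).primeFactors.card) *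
          (NL (∏ j, act A (s j)) (LF (fun j => act A (s j))
            (Mod Ng (∏ j, act A (s j)).primeFactors (sg t))) : ℝ) := by
      rw [hsg]
      exact_mod_cast hr
    unfold Pool.Agent.W307.FK.G.RR
    refine (pow_le_pow_left₀ (Nat.cast_nonneg _) hr' 2).trans (le_of_eq ?_)
    rw [hg, hg0']
    simp only [mul_pow]
    have e1 : ((8 : ℝ) ^ D.natAbs.primeFactors.card) ^ 2 = 64 ^ D.natAbs.primeFactors.card := by
      rw [← pow_mul, mul_comm, pow_mul]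
      norm_num
    have e2 : ((((4 : ℝ) ^ (B + 2)) ^ n) ^ k) ^ 2 = (((4 ^ (B + 2)) ^ n) ^ 2) ^ k := by
      rw [← pow_mul, mul_comm, pow_mul]
    have e3 : ((4 : ℝ) ^ (∑ j, (v j).primeFactors.card)) ^ 2 =
        (4 ^ 2) ^ (∑ j, (v j).primeFactors.card) := by
      rw [← pow_mul, mul_comm, pow_mul]
    rw [e1, e2, e3]
    ring
  have hneg : ∀ t ∈ T', sg t ∈ (∏ j, s j).primeFactors.powerset := by
    intro t _
    rw [mem_powerset, hsg]
    exact filter_subset _ _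
  have h6 : ∑ t ∈ T', g (sg t) =
      ∑ E ∈ (∏ j, s j).primeFactors.powerset,
        ((T'.filter (fun t => sg t = E)).card : ℝ) * g E := by
    rw [← sum_fiberwise_of_maps_to hneg]
    refine sum_congr rfl fun E _ => ?_
    rw [← nsmul_eq_mul, ← sum_const]
    refine sum_congr rfl fun t ht => ?_
    rw [(mem_filter.1 ht).2]
  obtain ⟨Q, hQ⟩ : ∃ Q : ℝ, Q = C * 2 ^ D.natAbs.primeFactors.card * X ^ 2 *
        (1 / 2) ^ (∏ j, s j).primeFactors.card *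
        (∏ j, gw 1 n (s j)) * (∏ j, gw 1 n (v j) / v j) * (∏ j, 1 / (u j : ℝ)) /
        (Real.log y) ^ n := ⟨_, rfl⟩
  have h7 : ∀ E ∈ (∏ j, s j).primeFactors.powerset,
      ((T'.filter (fun t => sg t = E)).card : ℝ) * g E ≤ Q * g E := by
    intro E _
    refine mul_le_mul_of_nonneg_right ?_ (hg0 E)
    have h9 := hcn D N1 N2 X y Y hD hN1 hN2 hy00 hzy hyK s hs v hv u hu h8 E
    rw [← hn, ← hQ] at h9
    refine le_trans ?_ h9
    refine Nat.cast_le.2 (card_le_card fun t ht => ?_)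
    rw [mem_filter] at ht
    rw [mem_filter]
    obtain ⟨ht', htE⟩ := ht
    obtain ⟨hts, htv, htu⟩ := hval t ht'
    have htT := hT' ht'
    simp only [TS, mem_filter] at htT
    rw [hsg] at htE
    exact ⟨htT.1, htT.2.1, hts, htv, htu, htE⟩
  calc ∑ t ∈ T', RR G D N1 N2 t
      ≤ ∑ t ∈ T', (4 ^ (z + 2)) ^ 2 *
          (64 ^ D.natAbs.primeFactors.card * (((4 ^ (B + 2)) ^ n) ^ 2) ^ k) *
        (4 ^ 2) ^ (∑ j, (v j).primeFactors.card) * g (sg t) := sum_le_sum h5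
    _ = (4 ^ (z + 2)) ^ 2 *
          (64 ^ D.natAbs.primeFactors.card * (((4 ^ (B + 2)) ^ n) ^ 2) ^ k) *
        (4 ^ 2) ^ (∑ j, (v j).primeFactors.card) *
          ∑ E ∈ (∏ j, s j).primeFactors.powerset,
            ((T'.filter (fun t => sg t = E)).card : ℝ) * g E := by
        rw [← mul_sum, h6]
    _ ≤ (4 ^ (z + 2)) ^ 2 *
          (64 ^ D.natAbs.primeFactors.card * (((4 ^ (B + 2)) ^ n) ^ 2) ^ k) *
        (4 ^ 2) ^ (∑ j, (v j).primeFactors.card) *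
          ∑ E ∈ (∏ j, s j).primeFactors.powerset, Q * g E :=
        mul_le_mul_of_nonneg_left (sum_le_sum h7) (by positivity)
    _ = (4 ^ (z + 2)) ^ 2 *
          (64 ^ D.natAbs.primeFactors.card * (((4 ^ (B + 2)) ^ n) ^ 2) ^ k) *
        (4 ^ 2) ^ (∑ j, (v j).primeFactors.card) *
          ((C * 2 ^ D.natAbs.primeFactors.card * X ^ 2 *
            (∏ j, gw 1 n (s j)) * (∏ j, gw 1 n (v j) / v j) * (∏ j, 1 / (u j : ℝ)) /
            (Real.log y) ^ n) * ((1 / 2) ^ (∏ j, s j).primeFactors.card *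
              ∑ E ∈ (∏ j, s j).primeFactors.powerset, g E)) := by
        rw [← mul_sum, hQ]
        ring
    _ ≤ (4 ^ (z + 2)) ^ 2 *
          (64 ^ D.natAbs.primeFactors.card * (((4 ^ (B + 2)) ^ n) ^ 2) ^ k) *
        (4 ^ 2) ^ (∑ j, (v j).primeFactors.card) *
          ((C * 2 ^ D.natAbs.primeFactors.card * X ^ 2 *
            (∏ j, gw 1 n (s j)) * (∏ j, gw 1 n (v j) / v j) * (∏ j, 1 / (u j : ℝ)) /
            (Real.log y) ^ n) * NF 2 (fun j => act A (s j))) := by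
        refine mul_le_mul_of_nonneg_left (mul_le_mul_of_nonneg_left ?_ ?_) (by positivity)
        · rw [hg]
          refine (sum_mod _ _ ?_ Ng g0 hg00).trans (le_of_eq ?_)
          · refine Nat.primeFactors_mono (prod_dvd_prod_of_dvd _ _ fun j _ => act_dvd _) ?_
            exact prod_ne_zero_iff.2 fun j _ =>
              ne_zero_of_dvd_ne_zero (PP_ne_zero z y) ((mem_Tup'.1 hs).1 j)
          · rw [hg0']
            rfl
        · have hgs : ∀ w ∈ Tup (Fin 3) z y, ∀ j, 0 ≤ gw 1 n (w j) := fun w hw j =>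
            gw_nonneg zero_le_one (by omega)
              (Nat.mem_divisors.2 ⟨(mem_Tup'.1 hw).1 j, PP_ne_zero z y⟩)
          have hly : 0 < Real.log y := Real.log_pos (by exact_mod_cast (by omega : 1 < y))
          refine div_nonneg ?_ (by positivity)
          refine mul_nonneg (mul_nonneg (mul_nonneg (by positivity) ?_) ?_) ?_
          · exact prod_nonneg fun j _ => hgs s hs j
          · exact prod_nonneg fun j _ => div_nonneg (hgs v hv j) (Nat.cast_nonneg _)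
          · exact prod_nonneg fun j _ => by positivity
    _ = _ := by
        have e2 : (∏ j, ((4 : ℝ) ^ 2) ^ (v j).primeFactors.card * (gw 1 n (v j) / v j)) =
            (4 ^ 2) ^ (∑ j, (v j).primeFactors.card) * ∏ j, (gw 1 n (v j) / v j) := by
          rw [prod_mul_distrib, prod_pow_eq_pow_sum]
        have e3 : (128 : ℝ) ^ D.natAbs.primeFactors.card =
            64 ^ D.natAbs.primeFactors.card * 2 ^ D.natAbs.primeFactors.card := by
          rw [← mul_pow]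
          norm_num
        rw [← hn, e2, e3]
        ring

end Pool.Agent.Y669
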