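import Pool.Agent.W307.SE.Locp
import Pool.Agent.W407.SE.Ratp
import Pool.Agent.W405.SE.GoodP
import Pool.Agent.W214.RK2.Desc4
import Pool.Agent.Y669.Act

/-!
# Square classes of the p-adic numbers and products of local conditions
-/

set_option autoImplicit false

namespace Pool.Agent.Y669

open Finset Pool.Agent.W262.RK Pool.Agent.W307.RT Pool.Agent.W307.SE Pool.Agent.W307.FK
open Pool.Agent.W214.RK2 (dec jac_pm exists_rep)

section

variable {p : ℕ} [hp : Fact p.Prime]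

lemma psq_odd (Y : ℤ) (hY : ¬ (p : ℤ) ∣ Y) : ¬ IsSquare ((p : ℚ_[p]) * (Y : ℚ_[p])) := by
  intro h
  have hp0 : (p : ℚ_[p]) ≠ 0 := by exact_mod_cast hp.out.ne_zero
  have hY0 : (Y : ℚ_[p]) ≠ 0 := by
    intro h0
    apply hY
    have : Y = 0 := by exact_mod_cast h0
    rw [this]
    exact dvd_zero _
  have h1 := Pool.Agent.W405.SE.even_val hp0 hY0 h
  rw [Padic.valuation_intCast, padicValInt.eq_zero_of_not_dvd hY] at h1
  have h2 : ((p : ℕ) : ℚ_[p]).valuation = 1 := by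
    rw [Padic.valuation_natCast, padicValNat_self]
    rfl
  rw [h2] at h1
  exact absurd h1 (by decide)

lemma psq_cancel {r Y : ℚ_[p]} (hr : r ≠ 0) (h : IsSquare (r ^ 2 * Y)) : IsSquare Y := by
  obtain ⟨w, hw⟩ := h
  refine ⟨w / r, ?_⟩
  rw [div_mul_div_comm, eq_div_iff (mul_ne_zero hr hr), ← hw]
  ring

/-- the square class in `ℚ_p` is additive in the local data -/
lemma pkey (a b c : ℤ) (ha : Squarefree a) (hb : Squarefree b)
    (hc : Squarefree c) (h : IsSquare ((a : ℚ_[p]) * b * c)) :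
    dv p c = xor (dv p a) (dv p b) ∧ sgn p c = xor (sgn p a) (sgn p b) := by
  obtain ⟨a', ha1, ha2, ha3⟩ := dec p hp.out a ha
  obtain ⟨b', hb1, hb2, hb3⟩ := dec p hp.out b hb
  obtain ⟨c', hc1, hc2, hc3⟩ := dec p hp.out c hc
  have hpi := Nat.prime_iff_prime_int.mp hp.out
  have hp0 : (p : ℚ_[p]) ≠ 0 := by exact_mod_cast hp.out.ne_zero
  have hY : ¬ (p : ℤ) ∣ a' * b' * c' := by
    intro h
    rcases hpi.dvd_or_dvd h with h | h
    · rcases hpi.dvd_or_dvd h with h | h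
      · exact ha2 h
      · exact hb2 h
    · exact hc2 h
  have main : dv p c = xor (dv p a) (dv p b) ∧ IsSquare (((a' * b' * c' : ℤ) : ℚ_[p])) := by
    rw [ha1, hb1, hc1] at h
    generalize dv p a = u at h ⊢
    generalize dv p b = v at h ⊢
    generalize dv p c = w at h ⊢
    cases u <;> cases v <;> cases w <;>
      simp only [Bool.false_eq_true, if_false, if_true, one_mul, Bool.xor_false, Bool.xor_true,
        Bool.not_false, Bool.not_true, true_and, false_and, reduceCtorEq] at h ⊢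
    · push_cast at h ⊢
      exact h
    · refine psq_odd _ hY ?_
      push_cast at h ⊢
      convert h using 1; ring
    · refine psq_odd _ hY ?_
      push_cast at h ⊢
      convert h using 1; ring
    · refine psq_cancel hp0 ?_
      push_cast at h ⊢
      convert h using 1; ring
    · refine psq_odd _ hY ?_
      push_cast at h ⊢
      convert h using 1; ring
    · refine psq_cancel hp0 ?_
      push_cast at h ⊢
      convert h using 1; ring
    · refine psq_cancel hp0 ?_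
      push_cast at h ⊢
      convert h using 1; ring
    · refine psq_odd _ hY (psq_cancel hp0 ?_)
      push_cast at h ⊢
      convert h using 1; ring
  refine ⟨main.1, ?_⟩
  have hJ := Pool.Agent.W407.SE.jac _ hY main.2
  rw [jacobiSym.mul_left, jacobiSym.mul_left] at hJ
  rw [ha3, hb3, hc3]
  unfold sg0
  rcases jac_pm p hp.out a' ha2 with h1 | h1 <;> rcases jac_pm p hp.out b' hb2 with h2 | h2 <;>
    rcases jac_pm p hp.out c' hc2 with h3 | h3 <;> rw [h1, h2, h3] at hJ ⊢ <;> simp at hJ ⊢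

/-- squarefree representatives of the square classes -/
lemma prep (hp2 : p ≠ 2) (u : ℚ_[p]) (hu : u ≠ 0) : ∃ e : ℤ, Squarefree e ∧ IsSquare (u * e) := by
  obtain ⟨x0, hx0⟩ := Padic.rat_dense p u (ε := ‖u‖) (norm_pos_iff.2 hu)
  obtain ⟨h1, h2⟩ := Pool.Agent.W407.SE.near hp2 _ _ hx0
  have h3 : x0 ≠ 0 := by
    intro h
    rw [h] at h2
    simp at h2
  obtain ⟨e, he, hsq⟩ := exists_rep x0 h3
  refine ⟨e, he, ?_⟩
  have h4 : IsSquare ((x0 : ℚ_[p]) * (e : ℚ_[p])) := by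
    have := hsq.map (Rat.castHom ℚ_[p])
    simpa using this
  refine sq_tr h2 ?_ h4
  rw [mul_comm]
  exact h1

lemma psf_ne {e : ℤ} (he : Squarefree e) : (e : ℚ_[p]) ≠ 0 := by exact_mod_cast he.ne_zero

/-- products of local conditions -/
lemma prodXC (hp2 : p ≠ 2) {P : Bool → Bool → Bool → Bool → Prop} (hP : XC P) {T : Type}
    (S : Finset T) (u w : T → ℚ_[p]) (hu : ∀ t ∈ S, u t ≠ 0) (hw : ∀ t ∈ S, w t ≠ 0)
    (h : ∀ t ∈ S, ∀ e1 e2 : ℤ, Squarefree e1 → Squarefree e2 → IsSquare (u t * e1) →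
      IsSquare (w t * e2) → P (dv p e1) (dv p e2) (sgn p e1) (sgn p e2)) :
    ∀ d1 d2 : ℤ, Squarefree d1 → Squarefree d2 → IsSquare ((∏ t ∈ S, u t) * d1) →
      IsSquare ((∏ t ∈ S, w t) * d2) → P (dv p d1) (dv p d2) (sgn p d1) (sgn p d2) := by
  classical
  induction S using Finset.induction_on with
  | empty =>
    intro d1 d2 hd1 hd2 h1 h2
    rw [prod_empty, one_mul] at h1 h2
    obtain ⟨a1, a2⟩ := pkey (p := p) 1 1 d1 squarefree_one squarefree_one hd1 (by simpa using h1)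
    obtain ⟨a3, a4⟩ := pkey (p := p) 1 1 d2 squarefree_one squarefree_one hd2 (by simpa using h2)
    rw [Bool.xor_self] at a1 a2 a3 a4
    rw [a1, a2, a3, a4]
    exact hP.1
  | insert t S ht ih =>
    intro d1 d2 hd1 hd2 h1 h2
    rw [prod_insert ht] at h1 h2
    have hu0 : u t ≠ 0 := hu t (mem_insert_self _ _)
    have hw0 : w t ≠ 0 := hw t (mem_insert_self _ _)
    have hu' : ∀ s ∈ S, u s ≠ 0 := fun s hs => hu s (mem_insert_of_mem hs)
    have hw' : ∀ s ∈ S, w s ≠ 0 := fun s hs => hw s (mem_insert_of_mem hs)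
    have hU : (∏ s ∈ S, u s) ≠ 0 := prod_ne_zero_iff.2 hu'
    have hW : (∏ s ∈ S, w s) ≠ 0 := prod_ne_zero_iff.2 hw'
    obtain ⟨a1, b1, c1⟩ := prep hp2 _ hu0
    obtain ⟨a2, b2, c2⟩ := prep hp2 _ hw0
    obtain ⟨a3, b3, c3⟩ := prep hp2 _ hU
    obtain ⟨a4, b4, c4⟩ := prep hp2 _ hW
    have q1 := h t (mem_insert_self _ _) a1 a2 b1 b2 c1 c2
    have q2 := ih hu' hw' (fun s hs => h s (mem_insert_of_mem hs)) a3 a4 b3 b4 c3 c4
    have k1 := pkey (p := p) a1 a3 d1 b1 b3 hd1 (by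
      have e1 : IsSquare ((u t * ∏ s ∈ S, u s) ^ 2 * ((a1 : ℚ_[p]) * a3 * d1)) := by
        have e2 : (u t * ∏ s ∈ S, u s) ^ 2 * ((a1 : ℚ_[p]) * a3 * d1) =
            (u t * a1) * ((∏ s ∈ S, u s) * a3) * (u t * (∏ s ∈ S, u s) * d1) := by ring
        rw [e2]
        exact (c1.mul c3).mul h1
      exact psq_cancel (mul_ne_zero hu0 hU) e1)
    have k2 := pkey (p := p) a2 a4 d2 b2 b4 hd2 (by
      have e1 : IsSquare ((w t * ∏ s ∈ S, w s) ^ 2 * ((a2 : ℚ_[p]) * a4 * d2)) := by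
        have e2 : (w t * ∏ s ∈ S, w s) ^ 2 * ((a2 : ℚ_[p]) * a4 * d2) =
            (w t * a2) * ((∏ s ∈ S, w s) * a4) * (w t * (∏ s ∈ S, w s) * d2) := by ring
        rw [e2]
        exact (c2.mul c4).mul h2
      exact psq_cancel (mul_ne_zero hw0 hW) e1)
    rw [k1.1, k1.2, k2.1, k2.2]
    exact hP.2 _ _ _ _ _ _ _ _ q1 q2

end

section

variable {L : Type} [Field L] [NumberField L]

/-- the classes of the points of `δ y² = x (x - A) (x - B)` over `L` -/
def SX (L : Type) [Field L] [NumberField L] (δ : L) (A B : ℤ) : Set (ℤ × ℤ) :=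
  {d | Squarefree d.1 ∧ Squarefree d.2 ∧ ∃ x y : L, y ≠ 0 ∧ δ * y ^ 2 = x * (x - A) * (x - B) ∧
    IsSquare (Algebra.norm ℚ (δ * x) * d.1) ∧ IsSquare (Algebra.norm ℚ (δ * (x - A)) * d.2)}

lemma act_of [IsGalois ℚ L] {δ : L} (hδ : δ ≠ 0) {p : ℕ} [hp : Fact p.Prime] (hp2 : p ≠ 2)
    (ι : L →+* ℚ_[p]) (ε : ℤ) (hε : ¬ (p : ℤ) ∣ ε) (hι : IsSquare (ι δ * ε))
    (hsq : ∀ τ : L ≃ₐ[ℚ] L, IsSquare (δ * τ δ)) {A B : ℤ}
    {P : Bool → Bool → Bool → Bool → Prop} (hP : XC P)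
    (h : ∀ x y : ℚ_[p], y ≠ 0 → y ^ 2 = x * (x - (ε * A : ℤ)) * (x - (ε * B : ℤ)) →
      ∀ e1 e2 : ℤ, Squarefree e1 → Squarefree e2 → IsSquare (x * e1) →
      IsSquare ((x - (ε * A : ℤ)) * e2) → P (dv p e1) (dv p e2) (sgn p e1) (sgn p e2))
    (d : ℤ × ℤ) (hd : d ∈ SX L δ A B) : P (dv p d.1) (dv p d.2) (sgn p d.1) (sgn p d.2) := by
  obtain ⟨hd1, hd2, x, y, hy, hxy, s1, s2⟩ := hd
  have hε0 : (ε : ℚ_[p]) ≠ 0 := by
    intro h0
    apply hε
    have : ε = 0 := by exact_mod_cast h0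
    rw [this]
    exact dvd_zero _
  have hprod : x * (x - A) * (x - B) ≠ 0 := by
    rw [← hxy]
    exact mul_ne_zero hδ (pow_ne_zero 2 hy)
  have hx : x ≠ 0 := left_ne_zero_of_mul (left_ne_zero_of_mul hprod)
  have hxA : x - A ≠ 0 := right_ne_zero_of_mul (left_ne_zero_of_mul hprod)
  have hnorm : ∀ t : L, ((Algebra.norm ℚ t : ℚ) : ℚ_[p]) = ∏ τ : L ≃ₐ[ℚ] L, ι (τ t) := by
    intro t
    have h1 := congrArg ι (Algebra.norm_eq_prod_automorphisms (K := ℚ) (L := L) t)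
    rw [map_prod] at h1
    rw [← h1]
    exact (map_ratCast (ι.comp (algebraMap ℚ L)) (Algebra.norm ℚ t)).symm
  have hne : ∀ (t : L), t ≠ 0 → ∀ τ ∈ (univ : Finset (L ≃ₐ[ℚ] L)), ι (τ t) ≠ 0 := by
    intro t ht τ _
    rw [map_ne_zero_iff _ ι.injective]
    exact (map_ne_zero_iff _ τ.injective).2 ht
  refine prodXC hp2 hP (univ : Finset (L ≃ₐ[ℚ] L)) (fun τ => ι (τ (δ * x)))
    (fun τ => ι (τ (δ * (x - A)))) (hne _ (mul_ne_zero hδ hx)) (hne _ (mul_ne_zero hδ hxA))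
    (fun τ _ e1 e2 he1 he2 c1 c2 => ?_) d.1 d.2 hd1 hd2 ?_ ?_
  · have hδτ : ι (τ δ) ≠ 0 := hne δ hδ τ (mem_univ _)
    have h1 : IsSquare (ι (τ δ) * ε) := by
      have h2 : IsSquare (ι δ * ι (τ δ)) := by
        rw [← map_mul]
        exact (hsq τ).map ι
      exact sq_tr (hne δ hδ 1 (mem_univ _)) h2 hι
    obtain ⟨w, hw⟩ := h1
    have hw0 : w ≠ 0 := by
      rintro rfl
      rw [mul_zero] at hw
      exact mul_ne_zero hδτ hε0 hw
    have hxy' : ι (τ δ) * ι (τ y) ^ 2 = ι (τ x) * (ι (τ x) - A) * (ι (τ x) - B) := by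
      have := congrArg (fun t => ι (τ t)) hxy
      simpa using this
    refine h ((ε : ℚ_[p]) * ι (τ x)) ((ε : ℚ_[p]) * w * ι (τ y))
      (mul_ne_zero (mul_ne_zero hε0 hw0) (hne y hy τ (mem_univ _))) ?_ e1 e2 he1 he2 ?_ ?_
    · push_cast
      linear_combination (ε : ℚ_[p]) ^ 2 * ι (τ y) ^ 2 * (-hw) + (ε : ℚ_[p]) ^ 3 * hxy'
    · obtain ⟨r, hr⟩ := c1
      refine ⟨r * w / ι (τ δ), ?_⟩
      rw [div_mul_div_comm, eq_div_iff (mul_ne_zero hδτ hδτ)]
      rw [map_mul, map_mul] at hr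
      linear_combination (ι (τ δ) * ε) * hr + r * r * hw
    · obtain ⟨r, hr⟩ := c2
      refine ⟨r * w / ι (τ δ), ?_⟩
      rw [div_mul_div_comm, eq_div_iff (mul_ne_zero hδτ hδτ)]
      rw [map_mul, map_mul, map_sub, map_sub, map_intCast, map_intCast] at hr
      push_cast
      linear_combination (ι (τ δ) * ε) * hr + r * r * hw
  · rw [← hnorm]
    have := s1.map (Rat.castHom ℚ_[p])
    simpa using this
  · rw [← hnorm]
    have := s2.map (Rat.castHom ℚ_[p])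
    simpa using this

end

end Pool.Agent.Y669
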