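import Pool.Agent.Y669.LocB
import Pool.Agent.Y669.GenA
import Pool.Agent.W293.FK.Self
import Pool.Agent.W612.SE.Seld

/-!
# The classes over the field and the local count

Adaptation of `Pool.Agent.W612.SE.seld_of` and `Pool.Agent.W293.FK.Self.self_of`.
-/

set_option autoImplicit false

namespace Pool.Agent.Y669

open Finset Pool.Agent.W262.RK Pool.Agent.W307.RT Pool.Agent.W571.RT Pool.Agent.W307.SE
  Pool.Agent.W307.FK Pool.Agent.W214.RK2 Pool.Agent.W599.RK Pool.Agent.W612.SE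
open Pool.Agent.W293.FK.Self (xcLF phiLR loc)

/-- the set of classes and the local count -/
theorem cnt (Sl : Set (ℤ × ℤ)) (OP : Finset ℕ) (m : ℕ)
    (L : ℕ → Bool → Bool → Bool → Bool → Prop) (hm : Squarefree m)
    (hL : ∀ p : ℕ, p.Prime → p ∣ m → XC (L p))
    (hS : ∀ d ∈ Sl, Squarefree d.1 ∧ Squarefree d.2)
    (hgood : ∀ d ∈ Sl, ∀ q : ℕ, q.Prime → q ∉ OP → ¬ q ∣ m → ¬ (q : ℤ) ∣ d.1 ∧ ¬ (q : ℤ) ∣ d.2)
    (hloc : ∀ d ∈ Sl, ∀ p : ℕ, p.Prime → p ∣ m →
      L p (dv p d.1) (dv p d.2) (sgn p d.1) (sgn p d.2)) :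
    Sl.Finite ∧ Sl.ncard ≤ 4 ^ (OP.card + 1) * NL m L := by
  classical
  set F : Finset (ℕ × ℕ) := (m.divisors ×ˢ m.divisors).filter (fun d : ℕ × ℕ =>
    ∀ p ∈ m.primeFactors, L p (dv p d.1) (dv p d.2) (sgn p d.1) (sgn p d.2)) with hF
  have hFcard : F.card = NL m L := by
    unfold NL
    rw [hF]
  -- comparison of two pairs with the same outer data
  have hcmp : ∀ d d' : ℤ × ℤ, d ∈ Sl → d' ∈ Sl → outs OP d = outs OP d' →
      (0 < d.1 ↔ 0 < d'.1) ∧ (0 < d.2 ↔ 0 < d'.2) ∧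
      (∀ q : ℕ, q.Prime → ¬ q ∣ m →
        ((q : ℤ) ∣ d.1 ↔ (q : ℤ) ∣ d'.1) ∧ ((q : ℤ) ∣ d.2 ↔ (q : ℤ) ∣ d'.2)) := by
    intro d d' hd hd' ho
    have h1 : decide (0 < d.1) = decide (0 < d'.1) := congrArg Prod.fst ho
    have h23 := congrArg Prod.snd ho
    have h2 : decide (0 < d.2) = decide (0 < d'.2) := congrArg Prod.fst h23
    have h3 := congrArg Prod.snd h23
    refine ⟨decide_eq_decide.mp h1, decide_eq_decide.mp h2, fun q hq hqm => ?_⟩
    by_cases hD : q ∈ OP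
    · have h4 := congrFun h3 ⟨q, hD⟩
      have h5 : decide ((q : ℤ) ∣ d.1) = decide ((q : ℤ) ∣ d'.1) := congrArg Prod.fst h4
      have h6 : decide ((q : ℤ) ∣ d.2) = decide ((q : ℤ) ∣ d'.2) := congrArg Prod.snd h4
      exact ⟨decide_eq_decide.mp h5, decide_eq_decide.mp h6⟩
    · obtain ⟨a1, a2⟩ := hgood d hd q hq hD hqm
      obtain ⟨b1, b2⟩ := hgood d' hd' q hq hD hqm
      exact ⟨⟨fun h => absurd h a1, fun h => absurd h b1⟩,
        ⟨fun h => absurd h a2, fun h => absurd h b2⟩⟩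
  -- the local data
  have hdat : ∀ a b : ℤ, Squarefree a → Squarefree b → (0 < a ↔ 0 < b) →
      (∀ q : ℕ, q.Prime → ¬ q ∣ m → ((q : ℤ) ∣ a ↔ (q : ℤ) ∣ b)) →
      ∀ p : ℕ, p.Prime → dv p (dd m a b) = xor (dv p a) (dv p b) ∧
        sgn p (dd m a b) = xor (sgn p a) (sgn p b) := by
    intro a b ha hb hs hv p hp
    have h1 := dd_sq m hm (a : ℚ) (b : ℚ) (by exact_mod_cast ha.ne_zero)
      (by exact_mod_cast hb.ne_zero) (by exact_mod_cast hs) (by
        intro q hq hqm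
        rw [even_val a ha q hq, even_val b hb q hq, hv q hq hqm])
    have h2 : IsSquare (a * b * ((dd m a b : ℕ) : ℤ)) := by
      rw [← Rat.isSquare_intCast_iff]
      push_cast
      exact h1
    exact key p hp a b _ ha hb
      (Int.squarefree_natCast.mpr (hm.squarefree_of_dvd (dd_dvd m hm a b))) h2
  have hFmem : ∀ d d' : ℤ × ℤ, d ∈ Sl → d' ∈ Sl → outs OP d = outs OP d' →
      (dd m d.1 d'.1, dd m d.2 d'.2) ∈ F := by
    intro d d' hd hd' ho
    obtain ⟨c1, c2, c3⟩ := hcmp d d' hd hd' ho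
    rw [hF, Finset.mem_filter, Finset.mem_product]
    refine ⟨⟨Nat.mem_divisors.mpr ⟨dd_dvd m hm _ _, hm.ne_zero⟩,
      Nat.mem_divisors.mpr ⟨dd_dvd m hm _ _, hm.ne_zero⟩⟩, fun p hp => ?_⟩
    rw [Nat.mem_primeFactors] at hp
    have l1 := hloc d hd p hp.1 hp.2.1
    have l2 := hloc d' hd' p hp.1 hp.2.1
    obtain ⟨k1, k2⟩ := hdat d.1 d'.1 (hS d hd).1 (hS d' hd').1 c1
      (fun q hq hqm => (c3 q hq hqm).1) p hp.1
    obtain ⟨k3, k4⟩ := hdat d.2 d'.2 (hS d hd).2 (hS d' hd').2 c2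
      (fun q hq hqm => (c3 q hq hqm).2) p hp.1
    show L p (dv p (dd m d.1 d'.1)) (dv p (dd m d.2 d'.2))
      (sgn p (dd m d.1 d'.1)) (sgn p (dd m d.2 d'.2))
    rw [k1, k2, k3, k4]
    exact (hL p hp.1 hp.2.1).2 _ _ _ _ _ _ _ _ l1 l2
  -- the counting map
  by_cases hne : Sl.Nonempty
  · have : Nonempty Sl := hne.to_subtype
    obtain ⟨rep, hrep⟩ : ∃ rep : Out OP → Sl, ∀ d : Sl,
        outs OP (rep (outs OP d.1)).1 = outs OP d.1 :=
      ⟨Function.invFun (fun d : Sl => outs OP d.1), fun d =>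
        Function.invFun_eq (f := fun d : Sl => outs OP d.1) ⟨d, rfl⟩⟩
    obtain ⟨kk, hkk⟩ : ∃ kk : Sl → Out OP × (ℕ × ℕ), ∀ d : Sl,
        kk d = (outs OP d.1, (dd m d.1.1 (rep (outs OP d.1)).1.1,
          dd m d.1.2 (rep (outs OP d.1)).1.2)) := ⟨_, fun d => rfl⟩
    have hmem : ∀ d : Sl, kk d ∈ (Finset.univ : Finset (Out OP)) ×ˢ F := by
      intro d
      rw [hkk, Finset.mem_product]
      exact ⟨Finset.mem_univ _, hFmem d.1 _ d.2 (rep _).2 (hrep d).symm⟩
    have hinj : Function.Injective kk := by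
      intro d e hde
      rw [hkk, hkk] at hde
      have h1 : outs OP d.1 = outs OP e.1 := congrArg Prod.fst hde
      have h2 := congrArg (fun z => z.2.1) hde
      have h3 := congrArg (fun z => z.2.2) hde
      simp only at h2 h3
      rw [← h1] at h2 h3
      obtain ⟨c1, c2, c3⟩ := hcmp d.1 e.1 d.2 e.2 h1
      obtain ⟨u1, u2, u3⟩ := hcmp d.1 _ d.2 (rep (outs OP d.1)).2 (hrep d).symm
      obtain ⟨v1, v2, v3⟩ := hcmp e.1 (rep (outs OP d.1)).1 e.2 (rep (outs OP d.1)).2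
        (h1.symm.trans (hrep d).symm)
      apply Subtype.ext
      apply Prod.ext
      · apply eq_of_dvd _ _ (hS _ d.2).1 (hS _ e.2).1 c1
        intro p hp
        have k1 := (hdat d.1.1 _ (hS _ d.2).1 (hS _ (rep (outs OP d.1)).2).1 u1
          (fun q hq hqm => (u3 q hq hqm).1) p hp).1
        have k2 := (hdat e.1.1 _ (hS _ e.2).1 (hS _ (rep (outs OP d.1)).2).1 v1
          (fun q hq hqm => (v3 q hq hqm).1) p hp).1
        rw [h2, k2] at k1
        revert k1
        generalize dv p d.1.1 = a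
        generalize dv p e.1.1 = b
        generalize dv p (rep (outs OP d.1)).1.1 = c
        cases a <;> cases b <;> cases c <;> simp
      · apply eq_of_dvd _ _ (hS _ d.2).2 (hS _ e.2).2 c2
        intro p hp
        have k1 := (hdat d.1.2 _ (hS _ d.2).2 (hS _ (rep (outs OP d.1)).2).2 u2
          (fun q hq hqm => (u3 q hq hqm).2) p hp).1
        have k2 := (hdat e.1.2 _ (hS _ e.2).2 (hS _ (rep (outs OP d.1)).2).2 v2
          (fun q hq hqm => (v3 q hq hqm).2) p hp).1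
        rw [h3, k2] at k1
        revert k1
        generalize dv p d.1.2 = a
        generalize dv p e.1.2 = b
        generalize dv p (rep (outs OP d.1)).1.2 = c
        cases a <;> cases b <;> cases c <;> simp
    have hfin : Finite Sl := by
      have hmaps : ∀ d : Sl, kk d ∈ (((Finset.univ : Finset (Out OP)) ×ˢ F : Finset _) :
          Set (Out OP × (ℕ × ℕ))) := fun d => Finset.mem_coe.mpr (hmem d)
      exact Finite.of_injective
        (fun d : Sl => (⟨kk d, hmem d⟩ :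
          {z // z ∈ (Finset.univ : Finset (Out OP)) ×ˢ F}))
        (fun d e hde => hinj (congrArg Subtype.val hde))
    refine ⟨Set.toFinite _, ?_⟩
    have hcard : Sl.ncard ≤ ((Finset.univ : Finset (Out OP)) ×ˢ F).card := by
      rw [← Nat.card_coe_set_eq]
      have := Fintype.ofFinite Sl
      rw [Nat.card_eq_fintype_card, ← Finset.card_univ]
      exact Finset.card_le_card_of_injOn kk (fun d _ => hmem d) hinj.injOn
    refine hcard.trans ?_
    rw [Finset.card_product, Finset.card_univ, card_out, hFcard]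
  · rw [Set.not_nonempty_iff_eq_empty] at hne
    rw [hne]
    exact ⟨Set.finite_empty, by simp⟩


lemma badA {A : ℕ → Prop} [DecidablePred A] {f : Fin 3 → ℤ} {D : ℤ} {z y X K B m' : ℕ}
    (hz : 2 ≤ z) (hD : D ≠ 0)
    (h0 : ∀ j, f j ≠ 0) (hb : ∀ j, (f j).natAbs ≤ X ^ B) (hK : X < (y + 1) ^ K) (hy : 1 ≤ y)
    (hm' : ∀ q : ℕ, q.Prime → A q → q ∣ ∏ j, S1 z y f j → ¬ q ∣ D.natAbs → q ∣ m') :
    (Icc 1 z ∪ (2 * (D * f 0) * (D * f 1) * (D * f 2)).natAbs.primeFactors.filter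
        (fun q => ¬ q ∣ m' ∧ A q)).card ≤
      z + Fintype.card (Fin 3) * (B * K) + ∑ j, (S2 z y f j).primeFactors.card
        + D.natAbs.primeFactors.card := by
  have hsub : (Icc 1 z ∪ (2 * (D * f 0) * (D * f 1) * (D * f 2)).natAbs.primeFactors.filter
        (fun q => ¬ q ∣ m' ∧ A q)) ⊆
      (((Icc 1 z) ∪ univ.biUnion (fun j => (f j).natAbs.primeFactors.filter (y < ·))) ∪
        univ.biUnion (fun j => (S2 z y f j).primeFactors)) ∪ D.natAbs.primeFactors := by
    intro q hq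
    rw [mem_union] at hq
    rcases hq with hq | hq
    · rw [mem_union, mem_union, mem_union]
      exact Or.inl (Or.inl (Or.inl hq))
    rw [mem_filter] at hq
    have hp := Nat.prime_of_mem_primeFactors hq.1
    have hdv := Nat.dvd_of_mem_primeFactors hq.1
    rw [mem_union, mem_union, mem_union, mem_Icc]
    rcases Nat.lt_or_ge z q with h | h
    swap
    · exact Or.inl (Or.inl (Or.inl ⟨hp.one_lt.le, h⟩))
    by_cases hqD : q ∣ D.natAbs
    · right
      rw [Nat.mem_primeFactors]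
      exact ⟨hp, hqD, Int.natAbs_ne_zero.2 hD⟩
    left
    have hqD' : ¬ (q : ℤ) ∣ D := fun h => hqD (Int.natCast_dvd.1 h)
    have hqi : Prime (q : ℤ) := Nat.prime_iff_prime_int.1 hp
    have hdv2 : (q : ℤ) ∣ 2 * (D * f 0) * (D * f 1) * (D * f 2) := Int.natCast_dvd.2 hdv
    have hl : ∃ l, (q : ℤ) ∣ f l := by
      rcases hqi.dvd_or_dvd hdv2 with h1 | h1
      · rcases hqi.dvd_or_dvd h1 with h2 | h2
        · rcases hqi.dvd_or_dvd h2 with h3 | h3
          · exfalso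
            have h4 : q ∣ 2 := by exact_mod_cast h3
            have h5 := Nat.le_of_dvd (by norm_num) h4
            omega
          · exact ⟨0, (hqi.dvd_or_dvd h3).resolve_left hqD'⟩
        · exact ⟨1, (hqi.dvd_or_dvd h2).resolve_left hqD'⟩
      · exact ⟨2, (hqi.dvd_or_dvd h1).resolve_left hqD'⟩
    obtain ⟨l, hl⟩ := hl
    rcases Nat.lt_or_ge y q with hyq | hyq
    · left; right
      rw [mem_biUnion]
      refine ⟨l, mem_univ _, ?_⟩
      rw [mem_filter, Nat.mem_primeFactors]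
      exact ⟨⟨hp, Int.natCast_dvd.1 hl, Int.natAbs_ne_zero.2 (h0 l)⟩, hyq⟩
    · right
      have hPS : q ∈ PS z y := mem_PS.2 ⟨⟨h, hyq⟩, hp⟩
      rw [mem_biUnion]
      refine ⟨l, mem_univ _, ?_⟩
      have hsq : (q : ℤ) ^ 2 ∣ f l := by
        by_contra hcon
        apply hq.2.1
        refine hm' q hp hq.2.2 (dvd_trans ?_ (dvd_prod_of_mem _ (mem_univ l))) hqD
        exact dvd_prod_of_mem _ (mem_filter.2 ⟨hPS, hl, hcon⟩)
      rw [Nat.mem_primeFactors]
      refine ⟨hp, dvd_prod_of_mem _ (mem_filter.2 ⟨hPS, hsq⟩), ?_⟩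
      exact prod_ne_zero_iff.2 fun p hp => (mem_PS.1 (mem_filter.1 hp).1).2.ne_zero
  have hone : ∀ j, ((f j).natAbs.primeFactors.filter (y < ·)).card ≤ B * K := by
    intro j
    set S := (f j).natAbs.primeFactors.filter (y < ·) with hS
    have h1 : (y + 1) ^ S.card ≤ ∏ q ∈ S, q :=
      Finset.pow_card_le_prod _ _ _ (fun q hq => by
        have := (mem_filter.1 hq).2
        omega)
    have h2 : ∏ q ∈ S, q ∣ (f j).natAbs :=
      (prod_dvd_prod_of_subset _ _ _ (filter_subset _ _)).trans (Nat.prod_primeFactors_dvd _)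
    have h3 : ∏ q ∈ S, q ≤ (f j).natAbs :=
      Nat.le_of_dvd (Nat.pos_of_ne_zero (Int.natAbs_ne_zero.2 (h0 j))) h2
    have h4 : (y + 1) ^ S.card ≤ (y + 1) ^ (B * K) := by
      calc (y + 1) ^ S.card ≤ X ^ B := h1.trans (h3.trans (hb j))
        _ ≤ ((y + 1) ^ K) ^ B := Nat.pow_le_pow_left hK.le _
        _ = (y + 1) ^ (B * K) := by rw [← pow_mul, mul_comm]
    exact (Nat.pow_le_pow_iff_right (by omega)).1 h4
  refine (card_le_card hsub).trans ((card_union_le _ _).trans (add_le_add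
    ((card_union_le _ _).trans (add_le_add
    ((card_union_le _ _).trans (add_le_add ?_ ?_)) card_biUnion_le)) le_rfl))
  · simp
  · refine card_biUnion_le.trans ?_
    refine (sum_le_sum fun j _ => hone j).trans ?_
    rw [sum_const, card_univ, smul_eq_mul]


end Pool.Agent.Y669
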