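import Pool.Agent.W586.RK.UB

/-!
# Upper bound for sums of real characters over the primes in the kernel of a Dirichlet character

Extension of `Pool.Agent.W586.RK.UB.ub`.
-/

set_option autoImplicit false

namespace Pool.Agent.Y669.UBA

open Finset Filter Topology Pool.Agent.W262.RK
open Pool.Agent.W586.RK.UB (ff ff_apply ff_abs ff_per exp_le_inv L_bound)

/-- real parts -/
lemma L_boundC {f : ℕ → ℂ} {q : ℕ} (hq : 1 ≤ q) (hf1 : ∀ n, ‖f n‖ ≤ 1)
    (hper : Function.Periodic f q) (hz : ∑ n ∈ range q, f n = 0) (s : ℝ) (hs : 0 < s)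
    (hsum : Summable (fun n : ℕ => (((n : ℝ) ^ (-(1 + s)) : ℝ) : ℂ) * f n)) :
    ‖∑' n : ℕ, (((n : ℝ) ^ (-(1 + s)) : ℝ) : ℂ) * f n‖ ≤ Real.log q + 2 := by
  obtain ⟨S, hS⟩ : ∃ S, S = ∑' n : ℕ, (((n : ℝ) ^ (-(1 + s)) : ℝ) : ℂ) * f n := ⟨_, rfl⟩
  rw [← hS]
  obtain ⟨u, hu1, hu⟩ : ∃ u : ℂ, ‖u‖ = 1 ∧ u * S = ‖S‖ := by
    by_cases h0 : S = 0
    · exact ⟨1, by simp, by simp [h0]⟩
    · refine ⟨(‖S‖ : ℂ) / S, ?_, ?_⟩
      · rw [norm_div, Complex.norm_real, norm_norm]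
        exact div_self (norm_ne_zero_iff.2 h0)
      · rw [div_mul_cancel₀ _ h0]
  set F : ℕ → ℝ := fun n => (u * f n).re with hF
  have hterm : ∀ n : ℕ, (n : ℝ) ^ (-(1 + s)) * F n =
      (u * ((((n : ℝ) ^ (-(1 + s)) : ℝ) : ℂ) * f n)).re := by
    intro n
    rw [hF]
    simp only
    rw [show u * ((((n : ℝ) ^ (-(1 + s)) : ℝ) : ℂ) * f n) =
      (((n : ℝ) ^ (-(1 + s)) : ℝ) : ℂ) * (u * f n) by ring, Complex.re_ofReal_mul]
  have hsum2 : HasSum (fun n : ℕ => u * ((((n : ℝ) ^ (-(1 + s)) : ℝ) : ℂ) * f n)) (u * S) := by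
    rw [hS]
    exact hsum.hasSum.mul_left u
  have hsum3 : HasSum (fun n : ℕ => (n : ℝ) ^ (-(1 + s)) * F n) ‖S‖ := by
    have h := Complex.hasSum_re hsum2
    rw [hu, Complex.ofReal_re] at h
    refine h.congr_fun ?_
    intro n
    exact hterm n
  rw [← hsum3.tsum_eq]
  refine L_bound hq ?_ ?_ ?_ s hs hsum3.summable
  · intro n
    rw [hF]
    simp only
    refine (Complex.abs_re_le_norm _).trans ?_
    rw [norm_mul, hu1, one_mul]
    exact hf1 n
  · intro n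
    rw [hF]
    simp only
    rw [hper n]
  · rw [hF]
    rw [← Complex.re_sum, ← mul_sum, hz, mul_zero, Complex.zero_re]

lemma one_sub_norm_le (w : ℂ) (hw : ‖w‖ ≤ 1) (x : ℝ) (hx : 0 ≤ x) :
    ‖1 - (x : ℂ) * w‖ ≤ Real.exp (-(x * w.re) + x ^ 2 / 2) := by
  have h1 : ‖1 - (x : ℂ) * w‖ ^ 2 = 1 - 2 * (x * w.re) + x ^ 2 * ‖w‖ ^ 2 := by
    rw [← Complex.normSq_eq_norm_sq, ← Complex.normSq_eq_norm_sq, Complex.normSq_apply,
      Complex.normSq_apply]
    simp only [Complex.sub_re, Complex.one_re, Complex.mul_re, Complex.ofReal_re,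
      Complex.ofReal_im, Complex.sub_im, Complex.one_im, Complex.mul_im, zero_mul, sub_zero]
    ring
  have h2 : x ^ 2 * ‖w‖ ^ 2 ≤ x ^ 2 := by
    have : ‖w‖ ^ 2 ≤ 1 := pow_le_one₀ (norm_nonneg _) hw
    nlinarith [sq_nonneg x]
  have h3 : ‖1 - (x : ℂ) * w‖ ^ 2 ≤ Real.exp (-(x * w.re) + x ^ 2 / 2) ^ 2 := by
    rw [h1, ← Real.exp_nat_mul]
    have h4 := Real.add_one_le_exp (-(2 * (x * w.re)) + x ^ 2)
    have h5 : ((2 : ℕ) : ℝ) * (-(x * w.re) + x ^ 2 / 2) = -(2 * (x * w.re)) + x ^ 2 := by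
      push_cast
      ring
    rw [h5]
    linarith
  exact le_of_sq_le_sq h3 (Real.exp_pos _).le

lemma exp_le_inv2 {u : ℝ} (hu0 : 0 ≤ u) (hu : u < 1) : Real.exp (u + u ^ 2 / 2) ≤ (1 - u)⁻¹ := by
  have h2 : 0 < 1 - u := by linarith
  rw [← Real.le_log_iff_exp_le (inv_pos.2 h2), Real.log_inv]
  have h3 := Real.hasSum_pow_div_log_of_abs_lt_one (x := u) (by rw [abs_of_nonneg hu0]; exact hu)
  have h4 := sum_le_hasSum (range 2) (fun i _ => by positivity) h3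
  simp only [sum_range_succ, range_zero, sum_empty, zero_add, Nat.cast_zero, Nat.cast_one,
    pow_one, div_one] at h4
  norm_num at h4
  linarith

lemma euler_lowerC (f : ℕ →*₀ ℂ) (hf1 : ∀ n, ‖f n‖ ≤ 1) (s : ℝ) (hs : 0 < s) (hs1 : s ≤ 1)
    (T : Finset Nat.Primes) :
    Summable (fun n : ℕ => (((n : ℝ) ^ (-(1 + s)) : ℝ) : ℂ) * f n) ∧
    Real.exp (∑ p ∈ T, (1 + (f (p : ℕ)).re) * ((p : ℕ) : ℝ) ^ (-(1 + s))) ≤
      2 / s * ‖∑' n : ℕ, (((n : ℝ) ^ (-(1 + s)) : ℝ) : ℂ) * f n‖ := by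
  obtain ⟨hsum, hle⟩ := Pool.Agent.H304R3.MO.zeta_bound s hs hs1
  let g : ℕ →*₀ ℝ :=
    { toFun := fun n => (n : ℝ) ^ (-(1 + s))
      map_zero' := by
        rw [Nat.cast_zero]
        exact Real.zero_rpow (by linarith)
      map_one' := by simp
      map_mul' := fun a b => by
        rw [Nat.cast_mul, Real.mul_rpow (Nat.cast_nonneg _) (Nat.cast_nonneg _)] }
  have hg : ∀ n : ℕ, g n = (n : ℝ) ^ (-(1 + s)) := fun n => rfl
  let h : ℕ →*₀ ℂ :=
    { toFun := fun n => (g n : ℂ) * f n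
      map_zero' := by simp
      map_one' := by simp
      map_mul' := fun a b => by
        rw [map_mul, map_mul, Complex.ofReal_mul]; ring }
  have hh : ∀ n : ℕ, h n = (g n : ℂ) * f n := fun n => rfl
  have hgn : ∀ n, 0 ≤ g n := fun n => by rw [hg]; exact Real.rpow_nonneg (Nat.cast_nonneg _) _
  have hnorm : Summable (fun n => ‖g n‖) := by
    refine hsum.congr fun n => ?_
    rw [Real.norm_of_nonneg (hgn n), hg]
  have hhg : ∀ n, ‖h n‖ ≤ g n := by
    intro n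
    rw [hh, norm_mul, Complex.norm_real, Real.norm_of_nonneg (hgn n)]
    have := mul_le_mul_of_nonneg_left (hf1 n) (hgn n)
    linarith
  have hnorm' : Summable (fun n => ‖h n‖) := by
    refine Summable.of_nonneg_of_le (fun n => norm_nonneg _) (fun n => hhg n) (f := fun n => g n) ?_
    exact hsum
  have hp1 := EulerProduct.eulerProduct_completely_multiplicative_hasProd (f := g) hnorm
  have hp2 := (EulerProduct.eulerProduct_completely_multiplicative_hasProd (f := h) hnorm').map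
    (normHom : ℂ →*₀ ℝ).toMonoidHom (by exact continuous_norm)
  have hp := hp1.mul hp2
  have hlt : ∀ p : Nat.Primes, g p < 1 := by
    intro p
    have h2 : (1 : ℝ) < ((p : ℕ) : ℝ) := by exact_mod_cast p.2.one_lt
    rw [hg]
    exact Real.rpow_lt_one_of_one_lt_of_neg h2 (by linarith)
  have hval : ∀ p : Nat.Primes, (((normHom : ℂ →*₀ ℝ).toMonoidHom : ℂ → ℝ) ∘
      fun p : Nat.Primes => (1 - h p)⁻¹) p = ‖1 - h p‖⁻¹ := by
    intro p
    show ‖(1 - h p)⁻¹‖ = _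
    exact norm_inv _
  have hne : ∀ p : Nat.Primes, 0 < ‖1 - h p‖ := by
    intro p
    rw [norm_pos_iff]
    intro h0
    have h1 : h p = 1 := (sub_eq_zero.1 h0).symm
    have h2 := hhg p
    rw [h1, norm_one] at h2
    linarith [hlt p]
  have hfac : ∀ p : Nat.Primes, Real.exp ((1 + (f (p : ℕ)).re) * ((p : ℕ) : ℝ) ^ (-(1 + s))) ≤
      (1 - g p)⁻¹ * ‖1 - h p‖⁻¹ := by
    intro p
    have e : (1 + (f (p : ℕ)).re) * ((p : ℕ) : ℝ) ^ (-(1 + s)) = (g p + g p ^ 2 / 2) +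
        -(-(g p * (f (p : ℕ)).re) + g p ^ 2 / 2) := by
      rw [← hg]; ring
    rw [e, Real.exp_add]
    refine mul_le_mul (exp_le_inv2 (hgn p) (hlt p)) ?_ (Real.exp_pos _).le
      (inv_nonneg.2 (by linarith [hlt p]))
    rw [Real.exp_neg]
    refine inv_anti₀ (hne p) ?_
    rw [hh]
    exact one_sub_norm_le _ (hf1 _) _ (hgn _)
  have hge1 : ∀ p : Nat.Primes, 1 ≤ (1 - g p)⁻¹ * ‖1 - h p‖⁻¹ := by
    intro p
    refine le_trans (Real.one_le_exp ?_) (hfac p)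
    have h1 := (abs_le.1 ((Complex.abs_re_le_norm (f (p : ℕ))).trans (hf1 p))).1
    exact mul_nonneg (by linarith) (Real.rpow_nonneg (Nat.cast_nonneg _) _)
  have hge : ∏ p ∈ T, (1 - g p)⁻¹ * ‖1 - h p‖⁻¹ ≤ (∑' n, g n) * ‖∑' n, h n‖ := by
    refine ge_of_tendsto hp ?_
    filter_upwards [eventually_ge_atTop T] with T' hT'
    have hone : 1 ≤ ∏ p ∈ T' \ T, (1 - g p)⁻¹ * ‖1 - h p‖⁻¹ := by
      have h := Finset.prod_le_prod (s := T' \ T) (f := fun _ : Nat.Primes => (1 : ℝ))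
        (g := fun p : Nat.Primes => (1 - g p)⁻¹ * ‖1 - h p‖⁻¹) (fun _ _ => zero_le_one)
        (fun p _ => hge1 p)
      simpa using h
    have hT0 : 0 < ∏ p ∈ T, (1 - g p)⁻¹ * ‖1 - h p‖⁻¹ :=
      Finset.prod_pos fun p _ => lt_of_lt_of_le one_pos (hge1 p)
    have hcalc : ∏ p ∈ T, (1 - g p)⁻¹ * ‖1 - h p‖⁻¹ ≤
        ∏ p ∈ T', (1 - g p)⁻¹ * ‖1 - h p‖⁻¹ := by
      rw [← Finset.prod_sdiff hT']
      nlinarith
    refine hcalc.trans (le_of_eq ?_)
    refine Finset.prod_congr rfl fun p _ => ?_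
    rw [hval p]
  have hexp : Real.exp (∑ p ∈ T, (1 + (f (p : ℕ)).re) * ((p : ℕ) : ℝ) ^ (-(1 + s))) ≤
      (∑' n, g n) * ‖∑' n, h n‖ := by
    rw [Real.exp_sum]
    exact (Finset.prod_le_prod (fun p _ => (Real.exp_pos _).le) (fun p _ => hfac p)).trans hge
  refine ⟨hnorm'.of_norm, hexp.trans ?_⟩
  exact mul_le_mul_of_nonneg_right hle (norm_nonneg _)

lemma sum_periodC {f : ℕ → ℂ} {q n0 : ℕ} (hq : q ≠ 0) (hper : Function.Periodic f q)
    (hc : Nat.Coprime n0 q) (h : ∀ n, f (n0 * n) = - f n) : ∑ n ∈ range q, f n = 0 := by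
  have : NeZero q := ⟨hq⟩
  have e1 : ∑ x ∈ range q, f x = ∑ x : ZMod q, f x.val := by
    rw [← Fin.sum_univ_eq_sum_range (fun x => f x)]
    apply (Fintype.sum_equiv (ZMod.finEquiv q).toEquiv _ _ _)
    intro x
    congr 1
    cases q with
    | zero => exact absurd rfl hq
    | succ N => rfl
  obtain ⟨u, hu⟩ := (ZMod.isUnit_iff_coprime n0 q).2 hc
  have e2 : ∑ x : ZMod q, f x.val = ∑ x : ZMod q, f (((u : ZMod q) * x).val) := by
    exact (Fintype.sum_equiv (Units.mulLeft u) _ _ (fun x => by simp)).symm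
  have e3 : ∀ x : ZMod q, f (((u : ZMod q) * x).val) = - f x.val := by
    intro x
    rw [← h]
    have h5 : (((u : ZMod q) * x).val : ℕ) = (n0 * x.val) % q := by
      rw [hu, ← ZMod.val_natCast, Nat.cast_mul, ZMod.natCast_zmod_val]
    rw [h5, hper.map_mod_nat]
  simp_rw [e3, sum_neg_distrib] at e2
  rw [e1]
  have h2 : (2 : ℂ) * ∑ x : ZMod q, f x.val = 0 := by linear_combination e2
  exact (mul_eq_zero.1 h2).resolve_left two_ne_zero

lemma ff_existsN (κ : ℤ) (z r N : ℕ) (e : Bool) (hκ : κ ≠ 0) (hz : 2 ≤ z) (hκz : κ.natAbs ≤ z)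
    (hN0 : N ≠ 0) (hNz : N ≤ z)
    (hr1 : 1 < r) (hr : Squarefree r) (hrp : ∀ p : ℕ, p.Prime → p ∣ r → z < p) :
    ∃ n0 : ℕ, Nat.Coprime n0 (4 * κ.natAbs * r * N) ∧ ff κ r e n0 = -1 ∧ n0 ≡ 1 [MOD N] := by
  obtain ⟨p, hp, hpr⟩ := Nat.exists_prime_and_dvd hr1.ne'
  obtain ⟨m, hm⟩ := hpr
  have hzp := hrp p hp ⟨m, hm⟩
  have hfp : Fact p.Prime := ⟨hp⟩
  have hm0 : m ≠ 0 := by rintro rfl; omega
  have hcpm : Nat.Coprime p m := by
    rw [hm] at hr
    exact Nat.coprime_of_squarefree_mul hr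
  have hκ0 : 0 < κ.natAbs := Int.natAbs_pos.2 hκ
  have hcp4 : Nat.Coprime p 4 := by
    rw [Nat.Prime.coprime_iff_not_dvd hp]
    intro h
    have := (Nat.Prime.dvd_of_dvd_pow hp (show p ∣ 2 ^ 2 from h))
    have := Nat.le_of_dvd (by norm_num) this
    omega
  have hcpκ : Nat.Coprime p κ.natAbs := by
    rw [Nat.Prime.coprime_iff_not_dvd hp]
    intro h
    have := Nat.le_of_dvd hκ0 h
    omega
  have hcpN : Nat.Coprime p N := by
    rw [Nat.Prime.coprime_iff_not_dvd hp]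
    intro h
    have := Nat.le_of_dvd (Nat.pos_of_ne_zero hN0) h
    omega
  have hcop : Nat.Coprime p (4 * κ.natAbs * m * N) :=
    ((hcp4.mul_right hcpκ).mul_right hcpm).mul_right hcpN
  obtain ⟨b, hb⟩ := FiniteField.exists_nonsquare (F := ZMod p)
    (by rw [ZMod.ringChar_zmod_n]; omega)
  obtain ⟨a, ha1, ha2⟩ := Nat.chineseRemainder hcop b.val 1
  have h1 : jacobiSym a p = -1 := by
    rw [← jacobiSym.legendreSym.to_jacobiSym, legendreSym.eq_neg_one_iff]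
    have : ((a : ℤ) : ZMod p) = b := by
      have := (ZMod.natCast_eq_natCast_iff a b.val p).2 ha1
      push_cast
      rw [this, ZMod.natCast_zmod_val]
    rwa [this]
  have haN : a ≡ 1 [MOD N] := by
    have : a ≡ 1 [MOD N * (4 * κ.natAbs * m)] := by rw [mul_comm]; exact ha2
    exact this.of_mul_right _
  have ha2' : a ≡ 1 [MOD 4 * κ.natAbs * m] := ha2.of_mul_right _
  have ha4κ : a ≡ 1 [MOD 4 * κ.natAbs] := ha2'.of_mul_right _
  have ham : a ≡ 1 [MOD m] := by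
    have : a ≡ 1 [MOD m * (4 * κ.natAbs)] := by rw [mul_comm]; exact ha2'
    exact this.of_mul_right _
  have ha4 : a ≡ 1 [MOD 4] := ha4κ.of_mul_right _
  have haodd : Odd a := by
    have : a % 4 = 1 % 4 := ha4
    rw [Nat.odd_iff]
    omega
  have h2 : jacobiSym a m = 1 := by
    have : jacobiSym a m = jacobiSym (1 : ℤ) m := by
      apply jacobiSym.mod_left'
      exact_mod_cast ham
    rw [this, jacobiSym.one_left]
  have h3 : jacobiSym a r = -1 := by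
    rw [hm, jacobiSym.mul_right' _ hp.ne_zero hm0, h1, h2]; norm_num
  have h4 : jacobiSym κ a = 1 := by
    rw [jacobiSym.mod_right κ haodd]
    have : a % (4 * κ.natAbs) = 1 := by
      have h5 : a % (4 * κ.natAbs) = 1 % (4 * κ.natAbs) := ha4κ
      rw [h5]
      exact Nat.mod_eq_of_lt (by omega)
    rw [this, jacobiSym.one_right]
  have h5 : x4 e a = 1 := by
    unfold x4
    have : (a : ZMod 4) = 1 := by
      have := (ZMod.natCast_eq_natCast_iff a 1 4).2 ha4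
      simpa using this
    rw [this]
    simp
  refine ⟨a, ?_, ?_, haN⟩
  · have hap : Nat.Coprime a p := by
      by_contra hc
      have : jacobiSym a p = 0 := by
        rw [jacobiSym.eq_zero_iff]
        refine ⟨hp.ne_zero, ?_⟩
        rw [Int.gcd_natCast_natCast]; exact hc
      rw [h1] at this
      norm_num at this
    have ha' : Nat.Coprime a (4 * κ.natAbs * m * N) := by
      have := ha2.gcd_eq
      unfold Nat.Coprime
      rw [this]; simp
    have : 4 * κ.natAbs * r * N = p * (4 * κ.natAbs * m * N) := by rw [hm]; ring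
    rw [this]
    exact hap.mul_right ha'
  · rw [ff_apply, if_pos haodd]
    unfold Jr
    rw [h3, h4, h5]
    norm_num

/-- the twisted character -/
noncomputable def fj {N : ℕ} (ψ : DirichletCharacter ℂ N) (j : ℕ) (κ : ℤ) (r : ℕ) (e : Bool) :
    ℕ →*₀ ℂ where
  toFun n := (ff κ r e n : ℂ) * (ψ (n : ZMod N)) ^ j
  map_zero' := by simp
  map_one' := by simp
  map_mul' m n := by
    rw [map_mul, Nat.cast_mul, map_mul, Complex.ofReal_mul, mul_pow]; ring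

lemma fj_apply {N : ℕ} (ψ : DirichletCharacter ℂ N) (j : ℕ) (κ : ℤ) (r : ℕ) (e : Bool) (n : ℕ) :
    fj ψ j κ r e n = (ff κ r e n : ℂ) * (ψ (n : ZMod N)) ^ j := rfl

lemma fj_norm {N : ℕ} (ψ : DirichletCharacter ℂ N) (j : ℕ) (κ : ℤ) (r : ℕ) (e : Bool) (n : ℕ) :
    ‖fj ψ j κ r e n‖ ≤ 1 := by
  rw [fj_apply, norm_mul, norm_pow, Complex.norm_real]
  exact mul_le_one₀ (ff_abs κ r e n) (by positivity)
    (pow_le_one₀ (norm_nonneg _) (DirichletCharacter.norm_le_one ψ _))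

lemma fj_re {N : ℕ} (ψ : DirichletCharacter ℂ N) (j : ℕ) (κ : ℤ) (r : ℕ) (e : Bool) (n : ℕ) :
    (fj ψ j κ r e n).re = ff κ r e n * ((ψ (n : ZMod N)) ^ j).re := by
  rw [fj_apply, Complex.re_ofReal_mul]

lemma fj_per {N : ℕ} (ψ : DirichletCharacter ℂ N) (j : ℕ) (κ : ℤ) (r : ℕ) (e : Bool) :
    Function.Periodic (fj ψ j κ r e) (4 * κ.natAbs * r * N) := by
  intro n
  rw [fj_apply, fj_apply]
  have h1 : ff κ r e (n + 4 * κ.natAbs * r * N) = ff κ r e n := by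
    rw [mul_comm _ N]
    exact (ff_per κ r e).nat_mul N n
  have h2 : ((n + 4 * κ.natAbs * r * N : ℕ) : ZMod N) = (n : ZMod N) := by
    push_cast
    simp
  rw [h1, h2]

theorem ubc (N : ℕ) (hN0 : N ≠ 0) (ψ : DirichletCharacter ℂ N) (j : ℕ) (κ : ℤ) (z : ℕ)
    (hκ : κ ≠ 0) (hz : 2 ≤ z) (hκz : κ.natAbs ≤ z) (hNz : N ≤ z) : ∃ C : ℝ,
    ∀ (y r : ℕ) (e : Bool), z < y → 1 < r → Squarefree r → (∀ p : ℕ, p.Prime → p ∣ r → z < p) →
      ∑ p ∈ PS z y, (Jr p r * Jr κ p * x4 e p) * ((ψ (p : ZMod N)) ^ j).re / (p : ℝ) ≤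
        Real.log (Real.log r) + C := by
  obtain ⟨C1, hC1⟩ := Pool.Agent.Helper256.KM.mertens_log
  obtain ⟨C2, hC2⟩ := Pool.Agent.Helper256.KM.mertens_inv
  have hC10 : 0 ≤ C1 := (abs_nonneg _).trans (hC1 1 le_rfl)
  have hκ0 : 0 < κ.natAbs := Int.natAbs_pos.2 hκ
  have hNpos : 0 < N := Nat.pos_of_ne_zero hN0
  set K : ℝ := Real.log (4 * κ.natAbs * N) + 4 with hK
  have hlogκ : 0 ≤ Real.log (4 * κ.natAbs * N : ℝ) := by
    apply Real.log_nonneg
    have h1 : (1 : ℝ) ≤ κ.natAbs := by exact_mod_cast hκ0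
    have h2 : (1 : ℝ) ≤ N := by exact_mod_cast hNpos
    nlinarith
  have hK0 : 0 < K := by linarith
  have hl3 : 1 ≤ Real.log 3 := by
    rw [Real.le_log_iff_exp_le (by norm_num)]
    linarith [Real.exp_one_lt_d9]
  refine ⟨Real.log 2 + Real.log K + C2 + 2 + 2 * C1 + z, ?_⟩
  intro y r e hzy hr1 hr hrp
  have hy3 : 3 ≤ y := by omega
  have hr3 : 3 ≤ r := by
    obtain ⟨p, hp, hpr⟩ := Nat.exists_prime_and_dvd hr1.ne'
    have h1 := hrp p hp hpr
    have h2 := Nat.le_of_dvd (by omega) hpr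
    omega
  have hLy : 1 ≤ Real.log y :=
    hl3.trans (Real.log_le_log (by norm_num) (by exact_mod_cast hy3))
  have hLr : 1 ≤ Real.log r :=
    hl3.trans (Real.log_le_log (by norm_num) (by exact_mod_cast hr3))
  set s : ℝ := 1 / Real.log y with hs
  have hLy0 : 0 < Real.log y := by linarith
  have hs0 : 0 < s := by positivity
  have hs1 : s ≤ 1 := by rw [hs, div_le_one hLy0]; exact hLy
  set F := fj ψ j κ r e with hF
  set f : ℕ → ℝ := fun n => (F n).re with hf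
  have hfa : ∀ n, |f n| ≤ 1 := fun n =>
    (Complex.abs_re_le_norm _).trans (fj_norm ψ j κ r e n)
  set T : Finset Nat.Primes := Finset.subtype Nat.Prime (Icc 1 y) with hT
  have hconv : ∀ g : ℕ → ℝ, ∑ p ∈ T, g (p : ℕ) = ∑ p ∈ (Icc 1 y).filter Nat.Prime, g p := by
    intro g
    exact Finset.sum_subtype_eq_sum_filter (s := Icc 1 y) (p := Nat.Prime) g
  obtain ⟨hsum, hEL⟩ := euler_lowerC F (fj_norm ψ j κ r e) s hs0 hs1 T
  obtain ⟨n0, hn0, hn01, hn0N⟩ := ff_existsN κ z r N e hκ hz hκz hN0 hNz hr1 hr hrp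
  have hψ0 : ψ ((n0 : ℕ) : ZMod N) = 1 := by
    have h1 : ((n0 : ℕ) : ZMod N) = 1 := by
      have h2 := (ZMod.natCast_eq_natCast_iff n0 1 N).2 hn0N
      simpa using h2
    rw [h1, map_one]
  have hF0 : F n0 = -1 := by
    rw [hF, fj_apply, hn01, hψ0]
    simp
  have hq0 : 1 ≤ 4 * κ.natAbs * r * N := by
    have : 0 < 4 * κ.natAbs * r * N := by positivity
    omega
  have hLb := L_boundC hq0 (fj_norm ψ j κ r e) (fj_per ψ j κ r e)
    (sum_periodC (by omega) (fj_per ψ j κ r e) hn0 (fun n => by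
      rw [map_mul, ← hF, hF0]; ring)) s hs0 hsum
  have hlogq : Real.log ((4 * κ.natAbs * r * N : ℕ) : ℝ) =
      Real.log (4 * κ.natAbs * N) + Real.log r := by
    push_cast
    rw [← Real.log_mul (by positivity) (by positivity)]
    congr 1
    ring
  have hLK : ‖∑' n : ℕ, (((n : ℝ) ^ (-(1 + s)) : ℝ) : ℂ) * F n‖ ≤ K * Real.log r := by
    rw [hlogq] at hLb
    have : (Real.log (4 * κ.natAbs * N) + 3) * 1 ≤
        (Real.log (4 * κ.natAbs * N) + 3) * Real.log r :=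
      mul_le_mul_of_nonneg_left hLr (by linarith)
    rw [hK]
    refine hLb.trans ?_
    linarith
  have h2s : 2 / s = 2 * Real.log y := by
    rw [hs]; field_simp
  rw [h2s] at hEL
  have h1 : ∑ p ∈ T, (1 + f (p : ℕ)) * ((p : ℕ) : ℝ) ^ (-(1 + s)) ≤
      Real.log 2 + Real.log (Real.log y) + (Real.log K + Real.log (Real.log r)) := by
    have h2 := hEL.trans (mul_le_mul_of_nonneg_left hLK (by positivity))
    rw [← Real.log_mul (by positivity) (by linarith), ← Real.log_mul hK0.ne' (by linarith),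
      ← Real.log_mul (by positivity) (by positivity)]
    rw [Real.le_log_iff_exp_le (by positivity)]
    exact h2
  have h3 : ∑ p ∈ T, (1 + f (p : ℕ)) * ((p : ℕ) : ℝ) ^ (-(1 + s)) ≥
      ∑ p ∈ (Icc 1 y).filter Nat.Prime, ((1 : ℝ) / p + f p / p - 2 * s * (Real.log p / p)) := by
    rw [ge_iff_le, ← hconv (fun p => (1 : ℝ) / p + f p / p - 2 * s * (Real.log p / p))]
    refine sum_le_sum fun p _ => ?_
    have hp1 : (1 : ℝ) < ((p : ℕ) : ℝ) := by exact_mod_cast p.2.one_lt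
    have hp0 : (0 : ℝ) < ((p : ℕ) : ℝ) := by linarith
    have hlp : 0 < Real.log ((p : ℕ) : ℝ) := Real.log_pos hp1
    have h4 : ((p : ℕ) : ℝ) ^ (-(1 + s)) = ((p : ℕ) : ℝ) ^ (-s) / (p : ℕ) := by
      rw [show -(1 + s) = -s - 1 by ring, Real.rpow_sub hp0, Real.rpow_one]
    have h5 : 1 - s * Real.log ((p : ℕ) : ℝ) ≤ ((p : ℕ) : ℝ) ^ (-s) := by
      rw [Real.rpow_def_of_pos hp0]
      have := Real.add_one_le_exp (Real.log ((p : ℕ) : ℝ) * -s)
      linarith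
    have h6 := abs_le.1 (hfa p)
    have h7 : (1 + f (p : ℕ)) * (1 - s * Real.log ((p : ℕ) : ℝ)) ≤
        (1 + f (p : ℕ)) * ((p : ℕ) : ℝ) ^ (-s) := mul_le_mul_of_nonneg_left h5 (by linarith)
    have h8 : (1 + f (p : ℕ)) * (s * Real.log ((p : ℕ) : ℝ)) ≤ 2 * (s * Real.log ((p : ℕ) : ℝ)) :=
      mul_le_mul_of_nonneg_right (by linarith) (by positivity)
    have h9 : (1 + f (p : ℕ) - 2 * (s * Real.log ((p : ℕ) : ℝ))) ≤
        (1 + f (p : ℕ)) * ((p : ℕ) : ℝ) ^ (-s) := by linarith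
    calc (1 : ℝ) / (p : ℕ) + f p / (p : ℕ) - 2 * s * (Real.log (p : ℕ) / (p : ℕ))
        = (1 + f (p : ℕ) - 2 * (s * Real.log ((p : ℕ) : ℝ))) / (p : ℕ) := by ring
      _ ≤ ((1 + f (p : ℕ)) * ((p : ℕ) : ℝ) ^ (-s)) / (p : ℕ) :=
          div_le_div_of_nonneg_right h9 hp0.le
      _ = _ := by rw [h4]; ring
  rw [sum_sub_distrib, sum_add_distrib, ← mul_sum] at h3
  have h10 := (abs_le.1 (hC2 y hy3)).1
  have h11 := (abs_le.1 (hC1 y (by omega))).2
  have h12 : 2 * s * ∑ p ∈ (Icc 1 y).filter Nat.Prime, Real.log p / p ≤ 2 + 2 * C1 := by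
    have h13 : 2 * s * ∑ p ∈ (Icc 1 y).filter Nat.Prime, Real.log p / p ≤
        2 * s * (Real.log y + C1) := mul_le_mul_of_nonneg_left (by linarith) (by positivity)
    have h14 : 2 * s * (Real.log y + C1) = 2 + 2 * (s * C1) := by
      rw [hs]; field_simp
    have h15 : s * C1 ≤ 1 * C1 := mul_le_mul_of_nonneg_right hs1 hC10
    linarith
  have hmain : ∑ p ∈ (Icc 1 y).filter Nat.Prime, f p / (p : ℝ) ≤
      Real.log 2 + Real.log K + Real.log (Real.log r) + C2 + 2 + 2 * C1 := by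
    linarith
  -- the small primes
  have hsplit : ∑ p ∈ (Icc 1 y).filter Nat.Prime, f p / (p : ℝ) =
      ∑ p ∈ (Icc 1 z).filter Nat.Prime, f p / (p : ℝ) + ∑ p ∈ PS z y, f p / (p : ℝ) := by
    rw [← sum_union]
    · refine sum_congr ?_ fun _ _ => rfl
      ext p
      simp only [PS, mem_union, mem_filter, mem_Icc, mem_Ioc]
      constructor
      · rintro ⟨⟨h1, h2⟩, h3⟩
        rcases Nat.lt_or_ge z p with h4 | h4
        · right; exact ⟨⟨h4, h2⟩, h3⟩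
        · left; exact ⟨⟨h1, h4⟩, h3⟩
      · rintro (⟨⟨h1, h2⟩, h3⟩ | ⟨⟨h1, h2⟩, h3⟩)
        · exact ⟨⟨h1, by omega⟩, h3⟩
        · exact ⟨⟨by omega, h2⟩, h3⟩
    · rw [Finset.disjoint_left]
      intro p h1 h2
      simp only [PS, mem_filter, mem_Icc, mem_Ioc] at h1 h2
      omega
  have hsmall : -(z : ℝ) ≤ ∑ p ∈ (Icc 1 z).filter Nat.Prime, f p / (p : ℝ) := by
    have h16 : ∀ p ∈ (Icc 1 z).filter Nat.Prime, (-1 : ℝ) ≤ f p / (p : ℝ) := by
      intro p hp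
      rw [mem_filter, mem_Icc] at hp
      have hp0 : (1 : ℝ) ≤ p := by exact_mod_cast hp.1.1
      rw [le_div_iff₀ (by linarith)]
      have := (abs_le.1 (hfa p)).1
      linarith
    have h17 := Finset.card_nsmul_le_sum _ _ _ h16
    have h18 : ((Icc 1 z).filter Nat.Prime).card ≤ z := by
      refine (card_filter_le _ _).trans ?_
      simp
    have h19 : (((Icc 1 z).filter Nat.Prime).card : ℝ) ≤ z := by exact_mod_cast h18
    rw [nsmul_eq_mul] at h17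
    linarith
  have hfin : ∑ p ∈ PS z y, (Jr p r * Jr κ p * x4 e p) * ((ψ (p : ZMod N)) ^ j).re / (p : ℝ) =
      ∑ p ∈ PS z y, f p / (p : ℝ) := by
    refine sum_congr rfl fun p hp => ?_
    simp only [PS, mem_filter, mem_Ioc] at hp
    have hodd : Odd p := hp.2.odd_of_ne_two (by omega)
    rw [hf]
    simp only
    rw [hF, fj_re, ff_apply, if_pos hodd]
  rw [hfin]
  linarith

/-- the average of the powers of a root of unity -/
lemma avg_pow {m : ℕ} (hm : m ≠ 0) (w : ℂ) (hw : w ^ m = 1) :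
    ∑ j ∈ range m, (w ^ j).re = if w = 1 then (m : ℝ) else 0 := by
  rw [← Complex.re_sum]
  split_ifs with h
  · rw [h]; simp
  · have h1 : (∑ j ∈ range m, w ^ j) * (w - 1) = w ^ m - 1 := geom_sum_mul w m
    rw [hw, sub_self] at h1
    rw [(mul_eq_zero.1 h1).resolve_right (sub_ne_zero.2 h), Complex.zero_re]

open Classical in
/-- UBA: the sum over the primes with `ψ(p) = 1` -/
theorem uba (N : ℕ) (hN0 : N ≠ 0) (ψ : DirichletCharacter ℂ N) (m : ℕ) (hm : m ≠ 0)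
    (hψ : ψ ^ m = 1) (κ : ℤ) (z : ℕ)
    (hκ : κ ≠ 0) (hz : 2 ≤ z) (hκz : κ.natAbs ≤ z) (hNz : N ≤ z) : ∃ C : ℝ,
    ∀ (y r : ℕ) (e : Bool), z < y → 1 < r → Squarefree r → (∀ p : ℕ, p.Prime → p ∣ r → z < p) →
      ∑ p ∈ (PS z y).filter (fun p : ℕ => ψ (p : ZMod N) = 1),
        Jr p r * Jr κ p * x4 e p / (p : ℝ) ≤ Real.log (Real.log r) + C := by
  choose C hC using fun j : ℕ => ubc N hN0 ψ j κ z hκ hz hκz hNz
  have hm0 : (0 : ℝ) < m := by exact_mod_cast Nat.pos_of_ne_zero hm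
  refine ⟨(∑ j ∈ range m, C j) / m, fun y r e hy hr hrs hrp => ?_⟩
  have h1 : ∑ j ∈ range m, ∑ p ∈ PS z y, (Jr p r * Jr κ p * x4 e p) *
      ((ψ (p : ZMod N)) ^ j).re / (p : ℝ) ≤ ∑ j ∈ range m, (Real.log (Real.log r) + C j) :=
    sum_le_sum fun j _ => hC j y r e hy hr hrs hrp
  rw [sum_comm, sum_add_distrib, sum_const, card_range, nsmul_eq_mul] at h1
  have h2 : ∑ p ∈ PS z y, ∑ j ∈ range m, (Jr p r * Jr κ p * x4 e p) *
      ((ψ (p : ZMod N)) ^ j).re / (p : ℝ) =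
      m * ∑ p ∈ (PS z y).filter (fun p : ℕ => ψ (p : ZMod N) = 1),
        Jr p r * Jr κ p * x4 e p / (p : ℝ) := by
    rw [sum_filter, mul_sum]
    refine sum_congr rfl fun p hp => ?_
    have hp' : (z < p ∧ p ≤ y) ∧ p.Prime := by
      unfold PS at hp
      rw [mem_filter, mem_Ioc] at hp
      exact hp
    have hcop : Nat.Coprime p N := by
      rw [Nat.Prime.coprime_iff_not_dvd hp'.2]
      intro h
      have := Nat.le_of_dvd (Nat.pos_of_ne_zero hN0) h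
      omega
    have hunit : IsUnit ((p : ℕ) : ZMod N) := (ZMod.isUnit_iff_coprime p N).2 hcop
    have hw : (ψ ((p : ℕ) : ZMod N)) ^ m = 1 := by
      rw [← MulChar.pow_apply' _ hm, hψ, MulChar.one_apply hunit]
    have h3 := avg_pow hm _ hw
    have h4 : ∑ j ∈ range m, (Jr p r * Jr κ p * x4 e p) *
      ((ψ (p : ZMod N)) ^ j).re / (p : ℝ) = (Jr p r * Jr κ p * x4 e p) / p *
      ∑ j ∈ range m, ((ψ (p : ZMod N)) ^ j).re := by
      rw [mul_sum]
      refine sum_congr rfl fun j _ => ?_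
      ring
    rw [h4, h3]
    split_ifs
    · ring
    · ring
  rw [h2] at h1
  have h5 : ∑ p ∈ (PS z y).filter (fun p : ℕ => ψ (p : ZMod N) = 1),
        Jr p r * Jr κ p * x4 e p / (p : ℝ) ≤
        (m * Real.log (Real.log r) + ∑ j ∈ range m, C j) / m := by
    rw [le_div_iff₀ hm0, mul_comm]
    exact h1
  refine h5.trans (le_of_eq ?_)
  field_simp

end Pool.Agent.Y669.UBA
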